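import Pool.Agent.TO.Tens

/-!
# The cancellation `∫ (v · ∇ w) · w = 0`
-/

set_option autoImplicit false

namespace Pool.Agent.TO

open MeasureTheory Set Filter Topology
open scoped SchwartzMap InnerProductSpace LineDeriv Laplacian ENNReal FourierTransform ComplexConjugate
open scoped Real

theorem norm_reP_le (z : F3) : ‖reP z‖ ≤ ‖z‖ := by
  rw [EuclideanSpace.norm_eq, EuclideanSpace.norm_eq]
  apply Real.sqrt_le_sqrt
  refine Finset.sum_le_sum fun i _ => ?_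
  rw [reP_apply]
  have := Complex.abs_re_le_norm (z i)
  rw [Real.norm_eq_abs]
  gcongr

theorem reS_sub_le (φ : 𝓢(E3, F3)) (f : V3) :
    ‖(reS φ).toLp 2 (volume : Measure E3) - f‖ ≤ ‖φ.toLp 2 (volume : Measure E3) - cplx f‖ := by
  apply Lp.norm_le_norm_of_ae_le
  filter_upwards [Lp.coeFn_sub ((reS φ).toLp 2 (volume : Measure E3)) f,
    Lp.coeFn_sub (φ.toLp 2 (volume : Measure E3)) (cplx f),
    (reS φ).coeFn_toLp 2 (volume : Measure E3), φ.coeFn_toLp 2 (volume : Measure E3),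
    coe_cplx f] with x h1 h2 h3 h4 h5
  rw [h1, h2, Pi.sub_apply, Pi.sub_apply, h3, h4, h5, reS_apply]
  have h6 : reP (φ x) - f x = reP (φ x - incl (f x)) := by
    rw [map_sub]
    congr 1
  rw [h6]
  exact norm_reP_le _

/-- Schwartz fields are dense in `H¹` -/
theorem exists_approx_real (w : V3) (d : Fin 3 → V3) (h : ∀ k, IsWeakDeriv k w (d k)) {ε : ℝ}
    (hε : 0 < ε) : ∃ ψ : 𝓢(E3, E3), ‖ψ.toLp 2 (volume : Measure E3) - w‖ < ε ∧
      ∀ k, ‖(∂_{ee k} ψ).toLp 2 (volume : Measure E3) - d k‖ < ε := by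
  have h1 : ∀ᶠ n : ℕ in atTop, ‖PP n (cplx w) - cplx w‖ < ε / 2 := by
    have := (tendsto_iff_norm_sub_tendsto_zero.1 (tendsto_PP (cplx w)))
    exact this.eventually (gt_mem_nhds (by positivity))
  have h2 : ∀ᶠ n : ℕ in atTop, ∀ k, ‖PP n (cplx (d k)) - cplx (d k)‖ < ε / 2 := by
    rw [eventually_all]
    intro k
    have := (tendsto_iff_norm_sub_tendsto_zero.1 (tendsto_PP (cplx (d k))))
    exact this.eventually (gt_mem_nhds (by positivity))
  obtain ⟨n, h3, h4⟩ := (h1.and h2).exists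
  obtain ⟨φ, h5, h6⟩ := exists_approx (cplx w) n (ε := ε / 2) (by positivity)
  refine ⟨reS φ, ?_, fun k => ?_⟩
  · refine (reS_sub_le φ w).trans_lt ?_
    calc ‖φ.toLp 2 (volume : Measure E3) - cplx w‖
        ≤ ‖φ.toLp 2 (volume : Measure E3) - PP n (cplx w)‖ + ‖PP n (cplx w) - cplx w‖ :=
          norm_sub_le_norm_sub_add_norm_sub _ _ _
      _ < ε / 2 + ε / 2 := add_lt_add h5 h3
      _ = ε := by ring
  · rw [reS_lineDeriv]
    refine (reS_sub_le _ _).trans_lt ?_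
    have h7 := h6 k
    rw [(h k).DD_eq] at h7
    have h8 := h4 k
    have h9 := norm_sub_le_norm_sub_add_norm_sub ((∂_{ee k} φ).toLp 2 (volume : Measure E3))
      (PP n (cplx (d k))) (cplx (d k))
    linarith

theorem tens_sub_le (k : Fin 3) {v : V3} {B : ℝ} (hv : Bd v B) (w w' : V3) :
    ‖tens k v w - tens k v w'‖ ≤ B * ‖w - w'‖ := by
  apply Lp.norm_le_mul_norm_of_ae_le_mul
  filter_upwards [Lp.coeFn_sub (tens k v w) (tens k v w'), Lp.coeFn_sub w w',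
    coe_tens_left k hv w, coe_tens_left k hv w', hv] with x h1 h2 h3 h4 h5
  rw [h1, h2, Pi.sub_apply, Pi.sub_apply, h3, h4, ← smul_sub, norm_smul]
  exact mul_le_mul_of_nonneg_right ((PiLp.norm_apply_le (v x) k).trans h5) (norm_nonneg _)

/-- the square of the norm of a Schwartz field -/
noncomputable def sqS (ψ : 𝓢(E3, E3)) : 𝓢(E3, ℝ) :=
  SchwartzMap.pairing (innerSL ℝ : E3 →L[ℝ] E3 →L[ℝ] ℝ) ψ ψ

theorem fderiv_sqS (ψ : 𝓢(E3, E3)) (x v : E3) :
    fderiv ℝ (sqS ψ) x v = 2 * ⟪fderiv ℝ ψ x v, ψ x⟫_ℝ := by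
  have h1 : (sqS ψ : E3 → ℝ) = fun y => ⟪ψ y, ψ y⟫_ℝ := rfl
  rw [h1, fderiv_inner_apply ℝ (ψ.differentiableAt) (ψ.differentiableAt),
    real_inner_comm (fderiv ℝ ψ x v) (ψ x)]
  ring

theorem cancel_schwartz {v : V3} {B : ℝ} (hv : Bd v B) (hd : IsDivFree v) (ψ : 𝓢(E3, E3)) :
    ∑ k, ⟪(∂_{ee k} ψ).toLp 2 (volume : Measure E3),
      tens k v (ψ.toLp 2 (volume : Measure E3))⟫_ℝ = 0 := by
  have h1 := hd (sqS ψ)
  simp only [L2.inner_def (𝕜 := ℝ)]
  rw [← integral_finsetSum _ (fun k _ => L2.integrable_inner (𝕜 := ℝ) _ _)]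
  have h2 : ∫ x, fderiv ℝ (sqS ψ) x (v x) =
      2 * ∫ x, ∑ k, ⟪(((∂_{ee k} ψ).toLp 2 (volume : Measure E3) : V3) : E3 → E3) x,
        (tens k v (ψ.toLp 2 (volume : Measure E3)) : E3 → E3) x⟫_ℝ := by
    rw [← integral_const_mul]
    apply integral_congr_ae
    filter_upwards [coe_tens_left 0 hv (ψ.toLp 2 (volume : Measure E3)),
      coe_tens_left 1 hv (ψ.toLp 2 (volume : Measure E3)),
      coe_tens_left 2 hv (ψ.toLp 2 (volume : Measure E3)),
      (∂_{ee 0} ψ).coeFn_toLp 2 (volume : Measure E3),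
      (∂_{ee 1} ψ).coeFn_toLp 2 (volume : Measure E3),
      (∂_{ee 2} ψ).coeFn_toLp 2 (volume : Measure E3),
      ψ.coeFn_toLp 2 (volume : Measure E3)] with x g0 g1 g2 g3 g4 g5 g6
    rw [fderiv_sqS, fderiv_field_eq_sum, Fin.sum_univ_three, Fin.sum_univ_three, g0, g1, g2, g3,
      g4, g5, g6]
    simp only [inner_add_left, inner_smul_left, inner_smul_right, conj_trivial]
  rw [h2] at h1
  linarith

/-- the cancellation of the transport term -/
theorem cancel {v : V3} {B : ℝ} (hv : Bd v B) (hd : IsDivFree v) {w : V3} {d : Fin 3 → V3}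
    (h : ∀ k, IsWeakDeriv k w (d k)) : ∑ k, ⟪d k, tens k v w⟫_ℝ = 0 := by
  choose ψ h1 h2 using fun n : ℕ => exists_approx_real w d h (ε := 1 / ((n:ℝ) + 1))
    (by positivity)
  have hlim : Tendsto (fun n : ℕ => 1 / ((n:ℝ) + 1)) atTop (𝓝 0) :=
    tendsto_one_div_add_atTop_nhds_zero_nat
  have h3 : Tendsto (fun n => (ψ n).toLp 2 (volume : Measure E3)) atTop (𝓝 w) := by
    rw [tendsto_iff_norm_sub_tendsto_zero]
    exact squeeze_zero (fun n => norm_nonneg _) (fun n => (h1 n).le) hlim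
  have h4 : ∀ k, Tendsto (fun n => (∂_{ee k} (ψ n)).toLp 2 (volume : Measure E3)) atTop
      (𝓝 (d k)) := by
    intro k
    rw [tendsto_iff_norm_sub_tendsto_zero]
    exact squeeze_zero (fun n => norm_nonneg _) (fun n => (h2 n k).le) hlim
  have h5 : ∀ k, Tendsto (fun n => tens k v ((ψ n).toLp 2 (volume : Measure E3))) atTop
      (𝓝 (tens k v w)) := by
    intro k
    rw [tendsto_iff_norm_sub_tendsto_zero]
    have h6 := (tendsto_iff_norm_sub_tendsto_zero.1 h3).const_mul B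
    rw [mul_zero] at h6
    exact squeeze_zero (fun n => norm_nonneg _) (fun n => tens_sub_le k hv _ _) h6
  have h6 : Tendsto (fun n => ∑ k, ⟪(∂_{ee k} (ψ n)).toLp 2 (volume : Measure E3),
      tens k v ((ψ n).toLp 2 (volume : Measure E3))⟫_ℝ) atTop (𝓝 (∑ k, ⟪d k, tens k v w⟫_ℝ)) :=
    tendsto_finsetSum _ fun k _ => (h4 k).inner (h5 k)
  have h7 : ∀ n, ∑ k, ⟪(∂_{ee k} (ψ n)).toLp 2 (volume : Measure E3),
      tens k v ((ψ n).toLp 2 (volume : Measure E3))⟫_ℝ = 0 := fun n =>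
    cancel_schwartz hv hd (ψ n)
  simp only [h7] at h6
  exact (tendsto_nhds_unique h6 tendsto_const_nhds)

theorem sum_sq_tens_le {u : V3} {A : ℝ} (hu : Bd u A) (w : V3) :
    ∑ k, ‖tens k w u‖ ^ 2 ≤ (A * ‖w‖) ^ 2 := by
  simp only [norm_sq_eq_real]
  rw [← integral_finsetSum _ (fun k _ => integrable_norm_sq_real _), mul_pow,
    norm_sq_eq_real, ← integral_const_mul]
  apply integral_mono_ae
  · exact integrable_finsetSum _ (fun k _ => integrable_norm_sq_real _)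
  · exact (integrable_norm_sq_real w).const_mul _
  filter_upwards [coe_tens_right 0 w hu, coe_tens_right 1 w hu, coe_tens_right 2 w hu, hu]
    with x h0 h1 h2 h3
  rw [Fin.sum_univ_three, h0, h1, h2, norm_smul, norm_smul, norm_smul, mul_pow, mul_pow, mul_pow,
    ← add_mul, ← add_mul]
  have h4 : ‖(w x) 0‖ ^ 2 + ‖(w x) 1‖ ^ 2 + ‖(w x) 2‖ ^ 2 = ‖w x‖ ^ 2 := by
    rw [← sum_sq_eq, Fin.sum_univ_three]
    simp
  rw [h4, mul_comm]
  have := pow_le_pow_left₀ (norm_nonneg _) h3 2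
  gcongr

theorem sum_inner_le (d e : Fin 3 → V3) :
    ∑ k, ⟪d k, e k⟫_ℝ ≤ √(∑ k, ‖d k‖ ^ 2) * √(∑ k, ‖e k‖ ^ 2) := by
  calc ∑ k, ⟪d k, e k⟫_ℝ ≤ ∑ k, ‖d k‖ * ‖e k‖ :=
        Finset.sum_le_sum fun k _ => real_inner_le_norm _ _
    _ ≤ √(∑ k, ‖d k‖ ^ 2) * √(∑ k, ‖e k‖ ^ 2) :=
        Real.sum_mul_le_sqrt_mul_sqrt _ _ _

/-- the nonlinear term tested with `∇ w` -/
theorem sum_inner_NN_le {u v : V3} {A B : ℝ} (hA : 0 ≤ A) (hu : Bd u A) (hv : Bd v B)
    (hd : IsDivFree v) {d : Fin 3 → V3} (h : ∀ k, IsWeakDeriv k (v - u) (d k)) :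
    ∑ k, ⟪d k, NN k u v⟫_ℝ ≤ A * ‖v - u‖ * √(∑ k, ‖d k‖ ^ 2) := by
  simp only [NN, inner_add_right, Finset.sum_add_distrib]
  rw [cancel hv hd h, zero_add]
  refine (sum_inner_le _ _).trans ?_
  have h1 := sum_sq_tens_le hu (v - u)
  have h2 : √(∑ k, ‖tens k (v - u) u‖ ^ 2) ≤ A * ‖v - u‖ := by
    rw [← Real.sqrt_sq (by positivity : 0 ≤ A * ‖v - u‖)]
    exact Real.sqrt_le_sqrt h1
  rw [mul_comm]
  exact mul_le_mul_of_nonneg_right h2 (Real.sqrt_nonneg _)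

end Pool.Agent.TO
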