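import Pool.Agent.TO.En

/-!
# The energy equality for the difference
-/

set_option autoImplicit false

namespace Pool.Agent.TO

open MeasureTheory Set Filter Topology
open scoped SchwartzMap InnerProductSpace LineDeriv Laplacian ENNReal FourierTransform ComplexConjugate
open scoped Real

variable {T : ℝ} {u₀ : V3} {u v : ℝ → V3} {a b : ℝ → ℝ}

theorem IsWeakDeriv.sub {k : Fin 3} {f g f' g' : V3} (h : IsWeakDeriv k f f')
    (h' : IsWeakDeriv k g g') : IsWeakDeriv k (f - g) (f' - g') := by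
  intro φ
  have h1 := h φ
  have h2 := h' φ
  rw [integral_inner_eq, integral_inner_eq] at h1 h2 ⊢
  rw [inner_sub_right, inner_sub_right, h1, h2]
  ring

/-- measurability of the norm of a weak derivative -/
theorem meas_weak {k : Fin 3} {f d : ℝ → V3} {μ : Measure ℝ} (hf : AEStronglyMeasurable f μ)
    (h : ∀ᵐ τ ∂μ, IsWeakDeriv k (f τ) (d τ)) :
    AEStronglyMeasurable (fun τ => ‖d τ‖) μ := by
  refine aestronglyMeasurable_of_tendsto_ae atTop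
    (f := fun (n : ℕ) τ => ‖DD k n (cplx (f τ))‖) (fun n => ?_) ?_
  · have hc : Continuous (fun g : V3 => ‖DD k n (cplx g)‖) := by fun_prop
    exact hc.comp_aestronglyMeasurable hf
  · filter_upwards [h] with τ hτ
    have h1 := (tendsto_PP (cplx (d τ))).norm
    rw [norm_cplx] at h1
    refine h1.congr fun n => ?_
    rw [hτ.DD_eq]

theorem sq_enorm_eq (f : V3) : ‖f‖ₑ ^ 2 = ENNReal.ofReal (‖f‖ ^ 2) := by
  rw [← ofReal_norm, ENNReal.ofReal_pow (norm_nonneg _)]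

/-- a Leray solution has an integrable squared gradient -/
theorem IsLeray.exists_grad (h : IsLeray T u₀ u) : ∃ D : ℝ → Fin 3 → V3,
    (∀ᵐ t ∂(volume.restrict (Ioo 0 T)), ∀ k, IsWeakDeriv k (u t) (D t k)) ∧
    ∀ t ∈ Ico 0 T, IntegrableOn (fun τ => ∑ k, ‖D τ k‖ ^ 2) (Ioo 0 t) volume := by
  obtain ⟨D, h1, h2⟩ := h.energy
  refine ⟨D, h1, fun t ht => ?_⟩
  have hsub : Ioo 0 t ⊆ Ioo 0 T := Ioo_subset_Ioo le_rfl ht.2.le
  have hmeas : AEStronglyMeasurable (fun τ => ∑ k, ‖D τ k‖ ^ 2) (volume.restrict (Ioo 0 t)) := by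
    refine Finset.aestronglyMeasurable_fun_sum _ fun k _ => ?_
    have h3 : AEStronglyMeasurable (fun τ => ‖D τ k‖) (volume.restrict (Ioo 0 t)) := by
      apply meas_weak (k := k) (f := u) (h.meas.mono_measure (Measure.restrict_mono hsub le_rfl))
      filter_upwards [ae_restrict_of_ae_restrict_of_subset hsub h1] with τ hτ
      exact hτ k
    exact h3.pow 2
  refine ⟨hmeas, ?_⟩
  rw [hasFiniteIntegral_iff_enorm]
  have h3 : ∀ τ, ‖∑ k, ‖D τ k‖ ^ 2‖ₑ = ∑ k, ‖D τ k‖ₑ ^ 2 := by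
    intro τ
    rw [Real.enorm_of_nonneg (Finset.sum_nonneg fun k _ => by positivity),
      ENNReal.ofReal_sum_of_nonneg (fun k _ => by positivity)]
    exact Finset.sum_congr rfl fun k _ => (sq_enorm_eq _).symm
  simp only [h3]
  have h4 : 2 * ∫⁻ s in Ioo 0 t, ∑ k, ‖D s k‖ₑ ^ 2 ≤ ‖u₀‖ₑ ^ 2 :=
    le_trans (le_add_of_nonneg_left zero_le) (h2 t ht)
  have h5 : ‖u₀‖ₑ ^ 2 < ∞ := by
    rw [sq_enorm_eq]
    exact ENNReal.ofReal_lt_top
  have h6 : 2 * ∫⁻ s in Ioo 0 t, ∑ k, ‖D s k‖ₑ ^ 2 < ∞ := h4.trans_lt h5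
  by_contra hcon
  push Not at hcon
  rw [top_le_iff.1 hcon] at h6
  simp at h6

theorem sum_sq_sub_le (d e : Fin 3 → V3) :
    ∑ k, ‖d k - e k‖ ^ 2 ≤ 2 * ∑ k, ‖d k‖ ^ 2 + 2 * ∑ k, ‖e k‖ ^ 2 := by
  rw [Finset.mul_sum, Finset.mul_sum, ← Finset.sum_add_distrib]
  refine Finset.sum_le_sum fun k _ => ?_
  have h1 := norm_sub_le (d k) (e k)
  have h2 := norm_nonneg (d k - e k)
  nlinarith [sq_nonneg (‖d k‖ - ‖e k‖), norm_nonneg (d k), norm_nonneg (e k)]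

/-- the gradient of the difference -/
theorem Pair.exists_grad (P : Pair T u₀ u v a b) : ∃ D : ℝ → Fin 3 → V3,
    (∀ᵐ t ∂(volume.restrict (Ioo 0 T)), ∀ k, IsWeakDeriv k (v t - u t) (D t k)) ∧
    ∀ t ∈ Ico 0 T, IntegrableOn (fun τ => ∑ k, ‖D τ k‖ ^ 2) (Ioo 0 t) volume := by
  obtain ⟨D, h1, h2⟩ := P.hu.exists_grad
  obtain ⟨D', h1', h2'⟩ := P.hv.exists_grad
  have h3 : ∀ᵐ t ∂(volume.restrict (Ioo 0 T)), ∀ k,
      IsWeakDeriv k (v t - u t) (D' t k - D t k) := by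
    filter_upwards [h1, h1'] with τ g g' k
    exact (g' k).sub (g k)
  refine ⟨fun t k => D' t k - D t k, h3, fun t ht => ?_⟩
  have hsub : Ioo 0 t ⊆ Ioo 0 T := Ioo_subset_Ioo le_rfl ht.2.le
  refine Integrable.mono' (((h2' t ht).const_mul 2).add ((h2 t ht).const_mul 2)) ?_ ?_
  · refine Finset.aestronglyMeasurable_fun_sum _ fun k _ => ?_
    have h4 : AEStronglyMeasurable (fun τ => ‖D' τ k - D τ k‖) (volume.restrict (Ioo 0 t)) := by
      apply meas_weak (k := k) (f := fun τ => v τ - u τ)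
        ((P.hv.meas.sub P.hu.meas).mono_measure (Measure.restrict_mono hsub le_rfl))
      filter_upwards [ae_restrict_of_ae_restrict_of_subset hsub h3] with τ hτ
      exact hτ k
    exact h4.pow 2
  · refine Eventually.of_forall fun τ => ?_
    rw [Real.norm_of_nonneg (Finset.sum_nonneg fun k _ => by positivity)]
    exact sum_sq_sub_le _ _

/-- the energy equality for the difference -/
theorem Pair.energy_eq (P : Pair T u₀ u v a b) {D : ℝ → Fin 3 → V3}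
    (hD : ∀ᵐ t ∂(volume.restrict (Ioo 0 T)), ∀ k, IsWeakDeriv k (v t - u t) (D t k))
    (hDi : ∀ t ∈ Ico 0 T, IntegrableOn (fun τ => ∑ k, ‖D τ k‖ ^ 2) (Ioo 0 t) volume)
    {s t : ℝ} (hs : 0 < s) (hst : s ≤ t) (ht : t < T) :
    IntegrableOn (fun τ => -(∑ k, ‖D τ k‖ ^ 2) + ∑ k, ⟪D τ k, NN k (u τ) (v τ)⟫_ℝ) (Ioo s t)
      volume ∧
    ‖v t - u t‖ ^ 2 - ‖v s - u s‖ ^ 2 =
      2 * ∫ τ in Ioo s t, (-(∑ k, ‖D τ k‖ ^ 2) + ∑ k, ⟪D τ k, NN k (u τ) (v τ)⟫_ℝ) := by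
  set g : ℝ → ℝ := fun τ => -(∑ k, ‖D τ k‖ ^ 2) + ∑ k, ⟪D τ k, NN k (u τ) (v τ)⟫_ℝ with hg
  set F : ℕ → ℝ → ℝ := fun n τ => dia n (u τ) (v τ) with hF
  set M : ℝ → ℝ := fun τ => 2 * ∑ k, ‖D τ k‖ ^ 2 + (2 * a τ ^ 2 + 2 * b τ ^ 2) * (2 * ‖u₀‖) ^ 2
    with hM
  have hsubT : Ioo s t ⊆ Ioo 0 T := Ioo_subset_Ioo hs.le ht.le
  have hsub0 : Ioo s t ⊆ Ioo 0 t := Ioo_subset_Ioo hs.le le_rfl
  have hD' := ae_restrict_of_ae_restrict_of_subset hsubT hD
  have hMi : IntegrableOn M (Ioo s t) volume := by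
    have i1 := (hDi t ⟨hs.le.trans hst, ht⟩).mono_set hsub0
    have i2 := P.ha2 s t hs hst ht
    have i3 := P.hb2 s t hs hst ht
    rw [intervalIntegrable_iff_integrableOn_Ioo_of_le hst] at i2 i3
    exact (i1.const_mul 2).add (((i2.const_mul 2).add (i3.const_mul 2)).mul_const _)
  have hFi : ∀ n, IntegrableOn (F n) (Ioo s t) volume := by
    intro n
    have := (P.energy_PP n hs.le hst ht).2.1
    rwa [intervalIntegrable_iff_integrableOn_Ioo_of_le hst] at this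
  have hlim : ∀ᵐ τ ∂(volume.restrict (Ioo s t)), Tendsto (fun n => F n τ) atTop (𝓝 (g τ)) := by
    filter_upwards [hD'] with τ h1
    have h2 : ∀ k, Tendsto (fun n : ℕ => DD k n (cplx (v τ - u τ))) atTop (𝓝 (cplx (D τ k))) := by
      intro k
      refine (tendsto_PP (cplx (D τ k))).congr fun n => ?_
      rw [(h1 k).DD_eq]
    have h3 : Tendsto (fun n : ℕ => F n τ) atTop (𝓝 (-(∑ k, ‖cplx (D τ k)‖ ^ 2) +
        ∑ k, RCLike.re ⟪cplx (D τ k), cplx (NN k (u τ) (v τ))⟫_ℂ)) := by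
      simp only [hF]
      unfold dia
      refine Tendsto.add ?_ ?_
      · exact (tendsto_finsetSum _ fun k _ => ((h2 k).norm.pow 2)).neg
      · refine tendsto_finsetSum _ fun k _ => ?_
        exact (RCLike.continuous_re.tendsto _).comp ((h2 k).inner tendsto_const_nhds)
    convert h3 using 2
    simp only [hg, norm_cplx, inner_cplx]
    congr 1
  have hbound : ∀ n, ∀ᵐ τ ∂(volume.restrict (Ioo s t)), ‖F n τ‖ ≤ M τ := by
    intro n
    filter_upwards [hD', P.ae_bd hs.le ht.le, ae_restrict_mem measurableSet_Ioo] with τ h1 h2 h3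
    have e0 : ∀ k, ‖DD k n (cplx (v τ - u τ))‖ ≤ ‖D τ k‖ := by
      intro k
      rw [(h1 k).DD_eq, ← norm_cplx (D τ k)]
      exact norm_PP_le _ _
    have e1 : ∑ k, ‖DD k n (cplx (v τ - u τ))‖ ^ 2 ≤ ∑ k, ‖D τ k‖ ^ 2 :=
      Finset.sum_le_sum fun k _ => pow_le_pow_left₀ (norm_nonneg _) (e0 k) 2
    have e2 : |∑ k, RCLike.re ⟪DD k n (cplx (v τ - u τ)), cplx (NN k (u τ) (v τ))⟫_ℂ| ≤
        √(∑ k, ‖D τ k‖ ^ 2) * √(∑ k, ‖NN k (u τ) (v τ)‖ ^ 2) := by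
      refine (Finset.abs_sum_le_sum_abs _ _).trans ?_
      calc ∑ k, |RCLike.re ⟪DD k n (cplx (v τ - u τ)), cplx (NN k (u τ) (v τ))⟫_ℂ|
          ≤ ∑ k, ‖D τ k‖ * ‖NN k (u τ) (v τ)‖ := by
            refine Finset.sum_le_sum fun k _ => ?_
            refine (RCLike.abs_re_le_norm _).trans ?_
            refine (norm_inner_le_norm _ _).trans ?_
            rw [norm_cplx]
            exact mul_le_mul_of_nonneg_right (e0 k) (norm_nonneg _)
        _ ≤ _ := Real.sum_mul_le_sqrt_mul_sqrt _ _ _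
    have e3 : ∑ k, ‖NN k (u τ) (v τ)‖ ^ 2 ≤ (2 * a τ ^ 2 + 2 * b τ ^ 2) * (2 * ‖u₀‖) ^ 2 := by
      refine (sum_sq_NN_le h2.1 h2.2).trans ?_
      rw [mul_pow]
      have g1 := P.norm_sub_le (t := τ) ⟨hs.le.trans h3.1.le, h3.2.trans ht⟩
      have g2 : (a τ + b τ) ^ 2 ≤ 2 * a τ ^ 2 + 2 * b τ ^ 2 := by
        nlinarith [sq_nonneg (a τ - b τ)]
      have g3 := pow_le_pow_left₀ (norm_nonneg _) g1 2
      exact mul_le_mul g2 g3 (by positivity) (by positivity)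
    have e4 : √(∑ k, ‖D τ k‖ ^ 2) * √(∑ k, ‖NN k (u τ) (v τ)‖ ^ 2) ≤
        ∑ k, ‖D τ k‖ ^ 2 + ∑ k, ‖NN k (u τ) (v τ)‖ ^ 2 := by
      have g1 := Real.sq_sqrt (Finset.sum_nonneg fun k (_ : k ∈ (Finset.univ : Finset (Fin 3))) =>
        sq_nonneg ‖D τ k‖)
      have g2 := Real.sq_sqrt (Finset.sum_nonneg fun k (_ : k ∈ (Finset.univ : Finset (Fin 3))) =>
        sq_nonneg ‖NN k (u τ) (v τ)‖)
      nlinarith [sq_nonneg (√(∑ k, ‖D τ k‖ ^ 2) - √(∑ k, ‖NN k (u τ) (v τ)‖ ^ 2)),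
        Real.sqrt_nonneg (∑ k, ‖D τ k‖ ^ 2), Real.sqrt_nonneg (∑ k, ‖NN k (u τ) (v τ)‖ ^ 2)]
    have e5 : 0 ≤ ∑ k, ‖DD k n (cplx (v τ - u τ))‖ ^ 2 :=
      Finset.sum_nonneg fun k _ => by positivity
    simp only [hF, hM]
    unfold dia
    rw [Real.norm_eq_abs]
    refine (abs_add_le _ _).trans ?_
    rw [abs_neg, abs_of_nonneg e5]
    linarith
  have hgi : IntegrableOn g (Ioo s t) volume := by
    refine Integrable.mono' hMi (aestronglyMeasurable_of_tendsto_ae atTop (fun n => (hFi n).1)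
      hlim) ?_
    filter_upwards [hlim, ae_all_iff.2 hbound] with τ h1 h2
    exact le_of_tendsto h1.norm (Eventually.of_forall h2)
  refine ⟨hgi, ?_⟩
  have lim1 : Tendsto (fun n => 2 * ∫ τ in Ioo s t, F n τ) atTop
      (𝓝 (2 * ∫ τ in Ioo s t, g τ)) :=
    (tendsto_integral_of_dominated_convergence M (fun n => (hFi n).1) hMi hbound hlim).const_mul 2
  have lim2 : Tendsto (fun n : ℕ => ‖PP n (cplx (v t - u t))‖ ^ 2 -
      ‖PP n (cplx (v s - u s))‖ ^ 2) atTop (𝓝 (‖v t - u t‖ ^ 2 - ‖v s - u s‖ ^ 2)) := by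
    have := ((tendsto_PP (cplx (v t - u t))).norm.pow 2).sub
      ((tendsto_PP (cplx (v s - u s))).norm.pow 2)
    rwa [norm_cplx, norm_cplx] at this
  have heq : ∀ n : ℕ, ‖PP n (cplx (v t - u t))‖ ^ 2 - ‖PP n (cplx (v s - u s))‖ ^ 2 =
      2 * ∫ τ in Ioo s t, F n τ := by
    intro n
    rw [(P.energy_PP n hs.le hst ht).2.2, intervalIntegral.integral_of_le hst,
      integral_Ioc_eq_integral_Ioo]
  simp only [heq] at lim2
  exact tendsto_nhds_unique lim2 lim1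

end Pool.Agent.TO
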