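import Mathlib

/-!
# The barrier argument
-/

set_option autoImplicit false

namespace Pool.Agent.TO

open MeasureTheory Set Filter Topology

/-- pointwise part: the growth rate is nonpositive near the running maximum -/
theorem growth_le {E G a S g θ δ m κ : ℝ} (hE : 0 ≤ E) (hG : 0 ≤ G) (ha : 0 ≤ a) (hS : 0 < S)
    (hδ : 0 < δ) (hδθ : 4 * (1 + δ) * (max θ 0) ^ 2 ≤ 1)
    (hg : g ≤ a * √E * √G - G) (hm : m = (1 + δ) * E)
    (hlow : ∀ x, 0 ≤ x → x * (E - x * S ^ 2 * m) ≤ G) (hκ0 : 0 ≤ κ)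
    (hκ : θ < a * S → a ^ 2 / 2 ≤ κ) :
    2 * g ≤ κ * E := by
  have hsE := Real.sq_sqrt hE
  have hsG := Real.sq_sqrt hG
  have h1 := Real.sqrt_nonneg E
  have h2 := Real.sqrt_nonneg G
  by_cases h : θ < a * S
  · have h3 : a ^ 2 / 2 * E ≤ κ * E := mul_le_mul_of_nonneg_right (hκ h) hE
    have h4 : 2 * g ≤ a ^ 2 / 2 * E := by nlinarith [sq_nonneg (a * √E - 2 * √G)]
    linarith
  · push Not at h
    have h3 : a * S ≤ max θ 0 := h.trans (le_max_left _ _)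
    have h4 : (a * S) ^ 2 ≤ (max θ 0) ^ 2 := pow_le_pow_left₀ (by positivity) h3 2
    have h5 : 4 * (1 + δ) * (a * S) ^ 2 ≤ 1 := by nlinarith
    have hx : 0 < 2 * (1 + δ) * S ^ 2 := by positivity
    have h6 := hlow (1 / (2 * (1 + δ) * S ^ 2)) (by positivity)
    have h7 : 1 / (2 * (1 + δ) * S ^ 2) * (E - 1 / (2 * (1 + δ) * S ^ 2) * S ^ 2 * m) =
        E / (4 * (1 + δ) * S ^ 2) := by
      rw [hm]
      have h8 : (1 + δ) ≠ 0 := by positivity
      have h9 : S ≠ 0 := hS.ne'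
      field_simp
      ring
    rw [h7] at h6
    have h8 : a ^ 2 * E ≤ G := by
      refine le_trans ?_ h6
      rw [le_div_iff₀ (by positivity)]
      nlinarith
    have h9 : a * √E ≤ √G := by
      rw [← Real.sqrt_sq ha, ← Real.sqrt_mul (sq_nonneg a)]
      exact Real.sqrt_le_sqrt h8
    have h10 : 2 * g ≤ 0 := by nlinarith
    have h11 : 0 ≤ κ * E := by positivity
    linarith

/-- the growth of `E` above its running maximum -/
theorem barrier_step {T θ δ : ℝ} {E G a S g κ : ℝ → ℝ} (hδ : 0 < δ)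
    (hδθ : 4 * (1 + δ) * (max θ 0) ^ 2 ≤ 1)
    (hEc : ContinuousOn E (Ico 0 T)) (hE : ∀ t, 0 ≤ E t) (hG : ∀ t, 0 ≤ G t) (ha : ∀ t, 0 ≤ a t)
    (hS : ∀ t ∈ Ioo 0 T, 0 < S t)
    (hg : ∀ s t, 0 < s → s ≤ t → t < T → IntegrableOn g (Ioo s t) volume ∧
      E t - E s ≤ 2 * ∫ τ in Ioo s t, g τ)
    (hgle : ∀ᵐ τ ∂(volume.restrict (Ioo 0 T)), g τ ≤ a τ * √(E τ) * √(G τ) - G τ)
    (hlow : ∀ᵐ τ ∂(volume.restrict (Ioo 0 T)), ∀ m, (∀ r ∈ Icc 0 τ, E r ≤ m) →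
      ∀ x, 0 ≤ x → x * (E τ - x * S τ ^ 2 * m) ≤ G τ)
    (hκ0 : ∀ τ, 0 ≤ κ τ) (hκ : ∀ᵐ τ ∂(volume.restrict (Ioo 0 T)), θ < a τ * S τ → a τ ^ 2 / 2 ≤ κ τ)
    (hB : ∀ t ∈ Ioo 0 T, IntegrableOn κ (Ioo 0 t) volume)
    {s t c M : ℝ} (hs : 0 < s) (hst : s ≤ t) (ht : t < T) (hc : 0 < c)
    (hcs : ∀ r ∈ Icc 0 s, E r ≤ c) (hM : ∀ r ∈ Icc 0 t, E r ≤ M) (r : ℝ) (hr : r ∈ Icc s t) :
    E r ≤ c + M * ∫ τ in s..r, κ τ := by
  have hM0 : 0 ≤ M := (hE 0).trans (hM 0 ⟨le_rfl, hs.le.trans hst⟩)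
  have hκi : IntervalIntegrable κ volume s t := by
    rw [intervalIntegrable_iff_integrableOn_Ioo_of_le hst]
    exact (hB t ⟨hs.trans_le hst, ht⟩).mono_set (Ioo_subset_Ioo_left hs.le)
  set Φ : ℝ → ℝ := fun x => c + M * ∫ τ in s..x, κ τ with hΦ
  have hΦc : ContinuousOn Φ (Icc s t) := by
    have := intervalIntegral.continuousOn_primitive_interval (a := s) (b := t) (μ := volume)
      (f := κ) (by
        rw [uIcc_of_le hst]
        rwa [intervalIntegrable_iff_integrableOn_Icc_of_le hst] at hκi)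
    rw [uIcc_of_le hst] at this
    exact (this.const_mul M).const_add c
  have hsub : ∀ x ∈ Icc s t, ∀ z ∈ Icc s t, Φ z - Φ x = M * ∫ τ in x..z, κ τ := by
    intro x hx z hz
    have i1 : IntervalIntegrable κ volume s x := by
      apply hκi.mono_set
      rw [uIcc_of_le hx.1, uIcc_of_le hst]
      exact Icc_subset_Icc_right hx.2
    have i2 : IntervalIntegrable κ volume s z := by
      apply hκi.mono_set
      rw [uIcc_of_le hz.1, uIcc_of_le hst]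
      exact Icc_subset_Icc_right hz.2
    have := intervalIntegral.integral_interval_sub_left i2 i1
    simp only [hΦ]
    rw [← this]
    ring
  have hΦmono : ∀ x ∈ Icc s t, ∀ z ∈ Icc s t, x ≤ z → Φ x ≤ Φ z := by
    intro x hx z hz hxz
    have h1 := hsub x hx z hz
    have h2 : 0 ≤ ∫ τ in x..z, κ τ := intervalIntegral.integral_nonneg hxz fun τ _ => hκ0 τ
    have : 0 ≤ M * ∫ τ in x..z, κ τ := by positivity
    linarith
  have hΦs : Φ s = c := by simp [hΦ]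
  have hIcc : Icc s t ⊆ Ico 0 T := fun x hx => ⟨hs.le.trans hx.1, hx.2.trans_lt ht⟩
  have hEc' : ContinuousOn E (Icc s t) := hEc.mono hIcc
  have hsI : s ∈ Icc s t := ⟨le_rfl, hst⟩
  by_contra hcon
  push Not at hcon
  change Φ r < E r at hcon
  -- first time above `Φ + η`
  set η : ℝ := min (E r - Φ r) (δ * c) with hη
  have hη0 : 0 < η := lt_min (by linarith) (by positivity)
  set A : Set ℝ := {x | x ∈ Icc s t ∧ Φ x + η ≤ E x} with hA
  have hAc : IsClosed A := isClosed_Icc.isClosed_le (hΦc.add_const η) hEc'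
  have hAn : A.Nonempty := ⟨r, hr, by
    have := min_le_left (E r - Φ r) (δ * c)
    linarith⟩
  have hAb : BddBelow A := ⟨s, fun x hx => hx.1.1⟩
  set r₂ : ℝ := sInf A with hr₂
  have hr₂A : r₂ ∈ A := hAc.csInf_mem hAn hAb
  have hbelow : ∀ x ∈ Icc s t, x < r₂ → E x < Φ x + η := by
    intro x hx hxr
    by_contra hc'
    push Not at hc'
    exact absurd (csInf_le hAb (show x ∈ A from ⟨hx, hc'⟩)) (not_le.2 hxr)
  have hsr₂ : s < r₂ := by
    rcases hr₂A.1.1.eq_or_lt with h1 | h1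
    · exfalso
      have h2 := hr₂A.2
      rw [← h1, hΦs] at h2
      have h3 := hcs s ⟨hs.le, le_rfl⟩
      linarith
    · exact h1
  -- last time before at which `E ≤ Φ`
  set A' : Set ℝ := {x | x ∈ Icc s r₂ ∧ E x ≤ Φ x} with hA'
  have hsubr : Icc s r₂ ⊆ Icc s t := Icc_subset_Icc_right hr₂A.1.2
  have hA'c : IsClosed A' := isClosed_Icc.isClosed_le (hEc'.mono hsubr) (hΦc.mono hsubr)
  have hA'n : A'.Nonempty := ⟨s, ⟨le_rfl, hsr₂.le⟩, by
    rw [hΦs]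
    exact hcs s ⟨hs.le, le_rfl⟩⟩
  have hA'b : BddAbove A' := ⟨r₂, fun x hx => hx.1.2⟩
  set r₁ : ℝ := sSup A' with hr₁
  have hr₁A : r₁ ∈ A' := hA'c.csSup_mem hA'n hA'b
  have habove : ∀ x ∈ Icc s r₂, r₁ < x → Φ x < E x := by
    intro x hx hxr
    by_contra hc'
    push Not at hc'
    exact absurd (le_csSup hA'b (show x ∈ A' from ⟨hx, hc'⟩)) (not_le.2 hxr)
  have hr₁₂ : r₁ < r₂ := by
    rcases hr₁A.1.2.eq_or_lt with h1 | h1
    · exfalso
      have h2 := hr₁A.2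
      have h3 := hr₂A.2
      rw [h1] at h2
      linarith
    · exact h1
  have hr₁I : r₁ ∈ Icc s t := hsubr hr₁A.1
  have hr₁0 : 0 < r₁ := hs.trans_le hr₁I.1
  have hr₂T : r₂ < T := hr₂A.1.2.trans_lt ht
  obtain ⟨hgi, hgE⟩ := hg r₁ r₂ hr₁0 hr₁₂.le hr₂T
  have hsubT : Ioo r₁ r₂ ⊆ Ioo 0 T := Ioo_subset_Ioo hr₁0.le hr₂T.le
  have hκi' : IntegrableOn κ (Ioo r₁ r₂) volume := by
    rw [intervalIntegrable_iff_integrableOn_Ioo_of_le hst] at hκi
    exact hκi.mono_set (Ioo_subset_Ioo hr₁I.1 hr₂A.1.2)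
  have hkey : ∫ τ in Ioo r₁ r₂, 2 * g τ ≤ ∫ τ in Ioo r₁ r₂, M * κ τ := by
    apply integral_mono_ae (hgi.const_mul 2) (hκi'.const_mul M)
    filter_upwards [ae_restrict_of_ae_restrict_of_subset hsubT hgle,
      ae_restrict_of_ae_restrict_of_subset hsubT hlow, ae_restrict_mem measurableSet_Ioo,
      ae_restrict_of_ae_restrict_of_subset hsubT hκ] with τ h1 h2 h3 hκτ
    have hτ : τ ∈ Icc s t := ⟨hr₁I.1.trans h3.1.le, h3.2.le.trans hr₂A.1.2⟩
    have hτ2 : τ ∈ Icc s r₂ := ⟨hτ.1, h3.2.le⟩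
    have hEτ : Φ τ < E τ := habove τ hτ2 h3.1
    have hcΦ : c ≤ Φ τ := by
      rw [← hΦs]
      exact hΦmono s hsI τ hτ hτ.1
    have hbd : ∀ x ∈ Icc 0 τ, E x ≤ (1 + δ) * E τ := by
      intro x hx
      rcases le_total x s with h4 | h4
      · have h5 := hcs x ⟨hx.1, h4⟩
        nlinarith [hE τ]
      · have hxI : x ∈ Icc s t := ⟨h4, hx.2.trans hτ.2⟩
        have h5 := hbelow x hxI (hx.2.trans_lt h3.2)
        have h6 := hΦmono x hxI τ hτ hx.2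
        have h7 := min_le_right (E r - Φ r) (δ * c)
        nlinarith
    have h4 := growth_le (m := (1 + δ) * E τ) (hE τ) (hG τ) (ha τ) (hS τ (hsubT h3)) hδ hδθ h1 rfl
      (h2 _ hbd) (hκ0 τ) hκτ
    have h5 : E τ ≤ M := hM τ ⟨hs.le.trans hτ.1, hτ.2⟩
    have h6 : κ τ * E τ ≤ κ τ * M := mul_le_mul_of_nonneg_left h5 (hκ0 τ)
    linarith
  rw [integral_const_mul, integral_const_mul] at hkey
  have h8 := hsub r₁ hr₁I r₂ hr₂A.1
  rw [intervalIntegral.integral_of_le hr₁₂.le, integral_Ioc_eq_integral_Ioo] at h8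
  have h9 := hr₁A.2
  have h10 := hr₂A.2
  linarith

/-- the barrier argument -/
theorem barrier {T θ : ℝ} {E G a S g κ : ℝ → ℝ} (hθ : θ < 1 / 2)
    (hEc : ContinuousOn E (Ico 0 T)) (hE0 : E 0 = 0)
    (hE : ∀ t, 0 ≤ E t) (hG : ∀ t, 0 ≤ G t) (ha : ∀ t, 0 ≤ a t)
    (hS : ∀ t ∈ Ioo 0 T, 0 < S t)
    (hg : ∀ s t, 0 < s → s ≤ t → t < T → IntegrableOn g (Ioo s t) volume ∧
      E t - E s ≤ 2 * ∫ τ in Ioo s t, g τ)
    (hgle : ∀ᵐ τ ∂(volume.restrict (Ioo 0 T)), g τ ≤ a τ * √(E τ) * √(G τ) - G τ)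
    (hlow : ∀ᵐ τ ∂(volume.restrict (Ioo 0 T)), ∀ m, (∀ r ∈ Icc 0 τ, E r ≤ m) →
      ∀ x, 0 ≤ x → x * (E τ - x * S τ ^ 2 * m) ≤ G τ)
    (hκ0 : ∀ τ, 0 ≤ κ τ) (hκ : ∀ᵐ τ ∂(volume.restrict (Ioo 0 T)), θ < a τ * S τ → a τ ^ 2 / 2 ≤ κ τ)
    (hB : ∀ t ∈ Ioo 0 T, IntegrableOn κ (Ioo 0 t) volume) : ∀ t ∈ Ico 0 T, E t = 0 := by
  set y : ℝ := 4 * (max θ 0) ^ 2 with hy
  have hy1 : y < 1 := by
    have h1 : max θ 0 < 1 / 2 := max_lt hθ (by norm_num)
    have h2 : 0 ≤ max θ 0 := le_max_right _ _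
    nlinarith
  set δ : ℝ := 1 - y with hδ
  have hδ0 : 0 < δ := by linarith
  have hδθ : 4 * (1 + δ) * (max θ 0) ^ 2 ≤ 1 := by
    have : 4 * (1 + δ) * (max θ 0) ^ 2 = (2 - y) * y := by
      rw [hδ, hy]; ring
    rw [this]
    nlinarith [sq_nonneg (y - 1)]
  intro t₁ ht₁
  -- the set of times up to which `E` vanishes
  set Z : Set ℝ := {t | t ∈ Icc 0 t₁ ∧ ∀ r ∈ Icc 0 t, E r = 0} with hZ
  have h0Z : (0:ℝ) ∈ Z := ⟨⟨le_rfl, ht₁.1⟩, fun r hr => by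
    rw [le_antisymm hr.2 hr.1]; exact hE0⟩
  have hZb : BddAbove Z := ⟨t₁, fun x hx => hx.1.2⟩
  set ts : ℝ := sSup Z with hts
  have hts0 : 0 ≤ ts := le_csSup hZb h0Z
  have hts1 : ts ≤ t₁ := csSup_le ⟨0, h0Z⟩ fun x hx => hx.1.2
  have hlt : ∀ r ∈ Ico 0 ts, E r = 0 := by
    intro r hr
    obtain ⟨x, hx, hrx⟩ := exists_lt_of_lt_csSup ⟨0, h0Z⟩ hr.2
    exact hx.2 r ⟨hr.1, hrx.le⟩
  have htsE : E ts = 0 := by
    rcases hts0.eq_or_lt with h1 | h1
    · rw [← h1]; exact hE0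
    · have hc : ContinuousWithinAt E (Ico 0 T) ts := hEc ts ⟨hts0, hts1.trans_lt ht₁.2⟩
      have hc' : ContinuousWithinAt E (Ico 0 ts) ts :=
        hc.mono (Ico_subset_Ico_right (hts1.trans ht₁.2.le))
      have hne : (𝓝[Ico 0 ts] ts).NeBot := by
        rw [← mem_closure_iff_nhdsWithin_neBot, closure_Ico h1.ne]
        exact ⟨hts0, le_rfl⟩
      have h2 : Tendsto E (𝓝[Ico 0 ts] ts) (𝓝 0) := by
        refine tendsto_const_nhds.congr' ?_
        filter_upwards [self_mem_nhdsWithin] with x hx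
        exact (hlt x hx).symm
      exact tendsto_nhds_unique hc'.tendsto h2
  have htsZ : ∀ r ∈ Icc 0 ts, E r = 0 := by
    intro r hr
    rcases hr.2.eq_or_lt with h1 | h1
    · rw [h1]; exact htsE
    · exact hlt r ⟨hr.1, h1⟩
  rcases hts1.eq_or_lt with h1 | h1
  · exact htsZ t₁ ⟨ht₁.1, h1.ge⟩
  exfalso
  -- a later time with small `∫ κ`
  have ht₁0 : 0 < t₁ := hts0.trans_lt h1
  have hκi : IntervalIntegrable κ volume 0 t₁ := by
    rw [intervalIntegrable_iff_integrableOn_Ioo_of_le ht₁.1]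
    exact hB t₁ ⟨ht₁0, ht₁.2⟩
  have hHc : ContinuousOn (fun x => ∫ τ in ts..x, κ τ) (Icc ts t₁) := by
    have hi : IntervalIntegrable κ volume ts t₁ := by
      apply hκi.mono_set
      rw [uIcc_of_le hts1, uIcc_of_le ht₁.1]
      exact Icc_subset_Icc_left hts0
    have := intervalIntegral.continuousOn_primitive_interval (a := ts) (b := t₁) (μ := volume)
      (f := κ) (by
        rw [uIcc_of_le hts1]
        rwa [intervalIntegrable_iff_integrableOn_Icc_of_le hts1] at hi)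
    rwa [uIcc_of_le hts1] at this
  obtain ⟨t', ht', ht'κ⟩ : ∃ t' ∈ Ioc ts t₁, ∫ τ in ts..t', κ τ ≤ 1 / 2 := by
    have h2 : Tendsto (fun x => ∫ τ in ts..x, κ τ) (𝓝[Icc ts t₁] ts) (𝓝 0) := by
      have := (hHc ts ⟨le_rfl, hts1⟩).tendsto
      simpa using this
    have h3 : ∀ᶠ x in 𝓝[Icc ts t₁] ts, ∫ τ in ts..x, κ τ < 1 / 2 :=
      h2.eventually (gt_mem_nhds (by norm_num))
    have h4 : ∀ᶠ x in 𝓝[Ioc ts t₁] ts, ∫ τ in ts..x, κ τ < 1 / 2 :=
      h3.filter_mono (nhdsWithin_mono _ Ioc_subset_Icc_self)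
    have hne : (𝓝[Ioc ts t₁] ts).NeBot := by
      rw [← mem_closure_iff_nhdsWithin_neBot, closure_Ioc h1.ne]
      exact ⟨le_rfl, hts1⟩
    obtain ⟨x, hx1, hx2⟩ := (h4.and self_mem_nhdsWithin).exists
    exact ⟨x, hx2, hx1.le⟩
  have ht'T : t' < T := ht'.2.trans_lt ht₁.2
  -- the maximum of `E` on `[0, t']`
  have ht'0 : 0 ≤ t' := hts0.trans ht'.1.le
  obtain ⟨rm, hrm, hmax⟩ := isCompact_Icc.exists_isMaxOn (s := Icc 0 t') ⟨0, le_rfl, ht'0⟩
    (hEc.mono (fun x hx => ⟨hx.1, hx.2.trans_lt ht'T⟩))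
  have hmax' : ∀ r ∈ Icc 0 t', E r ≤ E rm := fun r hr => hmax hr
  have hEm : E rm ≤ 0 := by
    rcases le_or_gt rm ts with h2 | h2
    · rw [htsZ rm ⟨hrm.1, h2⟩]
    have h3 : ∀ ε > 0, E rm ≤ ε + E rm * (1 / 2) := by
      intro ε hε
      -- `E ≤ ε` on `[0, s]`
      have hc : ContinuousWithinAt E (Ico 0 T) ts := hEc ts ⟨hts0, hts1.trans_lt ht₁.2⟩
      have h4 : ∀ᶠ x in 𝓝[Ico 0 T] ts, E x < ε := by
        have := hc.tendsto
        rw [htsE] at this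
        exact this.eventually (gt_mem_nhds hε)
      rw [eventually_nhdsWithin_iff] at h4
      obtain ⟨ρ, hρ, hρ'⟩ := Metric.eventually_nhds_iff.1 h4
      set s : ℝ := min (ts + ρ / 2) ((ts + rm) / 2) with hs
      have hs1 : ts < s := lt_min (by linarith) (by linarith)
      have hs2 : s < rm := (min_le_right _ _).trans_lt (by linarith)
      have hs3 : s ≤ ts + ρ / 2 := min_le_left _ _
      have hs0 : 0 < s := hts0.trans_lt hs1
      have hcs : ∀ r ∈ Icc 0 s, E r ≤ ε := by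
        intro r hr
        rcases le_or_gt r ts with h5 | h5
        · rw [htsZ r ⟨hr.1, h5⟩]
          exact hε.le
        · refine (hρ' ?_ ⟨hr.1, hr.2.trans_lt (hs2.trans_le (hrm.2.trans ht'T.le))⟩).le
          rw [Real.dist_eq, abs_of_pos (by linarith)]
          have := hr.2
          linarith
      have h5 := barrier_step hδ0 hδθ hEc hE hG ha hS hg hgle hlow hκ0 hκ hB hs0 (hs2.le.trans hrm.2)
        ht'T hε hcs hmax' rm ⟨hs2.le, hrm.2⟩
      refine h5.trans ?_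
      gcongr
      · exact hE rm
      change ∫ τ in s..rm, κ τ ≤ 1 / 2
      refine le_trans ?_ ht'κ
      have i1 : IntervalIntegrable κ volume ts t' := by
        apply hκi.mono_set
        rw [uIcc_of_le ht'.1.le, uIcc_of_le ht₁.1]
        exact Icc_subset_Icc hts0 ht'.2
      apply intervalIntegral.integral_mono_interval hs1.le hs2.le hrm.2
      · exact Eventually.of_forall fun τ => hκ0 τ
      · exact i1
    by_contra hcon
    push Not at hcon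
    have h4 := h3 (E rm / 4) (by linarith)
    linarith
  have ht'Z : t' ∈ Z := by
    refine ⟨⟨ht'0, ht'.2⟩, fun r hr => ?_⟩
    exact le_antisymm ((hmax' r hr).trans hEm) (hE r)
  exact absurd (le_csSup hZb ht'Z) (not_le.2 ht'.1)

end Pool.Agent.TO
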