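import Pool.Agent.TO.Lim
import Pool.Agent.TO.Barrier

/-!
# The uniqueness criterion
-/

set_option autoImplicit false

namespace Pool.Agent.TO

open MeasureTheory Set Filter Topology
open scoped SchwartzMap InnerProductSpace LineDeriv Laplacian ENNReal FourierTransform ComplexConjugate
open scoped Real

variable {T : ℝ} {u₀ : V3} {u v : ℝ → V3} {a b : ℝ → ℝ}

/-- strong continuity at the initial time -/
theorem IsLeray.tendsto_zero (h : IsLeray T u₀ u) (hT : 0 < T) :
    Tendsto (fun t => ‖u t - u₀‖ ^ 2) (𝓝[Ico 0 T] 0) (𝓝 0) := by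
  have h0 : (0:ℝ) ∈ Ico 0 T := ⟨le_rfl, hT⟩
  have h1 := (h.wcont u₀ 0 h0).tendsto
  simp only [h.init, real_inner_self_eq_norm_sq] at h1
  have h2 : Tendsto (fun t => 2 * ‖u₀‖ ^ 2 - 2 * ⟪u₀, u t⟫_ℝ) (𝓝[Ico 0 T] 0) (𝓝 0) := by
    have := (h1.const_mul 2).const_sub (2 * ‖u₀‖ ^ 2)
    rwa [sub_self] at this
  refine squeeze_zero' (Eventually.of_forall fun t => by positivity) ?_ h2
  filter_upwards [self_mem_nhdsWithin] with t ht
  have h3 := h.norm_le ht
  have h4 := norm_sub_sq_real (u t) u₀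
  rw [real_inner_comm] at h4
  have h5 : ‖u t‖ ^ 2 ≤ ‖u₀‖ ^ 2 := pow_le_pow_left₀ (norm_nonneg _) h3 2
  linarith

theorem sq_norm_sub_le {H : Type*} [NormedAddCommGroup H] (x y z : H) :
    ‖x - y‖ ^ 2 ≤ 2 * (‖y - z‖ ^ 2 + ‖x - z‖ ^ 2) := by
  have h3 : ‖x - y‖ ≤ ‖x - z‖ + ‖y - z‖ := by
    have : x - y = (x - z) - (y - z) := by abel
    rw [this]
    exact norm_sub_le _ _
  have h4 := norm_nonneg (x - y)
  nlinarith [sq_nonneg (‖y - z‖ - ‖x - z‖), norm_nonneg (y - z), norm_nonneg (x - z)]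

/-- continuity of the energy of the difference -/
theorem Pair.cont (P : Pair T u₀ u v a b) : ContinuousOn (fun t => ‖v t - u t‖ ^ 2) (Ico 0 T) := by
  intro t ht
  rcases ht.1.eq_or_lt with h | h
  · subst h
    have hT : 0 < T := ht.2
    have h1 := (((P.hu.tendsto_zero hT).add (P.hv.tendsto_zero hT)).const_mul 2)
    rw [add_zero, mul_zero] at h1
    have h2 : ‖v 0 - u 0‖ ^ 2 = 0 := by rw [P.hu.init, P.hv.init]; simp
    rw [ContinuousWithinAt, h2]
    exact squeeze_zero (fun t => by positivity) (fun t => sq_norm_sub_le (v t) (u t) u₀) h1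
  · obtain ⟨D, hD, hDi⟩ := P.exists_grad
    set g : ℝ → ℝ := fun τ => -(∑ k, ‖D τ k‖ ^ 2) + ∑ k, ⟪D τ k, NN k (u τ) (v τ)⟫_ℝ with hg
    set s : ℝ := t / 2 with hs
    set t₁ : ℝ := (t + T) / 2 with ht₁
    have htT := ht.2
    have hs0 : 0 < s := by positivity
    have hst : s < t := by rw [hs]; linarith
    have htt : t < t₁ := by rw [ht₁]; linarith
    have htT' : t₁ < T := by rw [ht₁]; linarith
    have hgi := (P.energy_eq hD hDi hs0 (hst.le.trans htt.le) htT').1
    have hi : IntervalIntegrable g volume s t₁ := by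
      rwa [intervalIntegrable_iff_integrableOn_Ioo_of_le (hst.le.trans htt.le)]
    have hc := intervalIntegral.continuousOn_primitive_interval (a := s) (b := t₁) (μ := volume)
      (f := g) (by
        rw [uIcc_of_le (hst.le.trans htt.le)]
        rwa [intervalIntegrable_iff_integrableOn_Icc_of_le (hst.le.trans htt.le)] at hi)
    rw [uIcc_of_le (hst.le.trans htt.le)] at hc
    have hE : ∀ x ∈ Icc s t₁, ‖v x - u x‖ ^ 2 = ‖v s - u s‖ ^ 2 + 2 * ∫ τ in s..x, g τ := by
      intro x hx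
      have h1 := (P.energy_eq hD hDi hs0 hx.1 (hx.2.trans_lt htT')).2
      rw [intervalIntegral.integral_of_le hx.1, integral_Ioc_eq_integral_Ioo]
      linarith
    have hc2 : ContinuousOn (fun x => ‖v x - u x‖ ^ 2) (Icc s t₁) :=
      ((hc.const_mul 2).const_add (‖v s - u s‖ ^ 2)).congr hE
    exact (hc2.continuousAt (Icc_mem_nhds hst htt)).continuousWithinAt

/-- the uniqueness criterion for a pair of Leray solutions -/
theorem Pair.eq (P : Pair T u₀ u v a b) {θ : ℝ} (hθ : θ < 1 / 2)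
    (hκ : ∀ t ∈ Ioo 0 T, IntegrableOn
      (fun τ => if θ < a τ * ∫ s in (0:ℝ)..τ, (a s + b s) then a τ ^ 2 else 0) (Ioo 0 t) volume) :
    ∀ t ∈ Ico 0 T, u t = v t := by
  obtain ⟨D, hD, hDi⟩ := P.exists_grad
  set g : ℝ → ℝ := fun τ => -(∑ k, ‖D τ k‖ ^ 2) + ∑ k, ⟪D τ k, NN k (u τ) (v τ)⟫_ℝ with hg
  set δ : ℝ := (1 / 2 - θ) / 2 with hδ
  have hδ0 : 0 < δ := by rw [hδ]; linarith
  have hθ' : θ + δ < 1 / 2 := by rw [hδ]; linarith
  set I : ℝ → ℝ := fun τ => ∫ s in (0:ℝ)..τ, (a s + b s) with hI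
  set S : ℝ → ℝ := fun τ => I τ + δ / (a τ + 1) with hS
  have ha0 := P.ha0
  have hb0 := P.hb0
  have hI0 : ∀ t ∈ Ioo 0 T, 0 ≤ I t := fun t ht =>
    intervalIntegral.integral_nonneg ht.1.le fun τ _ => add_nonneg (ha0 τ) (hb0 τ)
  have hd0 : ∀ t, 0 < δ / (a t + 1) := fun t => div_pos hδ0 (by linarith [ha0 t])
  have hS0 : ∀ t ∈ Ioo 0 T, 0 < S t := fun t ht => add_pos_of_nonneg_of_pos (hI0 t ht) (hd0 t)
  have key := barrier (T := T) (θ := θ + δ) (E := fun t => ‖v t - u t‖ ^ 2)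
    (G := fun τ => ∑ k, ‖D τ k‖ ^ 2) (a := a) (S := S) (g := g)
    (κ := fun τ => if θ < a τ * ∫ s in (0:ℝ)..τ, (a s + b s) then a τ ^ 2 else 0) hθ' P.cont
    (by simp [P.hu.init, P.hv.init]) (fun t => by positivity)
    (fun t => Finset.sum_nonneg fun k _ => by positivity) ha0 hS0
    (fun s t hs hst ht => by
      obtain ⟨h1, h2⟩ := P.energy_eq hD hDi hs hst ht
      exact ⟨h1, h2.le⟩)
    (by
      filter_upwards [hD, P.ae_bd le_rfl le_rfl, ae_restrict_mem measurableSet_Ioo] with τ h1 h2 h3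
      have h4 := sum_inner_NN_le (ha0 τ) h2.1 h2.2 (P.hv.div τ ⟨h3.1.le, h3.2⟩) h1
      simp only [hg, Real.sqrt_sq (norm_nonneg _)]
      linarith)
    (by
      filter_upwards [hD, ae_restrict_mem measurableSet_Ioo] with τ h1 h3 m hm x hx
      have hp := Real.pi_pos
      set K : ℝ := √x / (2 * π) with hK
      have hK0 : 0 ≤ K := by positivity
      have hKx : (2 * π * K) ^ 2 = x := by
        rw [hK]
        have : 2 * π * (√x / (2 * π)) = √x := by field_simp
        rw [this, Real.sq_sqrt hx]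
      have h4 := high_le_weak hK0 (v τ - u τ) (D τ) h1
      have h5 := P.low hK0 h3 hm
      have hm0 : 0 ≤ m := le_trans (by positivity) (hm 0 ⟨le_rfl, h3.1.le⟩)
      have h6 : ‖PP K (cplx (v τ - u τ))‖ ^ 2 ≤ x * S τ ^ 2 * m := by
        have h7 : ‖PP K (cplx (v τ - u τ))‖ ^ 2 ≤ (2 * π * K * I τ * √m) ^ 2 :=
          pow_le_pow_left₀ (norm_nonneg _) h5 2
        refine h7.trans ?_
        rw [mul_pow, mul_pow, hKx, Real.sq_sqrt hm0]
        have h8 : I τ ^ 2 ≤ S τ ^ 2 :=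
          pow_le_pow_left₀ (hI0 τ h3) (by simp only [hS]; linarith [hd0 τ]) 2
        gcongr
      rw [hKx] at h4
      refine le_trans ?_ h4
      gcongr)
    (fun τ => by
      split_ifs
      · positivity
      · exact le_rfl)
    (by
      refine Eventually.of_forall fun τ hτ => ?_
      have h1 : a τ * S τ ≤ a τ * I τ + δ := by
        simp only [hS]
        have h2 : a τ * (δ / (a τ + 1)) ≤ δ := by
          rw [mul_div_assoc', div_le_iff₀ (by linarith [ha0 τ])]
          nlinarith [ha0 τ]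
        linarith
      have h3 : θ < a τ * ∫ s in (0:ℝ)..τ, (a s + b s) := by
        change θ < a τ * I τ
        linarith
      simp only [if_pos h3]
      nlinarith [sq_nonneg (a τ)])
    hκ
  intro t ht
  have h1 : ‖v t - u t‖ ^ 2 = 0 := key t ht
  have h2 : v t - u t = 0 := by
    rw [← norm_eq_zero]
    exact pow_eq_zero_iff (two_ne_zero) |>.1 h1
  exact (sub_eq_zero.1 h2).symm

end Pool.Agent.TO
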