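import Pool.Agent.TO.Main

/-!
# Corollaries: solutions of Type I at the initial time
-/

set_option autoImplicit false

namespace Pool.Agent.TO

open MeasureTheory Set Filter Topology
open scoped SchwartzMap InnerProductSpace LineDeriv Laplacian ENNReal

variable {T : ℝ} {u₀ : V3} {u v : ℝ → V3} {a b : ℝ → ℝ}

theorem IsLeray.mono (h : IsLeray T u₀ u) {T' : ℝ} (hT : T' ≤ T) : IsLeray T' u₀ u where
  init := h.init
  meas := h.meas.mono_measure (Measure.restrict_mono (Ioo_subset_Ioo_right hT) le_rfl)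
  wcont g := (h.wcont g).mono (Ico_subset_Ico_right hT)
  div t ht := h.div t ⟨ht.1, ht.2.trans_le hT⟩
  eqn t ht := h.eqn t ⟨ht.1, ht.2.trans_le hT⟩
  energy := by
    obtain ⟨D, h1, h2⟩ := h.energy
    exact ⟨D, ae_restrict_of_ae_restrict_of_subset (Ioo_subset_Ioo_right hT) h1,
      fun t ht => h2 t ⟨ht.1, ht.2.trans_le hT⟩⟩

theorem BddBy.mono (h : BddBy T u a) {T' : ℝ} (hT : T' ≤ T) : BddBy T' u a :=
  ae_restrict_of_ae_restrict_of_subset (Ioo_subset_Ioo_right hT) h

theorem BddBy.mono_fun (h : BddBy T u a) {a' : ℝ → ℝ} (ha : ∀ t ∈ Ioo 0 T, a t ≤ a' t) :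
    BddBy T u a' := by
  rw [BddBy] at h ⊢
  filter_upwards [h, ae_restrict_mem measurableSet_Ioo] with t h1 h2
  filter_upwards [h1] with x hx
  exact hx.trans (ha t h2)

theorem integral_inv_sqrt {t : ℝ} (ht : 0 ≤ t) (c : ℝ) :
    IntervalIntegrable (fun s => c / √s) volume 0 t ∧
    ∫ s in (0:ℝ)..t, c / √s = 2 * c * √t := by
  have h1 : ∀ s : ℝ, c / √s = c * s ^ (-(1/2) : ℝ) := by
    intro s
    rcases le_or_gt 0 s with hs | hs
    · rw [Real.rpow_neg hs, Real.sqrt_eq_rpow, div_eq_mul_inv]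
    · rw [Real.sqrt_eq_zero_of_nonpos hs.le, div_zero,
        Real.rpow_def_of_neg hs]
      have : Real.cos (-(1/2) * Real.pi) = 0 := by
        rw [show (-(1/2) * Real.pi : ℝ) = -(Real.pi / 2) by ring, Real.cos_neg, Real.cos_pi_div_two]
      rw [this]
      ring
  constructor
  · simp_rw [h1]
    exact (intervalIntegral.intervalIntegrable_rpow' (by norm_num)).const_mul c
  · simp_rw [h1]
    rw [intervalIntegral.integral_const_mul, integral_rpow (Or.inl (by norm_num))]
    norm_num
    rw [Real.sqrt_eq_rpow]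
    ring

theorem integrable_sq_inv_sqrt {s t : ℝ} (hs : 0 < s) (c : ℝ) :
    IntervalIntegrable (fun τ => (c / √τ) ^ 2) volume s (max s t) := by
  apply ContinuousOn.intervalIntegrable
  rw [uIcc_of_le (le_max_left _ _)]
  apply ContinuousOn.pow
  apply ContinuousOn.div continuousOn_const Real.continuous_sqrt.continuousOn
  intro x hx
  exact (Real.sqrt_pos.2 (hs.trans_le hx.1)).ne'

/-- uniqueness for Leray solutions of Type I at the initial time -/
theorem typeOne {α β : ℝ} (hu : IsLeray T u₀ u) (hv : IsLeray T u₀ v)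
    (hα : 0 ≤ α) (hβ : 0 ≤ β) (hua : BddBy T u (fun t => α / √t))
    (hvb : BddBy T v (fun t => β / √t)) (h : α * (α + β) < 1 / 4) : ∀ t ∈ Ico 0 T, u t = v t := by
  have hsum : ∀ τ : ℝ, α / √τ + β / √τ = (α + β) / √τ := fun τ => by ring
  have P : Pair T u₀ u v (fun t => α / √t) (fun t => β / √t) :=
    { hu := hu, hv := hv, hua := hua, hvb := hvb
      ha0 := fun t => by positivity
      hb0 := fun t => by positivity
      hab := fun t ht => by
        simp_rw [hsum]
        exact (integral_inv_sqrt ht.1.le _).1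
      ha2 := fun s t hs hst ht => by
        have := integrable_sq_inv_sqrt (t := t) hs α
        rwa [max_eq_right hst] at this
      hb2 := fun s t hs hst ht => by
        have := integrable_sq_inv_sqrt (t := t) hs β
        rwa [max_eq_right hst] at this }
  have hθ : 2 * (α * (α + β)) < 1 / 2 := by linarith
  refine P.eq hθ fun t ht => ?_
  have h0 : ∀ τ ∈ Ioo 0 t, (if 2 * (α * (α + β)) < (fun t => α / √t) τ *
      ∫ s in (0:ℝ)..τ, ((fun t => α / √t) s + (fun t => β / √t) s) then (fun t => α / √t) τ ^ 2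
      else 0) = 0 := by
    intro τ hτ
    rw [if_neg]
    simp only [hsum]
    rw [(integral_inv_sqrt hτ.1.le _).2]
    have h1 := (Real.sqrt_pos.2 hτ.1).ne'
    have : α / √τ * (2 * (α + β) * √τ) = 2 * (α * (α + β)) := by field_simp
    rw [this]
    exact lt_irrefl _
  exact (integrableOn_congr_fun h0 measurableSet_Ioo).2 integrableOn_zero

/-- The form of Q1: a Leray solution with `√t ‖u(t)‖_∞ → 0` (such as the mild solution) coincides
near the initial time with every Leray solution of Type I. -/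
theorem typeOne_local (hT : 0 < T) (hu : IsLeray T u₀ u) (hv : IsLeray T u₀ v)
    (hua : ∀ ε > 0, ∃ δ > 0, BddBy δ u (fun t => ε / √t))
    (hvb : ∃ β, ∃ δ > 0, BddBy δ v (fun t => β / √t)) :
    ∃ T' > 0, ∀ t ∈ Ico 0 T', u t = v t := by
  obtain ⟨β, δ, hδ, hβ⟩ := hvb
  have hb0 : 0 ≤ |β| := abs_nonneg β
  set ε : ℝ := 1 / (8 * (1 + |β|)) with hε
  have hε0 : 0 < ε := by positivity
  obtain ⟨δ', hδ', hα⟩ := hua ε hε0
  set T' : ℝ := min T (min δ δ') with hT'
  refine ⟨T', lt_min hT (lt_min hδ hδ'), ?_⟩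
  apply typeOne (α := ε) (β := |β|) (hu.mono (min_le_left _ _)) (hv.mono (min_le_left _ _)) hε0.le hb0
    (hα.mono ((min_le_right _ _).trans (min_le_right _ _)))
    ((hβ.mono ((min_le_right _ _).trans (min_le_left _ _))).mono_fun fun t _ => by
      gcongr
      exact le_abs_self β)
  have h1 : ε ≤ 1 / 8 := by
    rw [hε]
    apply div_le_div_of_nonneg_left (by norm_num) (by norm_num)
    linarith
  have h2 : ε * |β| ≤ 1 / 8 := by
    rw [hε, div_mul_eq_mul_div, div_le_div_iff₀ (by positivity) (by norm_num)]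
    linarith
  nlinarith

end Pool.Agent.TO
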