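import Mathlib

/-!
# Weakly absolutely continuous curves in a Hilbert space
-/

set_option autoImplicit false

namespace Pool.Agent.TO

open MeasureTheory Set Filter Topology
open scoped InnerProductSpace

/-- a function whose increments are quadratic in a continuous monotone function is constant -/
theorem const_of_sq (Ψ M : ℝ → ℝ) {s t C : ℝ} (hst : s ≤ t) (hM : ContinuousOn M (Icc s t))
    (hmono : MonotoneOn M (Icc s t))
    (h : ∀ x ∈ Icc s t, ∀ z ∈ Icc s t, x ≤ z → |Ψ z - Ψ x| ≤ C * (M z - M x) ^ 2) :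
    Ψ t = Ψ s := by
  have hs : s ∈ Icc s t := ⟨le_rfl, hst⟩
  have ht : t ∈ Icc s t := ⟨hst, le_rfl⟩
  have hD : M s ≤ M t := hmono hs ht hst
  have key : ∀ n : ℕ, 0 < n → |Ψ t - Ψ s| ≤ C * (M t - M s) ^ 2 / n := by
    intro n hn
    have hn' : (0:ℝ) < n := by exact_mod_cast hn
    have hex : ∀ i : ℕ, ∃ x ∈ Icc s t, (i ≤ n → M x = M s + (i / n) * (M t - M s)) := by
      intro i
      by_cases hi : i ≤ n
      · have h1 : M s + ((i:ℝ) / n) * (M t - M s) ∈ Icc (M s) (M t) := by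
          have h2 : (0:ℝ) ≤ (i:ℝ) / n := by positivity
          have h3 : (i:ℝ) / n ≤ 1 := by
            rw [div_le_one hn']
            exact_mod_cast hi
          constructor <;> nlinarith
        obtain ⟨x, hx, hx'⟩ := intermediate_value_Icc hst hM h1
        exact ⟨x, hx, fun _ => hx'⟩
      · exact ⟨s, hs, fun h => absurd h hi⟩
    choose x hx hMx using hex
    have hclose : ∀ p ∈ Icc s t, ∀ q ∈ Icc s t, |Ψ q - Ψ p| ≤ C * (M q - M p) ^ 2 := by
      intro p hp q hq
      rcases le_total p q with h1 | h1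
      · exact h p hp q hq h1
      · rw [abs_sub_comm, show (M q - M p) ^ 2 = (M p - M q) ^ 2 by ring]
        exact h q hq p hp h1
    have h0 : Ψ (x 0) = Ψ s := by
      have h1 := hclose s hs (x 0) (hx 0)
      rw [hMx 0 (Nat.zero_le n)] at h1
      simp only [CharP.cast_eq_zero, zero_div, zero_mul, add_zero, sub_self, ne_eq,
        OfNat.ofNat_ne_zero, not_false_eq_true, zero_pow, mul_zero, abs_nonpos_iff] at h1
      linarith
    have h1 : Ψ (x n) = Ψ t := by
      have h1 := hclose t ht (x n) (hx n)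
      rw [hMx n le_rfl, div_self hn'.ne'] at h1
      have h2 : M s + 1 * (M t - M s) - M t = 0 := by ring
      rw [h2] at h1
      simp only [ne_eq, OfNat.ofNat_ne_zero, not_false_eq_true, zero_pow, mul_zero,
        abs_nonpos_iff] at h1
      linarith
    have hstep : ∀ i ∈ Finset.range n, |Ψ (x (i + 1)) - Ψ (x i)| ≤
        C * ((M t - M s) / n) ^ 2 := by
      intro i hi
      rw [Finset.mem_range] at hi
      have h2 := hclose (x i) (hx i) (x (i + 1)) (hx (i + 1))
      rw [hMx i hi.le, hMx (i + 1) hi] at h2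
      have h3 : M s + ((i + 1 : ℕ) : ℝ) / n * (M t - M s) - (M s + (i:ℝ) / n * (M t - M s)) =
          (M t - M s) / n := by
        push_cast
        field_simp
        ring
      rwa [h3] at h2
    have h4 : Ψ t - Ψ s = ∑ i ∈ Finset.range n, (Ψ (x (i + 1)) - Ψ (x i)) := by
      rw [Finset.sum_range_sub (fun i => Ψ (x i)), h0, h1]
    calc |Ψ t - Ψ s| ≤ ∑ i ∈ Finset.range n, |Ψ (x (i + 1)) - Ψ (x i)| := by
          rw [h4]; exact Finset.abs_sum_le_sum_abs _ _
      _ ≤ ∑ _i ∈ Finset.range n, C * ((M t - M s) / n) ^ 2 := Finset.sum_le_sum hstep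
      _ = C * (M t - M s) ^ 2 / n := by
          rw [Finset.sum_const, Finset.card_range, nsmul_eq_mul]
          field_simp
  have h5 : Tendsto (fun n : ℕ => C * (M t - M s) ^ 2 / n) atTop (𝓝 0) :=
    tendsto_const_div_atTop_nhds_zero_nat _
  have h6 : |Ψ t - Ψ s| ≤ 0 := by
    refine ge_of_tendsto h5 ?_
    filter_upwards [eventually_gt_atTop 0] with n hn
    exact key n hn
  have h7 := abs_nonpos_iff.1 h6
  linarith

section hilbert

variable {𝕜 H : Type*} [RCLike 𝕜] [NormedAddCommGroup H] [InnerProductSpace 𝕜 H]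

/-- The primitive of `m`. -/
theorem prim_sub {m : ℝ → ℝ} {s t : ℝ} (hm : IntervalIntegrable m volume s t)
    {x z : ℝ} (hx : x ∈ Icc s t) (hz : z ∈ Icc s t) :
    (∫ τ in s..z, m τ) - ∫ τ in s..x, m τ = ∫ τ in x..z, m τ := by
  have hst : s ≤ t := hx.1.trans hx.2
  have i1 : IntervalIntegrable m volume s x := by
    apply hm.mono_set
    rw [uIcc_of_le hx.1, uIcc_of_le hst]
    exact Icc_subset_Icc_right hx.2
  have i2 : IntervalIntegrable m volume s z := by
    apply hm.mono_set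
    rw [uIcc_of_le hz.1, uIcc_of_le hst]
    exact Icc_subset_Icc_right hz.2
  rw [intervalIntegral.integral_interval_sub_left i2 i1]

theorem sub_int {E : Type*} [NormedAddCommGroup E] {m : ℝ → E} {s t : ℝ}
    (hm : IntervalIntegrable m volume s t)
    {x z : ℝ} (hx : x ∈ Icc s t) (hz : z ∈ Icc s t) : IntervalIntegrable m volume x z := by
  apply hm.mono_set
  rw [uIcc_of_le (hx.1.trans hx.2)]
  exact ordConnected_Icc.uIcc_subset hx hz

theorem norm_sub_le_prim {y : ℝ → H} {Γ : ℝ → ℝ → ℝ} {m : ℝ → ℝ} {s t : ℝ}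
    (hm : IntervalIntegrable m volume s t)
    (hm0 : ∀ᵐ τ ∂(volume.restrict (Ioo s t)), 0 ≤ m τ)
    (h1 : ∀ r ∈ Icc s t, IntervalIntegrable (Γ r) volume s t)
    (h2 : ∀ r ∈ Icc s t, ∀ x ∈ Icc s t, ∀ z ∈ Icc s t, x ≤ z →
      RCLike.re ⟪y r, y z⟫_𝕜 - RCLike.re ⟪y r, y x⟫_𝕜 = ∫ τ in x..z, Γ r τ)
    (h3 : ∀ᵐ τ ∂(volume.restrict (Ioo s t)), ∀ r ∈ Icc s t, ∀ r' ∈ Icc s t,
      |Γ r τ - Γ r' τ| ≤ m τ * ‖y r - y r'‖) {x z : ℝ} (hx : x ∈ Icc s t) (hz : z ∈ Icc s t)
    (hxz : x ≤ z) : ‖y z - y x‖ ≤ ∫ τ in x..z, m τ := by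
  have e1 : ‖y z - y x‖ ^ 2 = ∫ τ in x..z, (Γ z τ - Γ x τ) := by
    rw [intervalIntegral.integral_sub (sub_int (h1 z hz) hx hz) (sub_int (h1 x hx) hx hz),
      ← h2 z hz x hx z hz hxz, ← h2 x hx x hx z hz hxz]
    rw [← inner_self_eq_norm_sq (𝕜 := 𝕜)]
    simp only [inner_sub_left, inner_sub_right, map_sub]
    ring
  have e2 : ∫ τ in x..z, (Γ z τ - Γ x τ) ≤ ∫ τ in x..z, m τ * ‖y z - y x‖ := by
    rw [intervalIntegral.integral_of_le hxz, intervalIntegral.integral_of_le hxz,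
      integral_Ioc_eq_integral_Ioo, integral_Ioc_eq_integral_Ioo]
    have i1 := (sub_int (h1 z hz) hx hz).sub (sub_int (h1 x hx) hx hz)
    have i2 := (sub_int hm hx hz).mul_const ‖y z - y x‖
    rw [intervalIntegrable_iff_integrableOn_Ioo_of_le hxz] at i1 i2
    apply integral_mono_ae i1 i2
    have h4 := ae_restrict_of_ae_restrict_of_subset (Ioo_subset_Ioo hx.1 hz.2) h3
    filter_upwards [h4] with τ h5
    exact (le_abs_self _).trans (h5 z hz x hx)
  rw [intervalIntegral.integral_mul_const, ← e1] at e2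
  have h6 : 0 ≤ ∫ τ in x..z, m τ := by
    rw [intervalIntegral.integral_of_le hxz, integral_Ioc_eq_integral_Ioo]
    apply integral_nonneg_of_ae
    exact ae_restrict_of_ae_restrict_of_subset (Ioo_subset_Ioo hx.1 hz.2) hm0
  by_cases h7 : ‖y z - y x‖ = 0
  · rw [h7]; exact h6
  · have h8 : 0 < ‖y z - y x‖ := lt_of_le_of_ne (norm_nonneg _) (Ne.symm h7)
    rw [pow_two] at e2
    exact le_of_mul_le_mul_right e2 h8

/-- measurability of the diagonal -/
theorem meas_diag {y : ℝ → H} {Γ : ℝ → ℝ → ℝ} {m : ℝ → ℝ} {s t : ℝ} (hst : s < t)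
    (hy : ContinuousOn y (Icc s t))
    (h1 : ∀ r ∈ Icc s t, IntervalIntegrable (Γ r) volume s t)
    (h3 : ∀ᵐ τ ∂(volume.restrict (Ioo s t)), ∀ r ∈ Icc s t, ∀ r' ∈ Icc s t,
      |Γ r τ - Γ r' τ| ≤ m τ * ‖y r - y r'‖) :
    AEStronglyMeasurable (fun τ => Γ τ τ) (volume.restrict (Ioo s t)) := by
  -- left endpoints of the uniform partition into `n + 1` pieces
  set p : ℕ → ℕ → ℝ := fun n k => s + k * ((t - s) / (n + 1)) with hp
  have hpmem : ∀ n k, k ≤ n → p n k ∈ Icc s t := by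
    intro n k hk
    have h4 : (0:ℝ) < n + 1 := by positivity
    have h5 : (k:ℝ) ≤ n + 1 := by
      have : (k:ℝ) ≤ n := by exact_mod_cast hk
      linarith
    have h6 : 0 < t - s := by linarith
    constructor
    · simp only [hp]
      have : 0 ≤ (k:ℝ) * ((t - s) / (n + 1)) := by positivity
      linarith
    · simp only [hp]
      have : (k:ℝ) * ((t - s) / (n + 1)) ≤ t - s := by
        rw [mul_div_assoc', div_le_iff₀ h4]
        nlinarith
      linarith
  set G : ℕ → ℝ → ℝ := fun n τ => ∑ k ∈ Finset.range (n + 1),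
    (Ico (p n k) (p n (k + 1))).indicator (Γ (p n k)) τ with hG
  have hGm : ∀ n, AEStronglyMeasurable (G n) (volume.restrict (Ioo s t)) := by
    intro n
    simp only [hG]
    refine Finset.aestronglyMeasurable_fun_sum _ fun k hk => ?_
    have hk' : k ≤ n := by
      rw [Finset.mem_range] at hk
      omega
    have h4 := h1 _ (hpmem n k hk')
    rw [intervalIntegrable_iff_integrableOn_Ioo_of_le hst.le] at h4
    exact h4.1.indicator measurableSet_Ico
  have hGval : ∀ n, ∀ τ ∈ Ioo s t, ∃ k ≤ n, G n τ = Γ (p n k) τ ∧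
      |τ - p n k| ≤ (t - s) / (n + 1) := by
    intro n τ hτ
    have h4 : (0:ℝ) < n + 1 := by positivity
    have h6 : 0 < t - s := by linarith
    set δ : ℝ := (t - s) / (n + 1) with hδ
    have hδ0 : 0 < δ := by positivity
    set k : ℕ := ⌊(τ - s) / δ⌋₊ with hk
    have hnn : 0 ≤ (τ - s) / δ := by
      have := hτ.1
      apply div_nonneg <;> linarith
    have hk1 : (k:ℝ) ≤ (τ - s) / δ := Nat.floor_le hnn
    have hk2 : (τ - s) / δ < k + 1 := Nat.lt_floor_add_one _
    have hk1' : k * δ ≤ τ - s := by rwa [le_div_iff₀ hδ0] at hk1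
    have hk2' : τ - s < (k + 1) * δ := by rwa [div_lt_iff₀ hδ0] at hk2
    have hkn : k ≤ n := by
      by_contra hcon
      push Not at hcon
      have h7 : (n:ℝ) + 1 ≤ k := by exact_mod_cast hcon
      have h8 : (n + 1 : ℝ) * δ = t - s := by
        rw [hδ]; field_simp
      have h9 : (n + 1 : ℝ) * δ ≤ k * δ := by gcongr
      have := hτ.2
      linarith
    refine ⟨k, hkn, ?_, ?_⟩
    · simp only [hG]
      rw [Finset.sum_eq_single k]
      · rw [indicator_of_mem]
        simp only [hp, ← hδ]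
        constructor
        · linarith
        · push_cast
          linarith
      · intro j _ hj
        rw [indicator_of_notMem]
        simp only [hp, ← hδ, mem_Ico, not_and, not_lt]
        intro h7
        push_cast
        rcases lt_or_gt_of_ne hj with h8 | h8
        · have h9 : (j:ℝ) + 1 ≤ k := by exact_mod_cast h8
          have : ((j:ℝ) + 1) * δ ≤ k * δ := by gcongr
          linarith
        · have h9 : (k:ℝ) + 1 ≤ j := by exact_mod_cast h8
          have : ((k:ℝ) + 1) * δ ≤ j * δ := by gcongr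
          linarith
      · intro h7
        exact absurd (Finset.mem_range.2 (by omega)) h7
    · simp only [hp, ← hδ]
      rw [abs_le]
      constructor
      · nlinarith
      · nlinarith
  refine aestronglyMeasurable_of_tendsto_ae atTop hGm ?_
  filter_upwards [h3, ae_restrict_mem measurableSet_Ioo] with τ h4 h5
  have hτ : τ ∈ Icc s t := Ioo_subset_Icc_self h5
  choose k hk hk1 hk2 using fun n => hGval n τ h5
  have hlim : Tendsto (fun n => p n (k n)) atTop (𝓝[Icc s t] τ) := by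
    rw [tendsto_nhdsWithin_iff]
    refine ⟨?_, Eventually.of_forall fun n => hpmem n _ (hk n)⟩
    rw [tendsto_iff_norm_sub_tendsto_zero]
    have h6 : Tendsto (fun n : ℕ => (t - s) / ((n:ℝ) + 1)) atTop (𝓝 0) := by
      have := (tendsto_one_div_add_atTop_nhds_zero_nat (𝕜 := ℝ)).const_mul (t - s)
      simpa [div_eq_mul_inv] using this
    refine squeeze_zero (fun n => norm_nonneg _) (fun n => ?_) h6
    rw [Real.norm_eq_abs, abs_sub_comm]
    exact hk2 n
  have hy' : Tendsto (fun n => y (p n (k n))) atTop (𝓝 (y τ)) := (hy τ hτ).tendsto.comp hlim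
  rw [tendsto_iff_norm_sub_tendsto_zero]
  have h7 : Tendsto (fun n => m τ * ‖y (p n (k n)) - y τ‖) atTop (𝓝 0) := by
    have := (tendsto_iff_norm_sub_tendsto_zero.1 hy').const_mul (m τ)
    simpa using this
  refine squeeze_zero (fun n => norm_nonneg _) (fun n => ?_) h7
  rw [hk1 n, Real.norm_eq_abs]
  exact h4 _ (hpmem n _ (hk n)) _ hτ

/-- The formula for the derivative of `‖y‖²`. -/
theorem norm_sq_formula {y : ℝ → H} {Γ : ℝ → ℝ → ℝ} {m : ℝ → ℝ} {s t : ℝ} (hst : s ≤ t)
    (hm : IntervalIntegrable m volume s t)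
    (hm0 : ∀ᵐ τ ∂(volume.restrict (Ioo s t)), 0 ≤ m τ)
    (h1 : ∀ r ∈ Icc s t, IntervalIntegrable (Γ r) volume s t)
    (h2 : ∀ r ∈ Icc s t, ∀ x ∈ Icc s t, ∀ z ∈ Icc s t, x ≤ z →
      RCLike.re ⟪y r, y z⟫_𝕜 - RCLike.re ⟪y r, y x⟫_𝕜 = ∫ τ in x..z, Γ r τ)
    (h3 : ∀ᵐ τ ∂(volume.restrict (Ioo s t)), ∀ r ∈ Icc s t, ∀ r' ∈ Icc s t,
      |Γ r τ - Γ r' τ| ≤ m τ * ‖y r - y r'‖) :
    ContinuousOn y (Icc s t) ∧ IntervalIntegrable (fun τ => Γ τ τ) volume s t ∧
    ‖y t‖ ^ 2 - ‖y s‖ ^ 2 = 2 * ∫ τ in s..t, Γ τ τ := by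
  set M : ℝ → ℝ := fun x => ∫ τ in s..x, m τ with hM
  have hMc : ContinuousOn M (Icc s t) := by
    have := intervalIntegral.continuousOn_primitive_interval (a := s) (b := t) (μ := volume)
      (f := m) (by
        rw [uIcc_of_le hst]
        rwa [intervalIntegrable_iff_integrableOn_Icc_of_le hst] at hm)
    rwa [uIcc_of_le hst] at this
  have hMsub : ∀ x ∈ Icc s t, ∀ z ∈ Icc s t, M z - M x = ∫ τ in x..z, m τ := fun x hx z hz =>
    prim_sub hm hx hz
  have hyM : ∀ x ∈ Icc s t, ∀ z ∈ Icc s t, x ≤ z → ‖y z - y x‖ ≤ M z - M x := by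
    intro x hx z hz hxz
    rw [hMsub x hx z hz]
    exact norm_sub_le_prim hm hm0 h1 h2 h3 hx hz hxz
  have hMmono : MonotoneOn M (Icc s t) := by
    intro x hx z hz hxz
    have := hyM x hx z hz hxz
    have := norm_nonneg (y z - y x)
    linarith
  have hyc : ContinuousOn y (Icc s t) := by
    intro x hx
    rw [ContinuousWithinAt, tendsto_iff_norm_sub_tendsto_zero]
    have h4 : Tendsto (fun z => |M z - M x|) (𝓝[Icc s t] x) (𝓝 0) := by
      have := ((hMc x hx).tendsto.sub_const (M x)).abs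
      simpa using this
    refine squeeze_zero' (Eventually.of_forall fun z => norm_nonneg _) ?_ h4
    filter_upwards [self_mem_nhdsWithin] with z hz
    rcases le_total x z with h5 | h5
    · exact (hyM x hx z hz h5).trans (le_abs_self _)
    · rw [norm_sub_rev, abs_sub_comm]
      exact (hyM z hz x hx h5).trans (le_abs_self _)
  rcases hst.eq_or_lt with rfl | hlt
  · simp
  have hdiag : IntervalIntegrable (fun τ => Γ τ τ) volume s t := by
    have h4 := meas_diag hlt hyc h1 h3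
    have h5 := h1 s ⟨le_rfl, hst⟩
    rw [intervalIntegrable_iff_integrableOn_Ioo_of_le hst] at h5 hm ⊢
    have h6 : IntegrableOn (fun τ => |Γ s τ| + m τ * (M t - M s)) (Ioo s t) volume :=
      h5.abs.add (hm.mul_const _)
    refine Integrable.mono' h6 h4 ?_
    filter_upwards [h3, hm0, ae_restrict_mem measurableSet_Ioo] with τ h7 h8 h9
    have hτ : τ ∈ Icc s t := Ioo_subset_Icc_self h9
    have h10 := h7 τ hτ s ⟨le_rfl, hst⟩
    have h11 : ‖y τ - y s‖ ≤ M t - M s := by
      refine (hyM s ⟨le_rfl, hst⟩ τ hτ hτ.1).trans ?_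
      have := hMmono hτ ⟨hst, le_rfl⟩ hτ.2
      linarith
    have h12 : m τ * ‖y τ - y s‖ ≤ m τ * (M t - M s) := by gcongr
    rw [Real.norm_eq_abs]
    have h13 := abs_sub_abs_le_abs_sub (Γ τ τ) (Γ s τ)
    linarith
  refine ⟨hyc, hdiag, ?_⟩
  set Ψ : ℝ → ℝ := fun x => ‖y x‖ ^ 2 - 2 * ∫ τ in s..x, Γ τ τ with hΨ
  have hconst : Ψ t = Ψ s := by
    apply const_of_sq Ψ M (C := 3) hst hMc hMmono
    intro x hx z hz hxz
    have e1 : Ψ z - Ψ x = 2 * (∫ τ in x..z, (Γ x τ - Γ τ τ)) + ‖y z - y x‖ ^ 2 := by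
      rw [intervalIntegral.integral_sub (sub_int (h1 x hx) hx hz) (sub_int hdiag hx hz),
        ← h2 x hx x hx z hz hxz, ← prim_sub hdiag hx hz]
      have e2 : ‖y z - y x‖ ^ 2 = ‖y z‖ ^ 2 - 2 * RCLike.re ⟪y x, y z⟫_𝕜 + ‖y x‖ ^ 2 := by
        rw [@norm_sub_sq 𝕜, inner_re_symm]
      rw [e2, inner_self_eq_norm_sq]
      simp only [hΨ]
      ring
    have e3 : |∫ τ in x..z, (Γ x τ - Γ τ τ)| ≤ (M z - M x) ^ 2 := by
      have h4 : |∫ τ in x..z, (Γ x τ - Γ τ τ)| ≤ ∫ τ in x..z, m τ * (M z - M x) := by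
        have i1 := (sub_int (h1 x hx) hx hz).sub (sub_int hdiag hx hz)
        have i2 := (sub_int hm hx hz).mul_const (M z - M x)
        rw [intervalIntegral.integral_of_le hxz, intervalIntegral.integral_of_le hxz,
          integral_Ioc_eq_integral_Ioo, integral_Ioc_eq_integral_Ioo]
        rw [intervalIntegrable_iff_integrableOn_Ioo_of_le hxz] at i1 i2
        refine (abs_integral_le_integral_abs).trans ?_
        apply integral_mono_ae i1.abs i2
        filter_upwards [ae_restrict_of_ae_restrict_of_subset (Ioo_subset_Ioo hx.1 hz.2) h3,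
          ae_restrict_of_ae_restrict_of_subset (Ioo_subset_Ioo hx.1 hz.2) hm0,
          ae_restrict_mem measurableSet_Ioo] with τ h5 h6 h7
        have hτ : τ ∈ Icc s t := ⟨hx.1.trans h7.1.le, h7.2.le.trans hz.2⟩
        refine (h5 x hx τ hτ).trans ?_
        gcongr
        rw [norm_sub_rev]
        refine (hyM x hx τ hτ h7.1.le).trans ?_
        have := hMmono hτ hz h7.2.le
        linarith
      rw [intervalIntegral.integral_mul_const, ← hMsub x hx z hz] at h4
      rw [pow_two]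
      exact h4
    have e4 : ‖y z - y x‖ ^ 2 ≤ (M z - M x) ^ 2 :=
      pow_le_pow_left₀ (norm_nonneg _) (hyM x hx z hz hxz) 2
    rw [e1]
    calc |2 * (∫ τ in x..z, (Γ x τ - Γ τ τ)) + ‖y z - y x‖ ^ 2|
        ≤ |2 * (∫ τ in x..z, (Γ x τ - Γ τ τ))| + |‖y z - y x‖ ^ 2| := abs_add_le _ _
      _ = 2 * |∫ τ in x..z, (Γ x τ - Γ τ τ)| + ‖y z - y x‖ ^ 2 := by
          rw [abs_mul, abs_of_nonneg (by norm_num : (0:ℝ) ≤ 2),
            abs_of_nonneg (sq_nonneg ‖y z - y x‖)]
      _ ≤ 3 * (M z - M x) ^ 2 := by linarith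
  simp only [hΨ, intervalIntegral.integral_same, mul_zero, sub_zero] at hconst
  linarith

end hilbert

/-- integral inequality `q' ≤ 2 f √q` -/
theorem sqrt_le_of_le {q f : ℝ → ℝ} {s t : ℝ} (hst : s ≤ t) (hq : ContinuousOn q (Icc s t))
    (hq0 : ∀ x ∈ Icc s t, 0 ≤ q x) (hf : IntervalIntegrable f volume s t)
    (hf0 : ∀ᵐ τ ∂(volume.restrict (Ioo s t)), 0 ≤ f τ)
    (h : ∀ z ∈ Icc s t, q z - q s ≤ 2 * ∫ τ in s..z, f τ * √(q τ)) :
    √(q t) ≤ √(q s) + ∫ τ in s..t, f τ := by
  apply le_of_forall_pos_le_add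
  intro η hη
  set Φ : ℝ → ℝ := fun r => √(q s) + η + ∫ τ in s..r, f τ with hΦ
  have hFc : ContinuousOn (fun x => ∫ τ in s..x, f τ) (Icc s t) := by
    have := intervalIntegral.continuousOn_primitive_interval (a := s) (b := t) (μ := volume)
      (f := f) (by
        rw [uIcc_of_le hst]
        rwa [intervalIntegrable_iff_integrableOn_Icc_of_le hst] at hf)
    rwa [uIcc_of_le hst] at this
  have hΦc : ContinuousOn Φ (Icc s t) := hFc.const_add _
  have hsqc : ContinuousOn (fun r => √(q r)) (Icc s t) := hq.sqrt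
  by_contra hcon
  push Not at hcon
  have hs : s ∈ Icc s t := ⟨le_rfl, hst⟩
  have ht : t ∈ Icc s t := ⟨hst, le_rfl⟩
  have hΦt : Φ t < √(q t) := by
    simp only [hΦ]
    linarith
  have hΦs : √(q s) < Φ s := by
    simp only [hΦ, intervalIntegral.integral_same]
    linarith
  -- the first time at which `Φ ≤ √q`
  set A : Set ℝ := {r | r ∈ Icc s t ∧ Φ r ≤ √(q r)} with hA
  have hAc : IsClosed A := isClosed_Icc.isClosed_le hΦc hsqc
  have hAn : A.Nonempty := ⟨t, ht, hΦt.le⟩
  have hAb : BddBelow A := ⟨s, fun r hr => hr.1.1⟩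
  set r : ℝ := sInf A with hr
  have hrA : r ∈ A := hAc.csInf_mem hAn hAb
  have hrI : r ∈ Icc s t := hrA.1
  have hbelow : ∀ x ∈ Icc s r, x ≠ r → √(q x) ≤ Φ x := by
    intro x hx hxr
    by_contra hc
    push Not at hc
    have h1 : x ∈ A := ⟨⟨hx.1, hx.2.trans hrI.2⟩, hc.le⟩
    have h2 : r ≤ x := csInf_le hAb h1
    exact hxr (le_antisymm hx.2 h2)
  have hsr : s ≤ r := hrI.1
  have hfr : IntervalIntegrable f volume s r := sub_int hf hs hrI
  have hΦint : IntervalIntegrable (fun τ => f τ * Φ τ) volume s r := by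
    apply hfr.mul_continuousOn
    rw [uIcc_of_le hsr]
    exact hΦc.mono (Icc_subset_Icc_right hrI.2)
  have hqint : IntervalIntegrable (fun τ => f τ * √(q τ)) volume s r := by
    apply hfr.mul_continuousOn
    rw [uIcc_of_le hsr]
    exact hsqc.mono (Icc_subset_Icc_right hrI.2)
  have e1 : q r - q s ≤ 2 * ∫ τ in s..r, f τ * Φ τ := by
    refine (h r hrI).trans ?_
    rw [intervalIntegral.integral_of_le hsr, intervalIntegral.integral_of_le hsr,
      integral_Ioc_eq_integral_Ioo, integral_Ioc_eq_integral_Ioo]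
    rw [intervalIntegrable_iff_integrableOn_Ioo_of_le hsr] at hΦint hqint
    apply mul_le_mul_of_nonneg_left _ (by norm_num)
    apply integral_mono_ae hqint hΦint
    filter_upwards [ae_restrict_of_ae_restrict_of_subset (Ioo_subset_Ioo le_rfl hrI.2) hf0,
      ae_restrict_mem measurableSet_Ioo] with τ h5 h6
    have := hbelow τ ⟨h6.1.le, h6.2.le⟩ h6.2.ne
    gcongr
  have e2 := (norm_sq_formula (𝕜 := ℝ) (y := Φ) (Γ := fun x τ => Φ x * f τ) (m := f) hsr hfr
    (ae_restrict_of_ae_restrict_of_subset (Ioo_subset_Ioo le_rfl hrI.2) hf0)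
    (fun x _ => hfr.const_mul _) (by
      intro x hx y hy z hz hyz
      rw [intervalIntegral.integral_const_mul, ← prim_sub hfr hy hz]
      simp only [hΦ, RCLike.re_to_real, RCLike.inner_apply, conj_trivial]
      ring) (by
      filter_upwards [ae_restrict_of_ae_restrict_of_subset (Ioo_subset_Ioo le_rfl hrI.2) hf0]
        with τ h5 x _ y _
      rw [← sub_mul, abs_mul, abs_of_nonneg h5, Real.norm_eq_abs, mul_comm])).2.2
  have e3 : ∫ τ in s..r, f τ * Φ τ = ∫ τ in s..r, Φ τ * f τ := by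
    congr 1
    funext τ
    ring
  rw [e3, ← e2, Real.norm_eq_abs, Real.norm_eq_abs, sq_abs, sq_abs] at e1
  have e4 : q s < Φ s ^ 2 := by
    have h5 : q s = √(q s) ^ 2 := (Real.sq_sqrt (hq0 s hs)).symm
    rw [h5]
    exact pow_lt_pow_left₀ hΦs (Real.sqrt_nonneg _) (by norm_num)
  have hΦr : 0 ≤ Φ r := by
    have h6 : 0 ≤ ∫ τ in s..r, f τ := by
      rw [intervalIntegral.integral_of_le hsr, integral_Ioc_eq_integral_Ioo]
      apply integral_nonneg_of_ae
      exact ae_restrict_of_ae_restrict_of_subset (Ioo_subset_Ioo le_rfl hrI.2) hf0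
    have := Real.sqrt_nonneg (q s)
    simp only [hΦ]
    linarith
  have e5 : Φ r ^ 2 ≤ q r := by
    have h5 : q r = √(q r) ^ 2 := (Real.sq_sqrt (hq0 r hrI)).symm
    rw [h5]
    exact pow_le_pow_left₀ hΦr hrA.2 2
  linarith

end Pool.Agent.TO
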