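import Pool.Agent.TO.WLim
import Pool.Agent.TO.Hil

/-!
# Energy identity for the truncated difference, and the bound for its low frequencies
-/

set_option autoImplicit false

namespace Pool.Agent.TO

open MeasureTheory Set Filter Topology
open scoped SchwartzMap InnerProductSpace LineDeriv Laplacian ENNReal FourierTransform ComplexConjugate
open scoped Real

variable {T : ℝ} {u₀ : V3} {u v : ℝ → V3} {a b : ℝ → ℝ}

theorem DivF.sub {f g : H3} (hf : DivF f) (hg : DivF g) : DivF (f - g) := by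
  have h1 : (𝓕 (f - g) : H3) = 𝓕 f - 𝓕 g := map_sub (Lp.fourierTransformₗᵢ E3 F3) _ _
  unfold DivF
  rw [h1]
  filter_upwards [hf, hg, Lp.coeFn_sub (𝓕 f : H3) (𝓕 g)] with ξ h2 h3 h4
  rw [h4]
  simp only [Pi.sub_apply, PiLp.sub_apply, mul_sub, Finset.sum_sub_distrib]
  rw [h2, h3, sub_zero]

theorem Pair.divF (P : Pair T u₀ u v a b) {t : ℝ} (ht : t ∈ Ico 0 T) :
    DivF (cplx (v t - u t)) := by
  rw [map_sub]
  exact (P.hv.div t ht).divF.sub (P.hu.div t ht).divF

/-- `gam` is additive in the test field -/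
theorem gam_sub (R : ℝ) (h h' : H3) (f g : V3) :
    gam R h f g - gam R h' f g = gam R (h - h') f g := by
  unfold gam
  simp only [map_sub, Finset.sum_sub_distrib, inner_sub_left]
  ring

theorem norm_DD_le' (k : Fin 3) (R : ℝ) (h : H3) : ‖DD k R h‖ ≤ 2 * π * |R| * ‖PP R h‖ := by
  rw [← DD_PP le_rfl k h]
  exact norm_DD_le k R _

theorem norm_gam_le (R : ℝ) (h : H3) {f g : V3} {A B C : ℝ} (hA : 0 ≤ A) (hB : 0 ≤ B)
    (hf : Bd f A) (hg : Bd g B) (hC : ‖g - f‖ ≤ C) :
    ‖gam R h f g‖ ≤ (3 * (2 * π * |R|) ^ 2 * C + 3 * (2 * π * |R|) * ((A + B) * C)) *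
      ‖PP R h‖ := by
  have hC0 : 0 ≤ C := (norm_nonneg _).trans hC
  have hp := Real.pi_pos
  unfold gam
  refine (norm_add_le _ _).trans ?_
  rw [add_mul]
  apply add_le_add
  · refine (norm_inner_le_norm _ _).trans ?_
    rw [norm_cplx]
    have h1 : ‖∑ k, DD k R (DD k R h)‖ ≤ 3 * (2 * π * |R|) ^ 2 * ‖PP R h‖ := by
      refine (norm_sum_le _ _).trans ?_
      calc ∑ k, ‖DD k R (DD k R h)‖ ≤ ∑ _k : Fin 3, (2 * π * |R|) ^ 2 * ‖PP R h‖ := by
            refine Finset.sum_le_sum fun k _ => ?_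
            refine (norm_DD_le k R _).trans ?_
            rw [pow_two, mul_assoc (2 * π * |R|)]
            exact mul_le_mul_of_nonneg_left (norm_DD_le' k R h) (by positivity)
        _ = 3 * (2 * π * |R|) ^ 2 * ‖PP R h‖ := by
            simp
            ring
    calc ‖∑ k, DD k R (DD k R h)‖ * ‖g - f‖ ≤ (3 * (2 * π * |R|) ^ 2 * ‖PP R h‖) * C :=
          mul_le_mul h1 hC (norm_nonneg _) (by positivity)
      _ = 3 * (2 * π * |R|) ^ 2 * C * ‖PP R h‖ := by ring
  · refine (norm_sum_le _ _).trans ?_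
    calc ∑ k, ‖⟪DD k R h, cplx (NN k f g)⟫_ℂ‖
        ≤ ∑ _k : Fin 3, (2 * π * |R| * ‖PP R h‖) * ((A + B) * C) := by
          refine Finset.sum_le_sum fun k _ => ?_
          refine (norm_inner_le_norm _ _).trans ?_
          rw [norm_cplx]
          apply mul_le_mul (norm_DD_le' k R h) _ (norm_nonneg _) (by positivity)
          exact (norm_NN_le hA hB hf hg k).trans (by gcongr)
      _ = 3 * (2 * π * |R|) * ((A + B) * C) * ‖PP R h‖ := by
          simp
          ring

/-- the diagonal of the bilinear form -/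
noncomputable def dia (R : ℝ) (f g : V3) : ℝ :=
  -(∑ k, ‖DD k R (cplx (g - f))‖ ^ 2) +
    ∑ k, RCLike.re ⟪DD k R (cplx (g - f)), cplx (NN k f g)⟫_ℂ

theorem re_gam_self (R : ℝ) (f g : V3) :
    RCLike.re (gam R (cplx (g - f)) f g) = dia R f g := by
  unfold gam dia
  rw [map_add, map_sum, sum_inner, map_sum, ← Finset.sum_neg_distrib]
  congr 1
  refine Finset.sum_congr rfl fun k _ => ?_
  rw [inner_DD, map_neg, inner_self_eq_norm_sq]

theorem re_inner_PP (R : ℝ) (f g : H3) : ⟪PP R f, PP R g⟫_ℂ = ⟪PP R f, g⟫_ℂ := by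
  rw [← inner_PP, PP_PP le_rfl]

/-- the energy identity for the truncated difference -/
theorem Pair.energy_PP (P : Pair T u₀ u v a b) (R : ℝ) {s t : ℝ} (hs : 0 ≤ s) (hst : s ≤ t)
    (ht : t < T) :
    ContinuousOn (fun τ => PP R (cplx (v τ - u τ))) (Icc s t) ∧
    IntervalIntegrable (fun τ => dia R (u τ) (v τ)) volume s t ∧
    ‖PP R (cplx (v t - u t))‖ ^ 2 - ‖PP R (cplx (v s - u s))‖ ^ 2 =
      2 * ∫ τ in s..t, dia R (u τ) (v τ) := by
  have hmem : ∀ r ∈ Icc s t, r ∈ Ico 0 T := fun r hr => ⟨hs.trans hr.1, hr.2.trans_lt ht⟩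
  set m : ℝ → ℝ := fun τ => 3 * (2 * π * |R|) ^ 2 * (2 * ‖u₀‖) +
    3 * (2 * π * |R|) * ((a τ + b τ) * (2 * ‖u₀‖)) with hm
  have hp := Real.pi_pos
  have key := norm_sq_formula (𝕜 := ℂ) (y := fun τ => PP R (cplx (v τ - u τ)))
    (Γ := fun r τ => RCLike.re (gam R (cplx (v r - u r)) (u τ) (v τ))) (m := m) hst
    (by
      rw [intervalIntegrable_iff_integrableOn_Ioo_of_le hst]
      refine Integrable.add (integrable_const _) ?_
      exact ((P.integrable_ab hs hst ht).mul_const _).const_mul _)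
    (by
      refine Eventually.of_forall fun τ => ?_
      have := P.ha0 τ
      have := P.hb0 τ
      simp only [hm]
      positivity)
    (by
      intro r hr
      have h1 := (P.weqR (P.divF (hmem r hr)) R hs hst ht).1
      rw [intervalIntegrable_iff_integrableOn_Ioo_of_le hst] at h1 ⊢
      exact h1.re)
    (by
      intro r hr x hx z hz hxz
      have h1 := P.weqR (P.divF (hmem r hr)) R (hs.trans hx.1) hxz (hz.2.trans_lt ht)
      have h2 := congrArg RCLike.re h1.2
      rw [map_sub] at h2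
      rw [re_inner_PP, re_inner_PP, h2]
      rw [intervalIntegral.integral_of_le hxz, intervalIntegral.integral_of_le hxz]
      have h3 := h1.1
      rw [intervalIntegrable_iff_integrableOn_Ioc_of_le hxz] at h3
      exact (integral_re h3).symm)
    (by
      filter_upwards [P.ae_bd hs ht.le, ae_restrict_mem measurableSet_Ioo] with τ h1 h2 r hr r' hr'
      rw [← map_sub, gam_sub]
      refine (RCLike.abs_re_le_norm _).trans ?_
      refine (norm_gam_le R _ (P.ha0 τ) (P.hb0 τ) h1.1 h1.2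
        (P.norm_sub_le (t := τ) ⟨hs.trans h2.1.le, h2.2.trans ht⟩)).trans ?_
      rw [map_sub])
  simp only [re_gam_self] at key
  exact key

/-- the low frequencies of the difference are small -/
theorem Pair.low (P : Pair T u₀ u v a b) {K t m : ℝ} (hK : 0 ≤ K) (ht : t ∈ Ioo 0 T)
    (hm : ∀ r ∈ Icc 0 t, ‖v r - u r‖ ^ 2 ≤ m) :
    ‖PP K (cplx (v t - u t))‖ ≤ 2 * π * K * (∫ τ in (0:ℝ)..t, (a τ + b τ)) * √m := by
  have h0t : (0:ℝ) ≤ t := ht.1.le
  have hp := Real.pi_pos
  obtain ⟨hc, hi, -⟩ := P.energy_PP K le_rfl h0t ht.2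
  have hab := P.hab t ht
  set f : ℝ → ℝ := fun τ => (2 * π * K * √m) * (a τ + b τ) with hf
  have key := sqrt_le_of_le (q := fun τ => ‖PP K (cplx (v τ - u τ))‖ ^ 2) (f := f) h0t
    (hc.norm.pow 2) (fun x _ => by positivity) (hab.const_mul _)
    (by
      refine Eventually.of_forall fun τ => ?_
      have := P.ha0 τ
      have := P.hb0 τ
      simp only [hf]
      positivity)
    (by
      intro z hz
      obtain ⟨hc', hi', he⟩ := P.energy_PP K le_rfl hz.1 (hz.2.trans_lt ht.2)
      rw [he]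
      apply mul_le_mul_of_nonneg_left _ (by norm_num)
      rw [intervalIntegral.integral_of_le hz.1, intervalIntegral.integral_of_le hz.1,
        integral_Ioc_eq_integral_Ioo, integral_Ioc_eq_integral_Ioo]
      rw [intervalIntegrable_iff_integrableOn_Ioo_of_le hz.1] at hi'
      apply integral_mono_ae hi'
      · have h1 : IntervalIntegrable (fun τ => f τ * √(‖PP K (cplx (v τ - u τ))‖ ^ 2)) volume 0 z := by
          apply IntervalIntegrable.mul_continuousOn
          · exact (sub_int hab ⟨le_rfl, h0t⟩ hz).const_mul _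
          · rw [uIcc_of_le hz.1]
            exact (hc'.norm.pow 2).sqrt
        rwa [intervalIntegrable_iff_integrableOn_Ioo_of_le hz.1] at h1
      · filter_upwards [P.ae_bd le_rfl (hz.2.trans ht.2.le), ae_restrict_mem measurableSet_Ioo]
          with τ h1 h2
        rw [Real.sqrt_sq (norm_nonneg _)]
        unfold dia
        have e1 : ∑ k, RCLike.re ⟪DD k K (cplx (v τ - u τ)), cplx (NN k (u τ) (v τ))⟫_ℂ ≤
            √(∑ k, ‖DD k K (cplx (v τ - u τ))‖ ^ 2) * √(∑ k, ‖NN k (u τ) (v τ)‖ ^ 2) := by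
          calc ∑ k, RCLike.re ⟪DD k K (cplx (v τ - u τ)), cplx (NN k (u τ) (v τ))⟫_ℂ
              ≤ ∑ k, ‖DD k K (cplx (v τ - u τ))‖ * ‖NN k (u τ) (v τ)‖ := by
                refine Finset.sum_le_sum fun k _ => ?_
                refine (RCLike.re_le_norm _).trans ?_
                refine (norm_inner_le_norm _ _).trans ?_
                rw [norm_cplx]
            _ ≤ _ := Real.sum_mul_le_sqrt_mul_sqrt _ _ _
        have e2 : √(∑ k, ‖DD k K (cplx (v τ - u τ))‖ ^ 2) ≤
            2 * π * K * ‖PP K (cplx (v τ - u τ))‖ := by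
          rw [← Real.sqrt_sq (by positivity : 0 ≤ 2 * π * K * ‖PP K (cplx (v τ - u τ))‖)]
          apply Real.sqrt_le_sqrt
          rw [mul_pow]
          exact sum_sq_DD_le K _
        have e3 : √(∑ k, ‖NN k (u τ) (v τ)‖ ^ 2) ≤ (a τ + b τ) * √m := by
          have g1 := P.ha0 τ
          have g2 := P.hb0 τ
          have g3 : ‖v τ - u τ‖ ≤ √m := by
            apply Real.le_sqrt_of_sq_le
            exact hm τ ⟨h2.1.le, h2.2.le.trans hz.2⟩
          rw [← Real.sqrt_sq (by positivity : 0 ≤ (a τ + b τ) * √m)]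
          apply Real.sqrt_le_sqrt
          refine (sum_sq_NN_le h1.1 h1.2).trans ?_
          apply pow_le_pow_left₀ (by positivity)
          gcongr
        have e4 : 0 ≤ ∑ k, ‖DD k K (cplx (v τ - u τ))‖ ^ 2 :=
          Finset.sum_nonneg fun k _ => by positivity
        calc -(∑ k, ‖DD k K (cplx (v τ - u τ))‖ ^ 2) +
              ∑ k, RCLike.re ⟪DD k K (cplx (v τ - u τ)), cplx (NN k (u τ) (v τ))⟫_ℂ
            ≤ (2 * π * K * ‖PP K (cplx (v τ - u τ))‖) * ((a τ + b τ) * √m) := by
              have := mul_le_mul e2 e3 (Real.sqrt_nonneg _) (by positivity)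
              linarith
          _ = f τ * ‖PP K (cplx (v τ - u τ))‖ := by
              simp only [hf]
              ring)
  have h0 : v 0 - u 0 = 0 := by rw [P.hv.init, P.hu.init, sub_self]
  rw [Real.sqrt_sq (norm_nonneg _), Real.sqrt_sq (norm_nonneg _), h0, map_zero, map_zero,
    norm_zero, zero_add] at key
  refine key.trans (le_of_eq ?_)
  simp only [hf]
  rw [intervalIntegral.integral_const_mul]
  ring

end Pool.Agent.TO
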