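import Pool.Agent.TO.Op

/-!
# Sharp Fourier cut-offs and truncated derivatives
-/

set_option autoImplicit false

namespace Pool.Agent.TO

open MeasureTheory Set Filter Topology
open scoped SchwartzMap InnerProductSpace LineDeriv Laplacian ENNReal FourierTransform ComplexConjugate
open scoped Real

/-- symbol of the Fourier cut-off -/
noncomputable def mP (R : ℝ) (ξ : E3) : ℂ := if ‖ξ‖ < R then 1 else 0

/-- symbol of the truncated derivative `∂_k` -/
noncomputable def mD (k : Fin 3) (R : ℝ) (ξ : E3) : ℂ :=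
  if ‖ξ‖ < R then 2 * π * Complex.I * (ξ k : ℂ) else 0

/-- projection to the frequencies `‖ξ‖ < R` -/
noncomputable def PP (R : ℝ) : H3 →L[ℂ] H3 := FM (mP R)

/-- `∂_k PP R` -/
noncomputable def DD (k : Fin 3) (R : ℝ) : H3 →L[ℂ] H3 := FM (mD k R)

theorem meas_mP (R : ℝ) : Measurable (mP R) := by
  unfold mP
  exact Measurable.ite (measurableSet_lt measurable_norm measurable_const) measurable_const
    measurable_const

theorem meas_mD (k : Fin 3) (R : ℝ) : Measurable (mD k R) := by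
  unfold mD
  refine Measurable.ite (measurableSet_lt measurable_norm measurable_const) ?_ measurable_const
  fun_prop

theorem norm_mP_le (R : ℝ) (ξ : E3) : ‖mP R ξ‖ ≤ 1 := by
  unfold mP
  split_ifs <;> simp

theorem abs_coord_le (ξ : E3) (k : Fin 3) : |ξ k| ≤ ‖ξ‖ := by
  have := PiLp.norm_apply_le ξ k
  simpa using this

theorem norm_mD_le (k : Fin 3) (R : ℝ) (ξ : E3) : ‖mD k R ξ‖ ≤ 2 * π * |R| := by
  unfold mD
  split_ifs with h
  · have h1 := abs_coord_le ξ k
    have h2 : |ξ k| ≤ |R| := (h1.trans h.le).trans (le_abs_self R)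
    simp only [norm_mul, Complex.norm_real, Complex.norm_I, Real.norm_eq_abs, Complex.norm_ofNat,
      abs_of_pos Real.pi_pos, mul_one]
    gcongr
  · simp only [norm_zero]
    positivity

theorem memLp_mP (R : ℝ) : MemLp (mP R) ∞ (volume : Measure E3) :=
  memLp_top_of_bound (meas_mP R).aestronglyMeasurable 1 (Eventually.of_forall (norm_mP_le R))

theorem memLp_mD (k : Fin 3) (R : ℝ) : MemLp (mD k R) ∞ (volume : Measure E3) :=
  memLp_top_of_bound (meas_mD k R).aestronglyMeasurable _ (Eventually.of_forall (norm_mD_le k R))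

theorem fourier_PP (R : ℝ) (f : H3) :
    (𝓕 (PP R f) : H3) =ᵐ[volume] fun ξ => mP R ξ • (𝓕 f : H3) ξ := by
  rw [PP, fourier_FM]
  exact coe_mulOp (memLp_mP R) _

theorem fourier_DD (k : Fin 3) (R : ℝ) (f : H3) :
    (𝓕 (DD k R f) : H3) =ᵐ[volume] fun ξ => mD k R ξ • (𝓕 f : H3) ξ := by
  rw [DD, fourier_FM]
  exact coe_mulOp (memLp_mD k R) _

theorem norm_PP_le (R : ℝ) (f : H3) : ‖PP R f‖ ≤ ‖f‖ := by
  have := norm_FM_le (meas_mP R).aestronglyMeasurable (Eventually.of_forall (norm_mP_le R)) f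
  simpa [PP] using this

theorem norm_DD_le (k : Fin 3) (R : ℝ) (f : H3) : ‖DD k R f‖ ≤ 2 * π * |R| * ‖f‖ :=
  norm_FM_le (meas_mD k R).aestronglyMeasurable (Eventually.of_forall (norm_mD_le k R)) f

theorem PP_PP {R R' : ℝ} (h : R ≤ R') (f : H3) : PP R (PP R' f) = PP R f := by
  rw [PP, PP, FM_FM (memLp_mP R) (memLp_mP R')]
  congr 2
  funext ξ
  unfold mP
  split_ifs with h1 h2 <;> simp
  linarith

theorem PP_PP' {R R' : ℝ} (h : R ≤ R') (f : H3) : PP R' (PP R f) = PP R f := by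
  rw [PP, PP, FM_FM (memLp_mP R') (memLp_mP R)]
  congr 2
  funext ξ
  unfold mP
  split_ifs with h1 h2 h3 <;> simp
  linarith

theorem DD_PP {R R' : ℝ} (h : R ≤ R') (k : Fin 3) (f : H3) : DD k R (PP R' f) = DD k R f := by
  rw [PP, DD, FM_FM (memLp_mD k R) (memLp_mP R')]
  congr 2
  funext ξ
  unfold mP mD
  split_ifs with h1 h2 <;> simp
  linarith

theorem PP_DD {R R' : ℝ} (h : R ≤ R') (k : Fin 3) (f : H3) : PP R (DD k R' f) = DD k R f := by
  rw [PP, DD, DD, FM_FM (memLp_mP R) (memLp_mD k R')]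
  congr 2
  funext ξ
  unfold mP mD
  split_ifs with h1 h2 <;> simp
  linarith

theorem PP_DD' {R R' : ℝ} (h : R ≤ R') (k : Fin 3) (f : H3) : PP R' (DD k R f) = DD k R f := by
  rw [PP, DD, FM_FM (memLp_mP R') (memLp_mD k R)]
  congr 2
  funext ξ
  unfold mP mD
  split_ifs with h1 h2 h3 <;> simp
  linarith

theorem inner_PP (R : ℝ) (f g : H3) : ⟪PP R f, g⟫_ℂ = ⟪f, PP R g⟫_ℂ := by
  rw [PP, inner_FM (memLp_mP R)]
  congr 3
  funext ξ
  unfold mP
  split_ifs <;> simp

theorem inner_DD (k : Fin 3) (R : ℝ) (f g : H3) : ⟪DD k R f, g⟫_ℂ = -⟪f, DD k R g⟫_ℂ := by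
  rw [DD, inner_FM (memLp_mD k R)]
  have h : ∀ᵐ ξ ∂(volume : Measure E3), ‖-(1:ℂ)‖ ≤ 1 := by simp
  have h1 : (fun ξ => conj (mD k R ξ)) = fun ξ => -mD k R ξ := by
    funext ξ
    unfold mD
    split_ifs
    · simp only [map_mul, Complex.conj_ofReal, Complex.conj_I, map_ofNat]
      ring
    · simp
  have h2 : MemLp (fun ξ => -mD k R ξ) ∞ (volume : Measure E3) := (memLp_mD k R).neg
  have h3 : FM (fun ξ => -mD k R ξ) g = - FM (mD k R) g := by
    apply fourier_injective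
    have h4 : (𝓕 (-FM (mD k R) g) : H3) = - 𝓕 (FM (mD k R) g) :=
      map_neg (Lp.fourierTransformₗᵢ E3 F3) _
    rw [h4, fourier_FM, fourier_FM]
    apply Lp.ext
    filter_upwards [coe_mulOp h2 (𝓕 g), coe_mulOp (memLp_mD k R) (𝓕 g),
      Lp.coeFn_neg (mulOp (mD k R) (𝓕 g))] with x h5 h6 h7
    rw [h5, h7, Pi.neg_apply, h6, neg_smul]
  rw [h1, h3, inner_neg_right]

/-- the norm of `L²` as an integral -/
theorem norm_sq_eq (f : H3) : ‖f‖ ^ 2 = ∫ x, ‖f x‖ ^ 2 := by
  have h := L2.inner_def (𝕜 := ℂ) f f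
  rw [inner_self_eq_norm_sq_to_K] at h
  have h1 : (∫ x, ⟪f x, f x⟫_ℂ) = ((∫ x, ‖f x‖ ^ 2 : ℝ) : ℂ) := by
    rw [← integral_complex_ofReal]
    apply integral_congr_ae
    refine Eventually.of_forall fun x => ?_
    simp only
    rw [inner_self_eq_norm_sq_to_K]
    norm_cast
  rw [h1] at h
  apply Complex.ofReal_injective
  rw [← h]
  norm_cast

theorem integrable_norm_sq (f : H3) : Integrable (fun x => ‖f x‖ ^ 2) (volume : Measure E3) :=
  (memLp_two_iff_integrable_sq_norm (Lp.aestronglyMeasurable f)).1 (Lp.memLp f)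

theorem norm_sq_fourier (f : H3) : ‖f‖ ^ 2 = ∫ ξ, ‖(𝓕 f : H3) ξ‖ ^ 2 := by
  rw [← Lp.norm_fourier_eq f, norm_sq_eq]

theorem norm_sq_PP (R : ℝ) (f : H3) :
    ‖PP R f‖ ^ 2 = ∫ ξ, (if ‖ξ‖ < R then ‖(𝓕 f : H3) ξ‖ ^ 2 else 0) := by
  rw [norm_sq_fourier]
  apply integral_congr_ae
  filter_upwards [fourier_PP R f] with ξ h
  rw [h]
  unfold mP
  split_ifs <;> simp

theorem sum_sq_eq (ξ : E3) : ∑ k, (ξ k) ^ 2 = ‖ξ‖ ^ 2 := by
  rw [EuclideanSpace.norm_eq, Real.sq_sqrt (Finset.sum_nonneg fun i _ => by positivity)]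
  simp

theorem sum_sq_DD (R : ℝ) (f : H3) : ∑ k, ‖DD k R f‖ ^ 2 =
    ∫ ξ, (if ‖ξ‖ < R then (2 * π * ‖ξ‖) ^ 2 * ‖(𝓕 f : H3) ξ‖ ^ 2 else 0) := by
  have h1 : ∀ k, ‖DD k R f‖ ^ 2 =
      ∫ ξ, ‖mD k R ξ‖ ^ 2 * ‖(𝓕 f : H3) ξ‖ ^ 2 := by
    intro k
    rw [norm_sq_fourier]
    apply integral_congr_ae
    filter_upwards [fourier_DD k R f] with ξ h
    rw [h, norm_smul, mul_pow]
  have hint : ∀ k ∈ (Finset.univ : Finset (Fin 3)),
      Integrable (fun ξ => ‖mD k R ξ‖ ^ 2 * ‖(𝓕 f : H3) ξ‖ ^ 2) (volume : Measure E3) := by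
    intro k _
    refine ((integrable_norm_sq (𝓕 f : H3)).const_mul ((2 * π * |R|) ^ 2)).mono ?_ ?_
    · exact ((meas_mD k R).norm.pow_const 2).aestronglyMeasurable.mul
        (integrable_norm_sq (𝓕 f : H3)).1
    · refine Eventually.of_forall fun ξ => ?_
      rw [Real.norm_of_nonneg (by positivity), Real.norm_of_nonneg (by positivity)]
      gcongr
      exact norm_mD_le k R ξ
  simp only [h1]
  rw [← integral_finsetSum _ hint]
  apply integral_congr_ae
  refine Eventually.of_forall fun ξ => ?_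
  simp only
  unfold mD
  split_ifs with h
  · rw [← Finset.sum_mul]
    congr 1
    have h2 : ∀ k, ‖2 * (π:ℂ) * Complex.I * ((ξ k : ℝ) : ℂ)‖ ^ 2 = (2 * π) ^ 2 * (ξ k) ^ 2 := by
      intro k
      simp only [norm_mul, Complex.norm_real, Complex.norm_I, Real.norm_eq_abs,
        Complex.norm_ofNat, abs_of_pos Real.pi_pos, mul_one]
      rw [mul_pow, sq_abs]
    simp only [h2]
    rw [← Finset.mul_sum, sum_sq_eq]
    ring
  · simp

theorem integrable_PP_aux (R : ℝ) (f : H3) : Integrable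
    (fun ξ : E3 => (if ‖ξ‖ < R then ‖(𝓕 f : H3) ξ‖ ^ 2 else 0)) (volume : Measure E3) := by
  have h := (integrable_norm_sq (𝓕 f : H3)).indicator
    (measurableSet_lt (f := fun ξ : E3 => ‖ξ‖) (g := fun _ => R) measurable_norm measurable_const)
  refine h.congr (Eventually.of_forall fun ξ => ?_)
  simp [Set.indicator_apply]

theorem integrable_DD_aux (R : ℝ) (f : H3) : Integrable
    (fun ξ : E3 => (if ‖ξ‖ < R then (2 * π * ‖ξ‖) ^ 2 * ‖(𝓕 f : H3) ξ‖ ^ 2 else 0))
    (volume : Measure E3) := by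
  refine ((integrable_norm_sq (𝓕 f : H3)).const_mul ((2 * π * |R|) ^ 2)).mono ?_ ?_
  · have h1 : AEStronglyMeasurable (fun ξ : E3 => (2 * π * ‖ξ‖) ^ 2 * ‖(𝓕 f : H3) ξ‖ ^ 2)
        (volume : Measure E3) := by
      refine AEStronglyMeasurable.mul ?_ (integrable_norm_sq (𝓕 f : H3)).1
      exact Continuous.aestronglyMeasurable (by fun_prop)
    have h2 := h1.indicator
      (measurableSet_lt (f := fun ξ : E3 => ‖ξ‖) (g := fun _ => R) measurable_norm measurable_const)
    refine h2.congr (Eventually.of_forall fun ξ => ?_)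
    simp [Set.indicator_apply]
  · refine Eventually.of_forall fun ξ => ?_
    rw [Real.norm_of_nonneg (by split_ifs <;> positivity), Real.norm_of_nonneg (by positivity)]
    split_ifs with h
    · gcongr
      exact h.le.trans (le_abs_self R)
    · positivity

/-- Bernstein's inequality -/
theorem sum_sq_DD_le (R : ℝ) (f : H3) :
    ∑ k, ‖DD k R f‖ ^ 2 ≤ (2 * π * R) ^ 2 * ‖PP R f‖ ^ 2 := by
  rw [sum_sq_DD, norm_sq_PP, ← integral_const_mul]
  apply integral_mono (integrable_DD_aux R f) ((integrable_PP_aux R f).const_mul _)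
  intro ξ
  simp only
  split_ifs with h
  · gcongr
  · simp

/-- high frequencies are controlled by the gradient -/
theorem high_le {R R' : ℝ} (hR : 0 ≤ R) (hRR : R ≤ R') (f : H3) :
    (2 * π * R) ^ 2 * (‖PP R' f‖ ^ 2 - ‖PP R f‖ ^ 2) ≤ ∑ k, ‖DD k R' f‖ ^ 2 := by
  rw [sum_sq_DD, norm_sq_PP, norm_sq_PP,
    ← integral_sub (integrable_PP_aux R' f) (integrable_PP_aux R f), ← integral_const_mul]
  apply integral_mono (((integrable_PP_aux R' f).sub (integrable_PP_aux R f)).const_mul _)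
    (integrable_DD_aux R' f)
  intro ξ
  simp only [Pi.sub_apply]
  split_ifs with h1 h2 h3
  · simp only [sub_self, mul_zero]
    positivity
  · rw [sub_zero]
    push Not at h2
    gcongr
  · linarith
  · simp

theorem tendsto_PP (f : H3) : Tendsto (fun n : ℕ => PP n f) atTop (𝓝 f) := by
  rw [tendsto_iff_norm_sub_tendsto_zero]
  have h1 : ∀ n : ℕ, ‖PP n f - f‖ ^ 2 =
      ∫ ξ, (if ‖ξ‖ < (n:ℝ) then 0 else ‖(𝓕 f : H3) ξ‖ ^ 2) := by
    intro n
    rw [norm_sq_fourier]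
    apply integral_congr_ae
    have h2 : (𝓕 (PP n f - f) : H3) = 𝓕 (PP n f) - 𝓕 f :=
      map_sub (Lp.fourierTransformₗᵢ E3 F3) _ _
    rw [h2]
    filter_upwards [fourier_PP n f, Lp.coeFn_sub (𝓕 (PP n f) : H3) (𝓕 f)] with ξ h3 h4
    rw [h4, Pi.sub_apply, h3]
    unfold mP
    split_ifs <;> simp
  have h2 : Tendsto (fun n : ℕ => ‖PP n f - f‖ ^ 2) atTop (𝓝 0) := by
    simp only [h1]
    have key : Tendsto (fun n : ℕ => ∫ ξ : E3, (if ‖ξ‖ < (n:ℝ) then 0 else ‖(𝓕 f : H3) ξ‖ ^ 2))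
        atTop (𝓝 (∫ _ξ : E3, (0:ℝ))) := by
      refine tendsto_integral_of_dominated_convergence (fun ξ => ‖(𝓕 f : H3) ξ‖ ^ 2) ?_ ?_ ?_ ?_
      · intro n
        have h4 := ((integrable_norm_sq (𝓕 f : H3)).indicator
          (measurableSet_lt (f := fun ξ : E3 => ‖ξ‖) (g := fun _ => (n:ℝ)) measurable_norm
            measurable_const).compl).1
        refine h4.congr (Eventually.of_forall fun ξ => ?_)
        beta_reduce
        by_cases h5 : ‖ξ‖ < (n:ℝ)
        · rw [if_pos h5, Set.indicator_of_notMem (by simpa using h5)]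
        · rw [if_neg h5, Set.indicator_of_mem (by simpa using h5)]
      · exact integrable_norm_sq _
      · intro n
        refine Eventually.of_forall fun ξ => ?_
        split_ifs
        · rw [norm_zero]; positivity
        · rw [Real.norm_of_nonneg (by positivity)]
      · refine Eventually.of_forall fun ξ => ?_
        obtain ⟨N, hN⟩ := exists_nat_gt ‖ξ‖
        refine tendsto_const_nhds.congr' ?_
        filter_upwards [eventually_ge_atTop N] with n hn
        have : ‖ξ‖ < (n:ℝ) := lt_of_lt_of_le hN (by exact_mod_cast hn)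
        rw [if_pos this]
    rwa [integral_zero] at key
  have h3 := h2.sqrt
  simp only [Real.sqrt_zero] at h3
  refine h3.congr fun n => ?_
  rw [Real.sqrt_sq (norm_nonneg _)]

end Pool.Agent.TO
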