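import Mathlib

/-!
# Weak Leray solutions of the Navier-Stokes equations on `ℝ³`
-/

set_option autoImplicit false

namespace Pool.Agent.TO

open MeasureTheory Set
open scoped SchwartzMap InnerProductSpace LineDeriv Laplacian ENNReal

/-- three-dimensional space -/
abbrev E3 := EuclideanSpace ℝ (Fin 3)

/-- velocity fields of finite energy: the real Hilbert space `L²(ℝ³; ℝ³)` -/
abbrev V3 : Type := Lp E3 2 (volume : Measure E3)

/-- the `k`-th unit vector of `ℝ³` -/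
noncomputable abbrev ee (k : Fin 3) : E3 := EuclideanSpace.single k 1

/-- `f` is divergence-free in the weak sense: `∫ f · ∇φ = 0` for all Schwartz functions `φ`. -/
def IsDivFree (f : V3) : Prop := ∀ φ : 𝓢(E3, ℝ), ∫ x, fderiv ℝ φ x (f x) = 0

/-- `g` is the weak partial derivative of `f` in the direction `k`. -/
def IsWeakDeriv (k : Fin 3) (f g : V3) : Prop :=
  ∀ φ : 𝓢(E3, E3), ∫ x, ⟪(∂_{ee k} φ) x, f x⟫_ℝ = -∫ x, ⟪φ x, g x⟫_ℝ

/-- The (real) Schwartz vector field `φ` is divergence-free. -/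
def TestDivFree (φ : 𝓢(E3, E3)) : Prop := ∀ x, ∑ k, (∂_{ee k} φ) x k = 0

/-- `u` is a weak Leray solution of the Navier-Stokes equations on `[0, T) × ℝ³` with initial
value `u₀`. -/
structure IsLeray (T : ℝ) (u₀ : V3) (u : ℝ → V3) : Prop where
  /-- the initial value -/
  init : u 0 = u₀
  /-- measurability in time -/
  meas : AEStronglyMeasurable u (volume.restrict (Ioo 0 T))
  /-- `u` is weakly continuous in time with values in `L²` -/
  wcont : ∀ g : V3, ContinuousOn (fun t => ⟪g, u t⟫_ℝ) (Ico 0 T)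
  /-- `div u = 0` -/
  div : ∀ t ∈ Ico 0 T, IsDivFree (u t)
  /-- `∂ₜ u = Δ u - ℙ div (u ⊗ u)`, tested with divergence-free Schwartz fields `φ` and integrated
  over `(0, t)`: the last term is `∑ u_i u_j ∂_i φ_j`. -/
  eqn : ∀ t ∈ Ico 0 T, ∀ φ : 𝓢(E3, E3), TestDivFree φ →
    ∫ x, ⟪φ x, u t x⟫_ℝ = (∫ x, ⟪φ x, u₀ x⟫_ℝ) +
      ∫ s in (0:ℝ)..t, ∫ x, (⟪(Δ φ) x, u s x⟫_ℝ + ⟪fderiv ℝ φ x (u s x), u s x⟫_ℝ)
  /-- the energy inequality (in particular `u` is bounded in `L²` and `∇ u` is square integrable) -/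
  energy : ∃ D : ℝ → Fin 3 → V3,
    (∀ᵐ t ∂(volume.restrict (Ioo 0 T)), ∀ k, IsWeakDeriv k (u t) (D t k)) ∧
    ∀ t ∈ Ico 0 T, ‖u t‖ₑ ^ 2 + 2 * ∫⁻ s in Ioo 0 t, ∑ k, ‖D s k‖ₑ ^ 2 ≤ ‖u₀‖ₑ ^ 2

/-- The field `u t` is bounded by `a t`, for almost every time. -/
def BddBy (T : ℝ) (u : ℝ → V3) (a : ℝ → ℝ) : Prop :=
  ∀ᵐ t ∂(volume.restrict (Ioo 0 T)), ∀ᵐ x ∂(volume : Measure E3), ‖u t x‖ ≤ a t

end Pool.Agent.TO
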