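import Pool.Agent.TO.FWeak

/-!
# Density of (divergence-free) Schwartz fields
-/

set_option autoImplicit false

namespace Pool.Agent.TO

open MeasureTheory Set Filter Topology
open scoped SchwartzMap InnerProductSpace LineDeriv Laplacian ENNReal FourierTransform ComplexConjugate
open scoped Real

/-- multiplication by the coordinate `ξ_j` -/
noncomputable def mulX (j : Fin 3) (a : 𝓢(E3, ℂ)) : 𝓢(E3, ℂ) :=
  SchwartzMap.smulLeftCLM ℂ (fun x : E3 => ⟪x, ee j⟫_ℝ) a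

theorem inner_ee (ξ : E3) (j : Fin 3) : ⟪ξ, ee j⟫_ℝ = ξ j := by
  simp [ee, EuclideanSpace.inner_single_right]

theorem mulX_apply (j : Fin 3) (a : 𝓢(E3, ℂ)) (ξ : E3) : mulX j a ξ = (ξ j : ℂ) * a ξ := by
  have h1 : (fun x : E3 => ⟪x, ee j⟫_ℝ).HasTemperateGrowth := by fun_prop
  rw [mulX, SchwartzMap.smulLeftCLM_apply_apply h1, inner_ee, Complex.real_smul]

/-- the Schwartz field whose Fourier transform is `a (ξ_j e_i - ξ_i e_j)` -/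
noncomputable def curlS (i j : Fin 3) (a : 𝓢(E3, ℂ)) : 𝓢(E3, F3) :=
  𝓕⁻ (sc i (mulX j a) - sc j (mulX i a))

/-- the Fourier transform of `ψ` is orthogonal to `ξ` -/
def DivS (ψ : 𝓢(E3, F3)) : Prop := ∀ ξ : E3, ∑ k, (ξ k : ℂ) * 𝓕 ψ ξ k = 0

theorem fourier_curlS (i j : Fin 3) (a : 𝓢(E3, ℂ)) (ξ : E3) (k : Fin 3) :
    𝓕 (curlS i j a) ξ k = (ξ j : ℂ) * a ξ * (Pi.single i 1 : Fin 3 → ℂ) k -
      (ξ i : ℂ) * a ξ * (Pi.single j 1 : Fin 3 → ℂ) k := by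
  rw [curlS, FourierTransform.fourier_fourierInv_eq, sub_apply, sc_apply, sc_apply, mulX_apply,
    mulX_apply]
  simp [Pi.single_apply]

theorem divS_curlS (i j : Fin 3) (a : 𝓢(E3, ℂ)) : DivS (curlS i j a) := by
  intro ξ
  simp only [fourier_curlS, mul_sub, Finset.sum_sub_distrib, Pi.single_apply, mul_ite, mul_one,
    mul_zero, Finset.sum_ite_eq', Finset.mem_univ, if_true]
  ring

/-- the space of the divergence-free Schwartz fields -/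
noncomputable def DS : Submodule ℂ H3 where
  carrier := {f | ∃ ψ : 𝓢(E3, F3), DivS ψ ∧ ψ.toLp 2 (volume : Measure E3) = f}
  add_mem' := by
    rintro _ _ ⟨ψ, h1, rfl⟩ ⟨χ, h2, rfl⟩
    refine ⟨ψ + χ, ?_, ?_⟩
    · intro ξ
      have h3 : 𝓕 (ψ + χ) = 𝓕 ψ + 𝓕 χ := map_add (SchwartzMap.fourierTransformCLM ℂ) ψ χ
      rw [h3]
      simp only [add_apply, PiLp.add_apply, mul_add, Finset.sum_add_distrib]
      rw [h1 ξ, h2 ξ, add_zero]
    · exact map_add (SchwartzMap.toLpCLM ℂ F3 2 (volume : Measure E3)) ψ χ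
  zero_mem' := by
    refine ⟨0, ?_, ?_⟩
    · intro ξ
      have h3 : 𝓕 (0 : 𝓢(E3, F3)) = 0 := map_zero (SchwartzMap.fourierTransformCLM ℂ)
      rw [h3]
      simp
    · exact map_zero (SchwartzMap.toLpCLM ℂ F3 2 (volume : Measure E3))
  smul_mem' := by
    rintro c _ ⟨ψ, h1, rfl⟩
    refine ⟨c • ψ, ?_, ?_⟩
    · intro ξ
      have h3 : 𝓕 (c • ψ) = c • 𝓕 ψ := map_smul (SchwartzMap.fourierTransformCLM ℂ) c ψ
      rw [h3]
      simp only [smul_apply, PiLp.smul_apply, smul_eq_mul]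
      have h4 := h1 ξ
      calc ∑ k, (ξ k : ℂ) * (c * 𝓕 ψ ξ k) = c * ∑ k, (ξ k : ℂ) * 𝓕 ψ ξ k := by
            rw [Finset.mul_sum]
            exact Finset.sum_congr rfl fun k _ => by ring
        _ = 0 := by rw [h4, mul_zero]
    · exact map_smul (SchwartzMap.toLpCLM ℂ F3 2 (volume : Measure E3)) c ψ

theorem parallel_of_orth {q : H3} (hq : q ∈ DSᗮ) (i j : Fin 3) :
    ∀ᵐ ξ ∂(volume : Measure E3), (ξ j : ℂ) * (𝓕 q : H3) ξ i = (ξ i : ℂ) * (𝓕 q : H3) ξ j := by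
  have key : (fun ξ : E3 => (ξ j : ℂ) * (𝓕 q : H3) ξ i - (ξ i : ℂ) * (𝓕 q : H3) ξ j)
      =ᵐ[volume] 0 := by
    apply ae_zero_of_test
    · refine LocallyIntegrable.sub ?_ ?_
      · exact (locInt_comp _ i).continuous_mul (by fun_prop)
      · exact (locInt_comp _ j).continuous_mul (by fun_prop)
    · intro a
      have h1 : ⟪(curlS i j a).toLp 2 (volume : Measure E3), q⟫_ℂ = 0 :=
        hq _ ⟨_, divS_curlS i j a, rfl⟩
      rw [← Lp.inner_fourier_eq, SchwartzMap.toLp_fourier_eq, inner_toLp] at h1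
      rw [← h1]
      apply integral_congr_ae
      refine Eventually.of_forall fun ξ => ?_
      simp only
      rw [PiLp.inner_apply]
      simp only [RCLike.inner_apply, fourier_curlS, map_sub, Pi.single_apply, mul_sub, mul_ite,
        mul_one, mul_zero, apply_ite (starRingEnd ℂ), map_zero, Finset.sum_sub_distrib,
        Finset.sum_ite_eq', Finset.mem_univ, if_true, map_mul, Complex.conj_ofReal]
      ring
  filter_upwards [key] with ξ h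
  exact sub_eq_zero.1 h

theorem inner_zero_of_orth {q g : H3} (hq : q ∈ DSᗮ) (hg : DivF g) : ⟪q, g⟫_ℂ = 0 := by
  rw [← Lp.inner_fourier_eq, L2.inner_def]
  apply integral_eq_zero_of_ae
  have h0 : ∀ᵐ ξ ∂(volume : Measure E3), ξ ≠ 0 := by
    rw [ae_iff]
    simp
  have hall : ∀ᵐ ξ ∂(volume : Measure E3), ∀ i j, (ξ j : ℂ) * (𝓕 q : H3) ξ i =
      (ξ i : ℂ) * (𝓕 q : H3) ξ j := by
    rw [ae_all_iff]
    intro i
    rw [ae_all_iff]
    intro j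
    exact parallel_of_orth hq i j
  filter_upwards [h0, hall, hg] with ξ h1 h2 h3
  rw [Pi.zero_apply]
  have h4 : (∑ j, ((ξ j : ℝ) : ℂ) ^ 2) * ⟪(𝓕 q : H3) ξ, (𝓕 g : H3) ξ⟫_ℂ = 0 := by
    rw [PiLp.inner_apply, Finset.sum_mul_sum]
    simp only [RCLike.inner_apply]
    have h5 : ∀ j i, ((ξ j : ℝ) : ℂ) ^ 2 * ((𝓕 g : H3) ξ i * conj ((𝓕 q : H3) ξ i)) =
        ((ξ j : ℂ) * conj ((𝓕 q : H3) ξ j)) * ((ξ i : ℂ) * (𝓕 g : H3) ξ i) := by
      intro j i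
      have h6 := congrArg conj (h2 i j)
      simp only [map_mul, Complex.conj_ofReal] at h6
      linear_combination ((ξ j : ℝ) : ℂ) * (𝓕 g : H3) ξ i * h6
    simp only [h5]
    rw [← Finset.sum_mul_sum, h3, mul_zero]
  have h5 : (∑ j, ((ξ j : ℝ) : ℂ) ^ 2) ≠ 0 := by
    have h6 : (∑ j, ((ξ j : ℝ) : ℂ) ^ 2) = ((‖ξ‖ ^ 2 : ℝ) : ℂ) := by
      rw [← sum_sq_eq]
      push_cast
      rfl
    rw [h6]
    exact_mod_cast pow_ne_zero 2 (norm_ne_zero_iff.2 h1)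
  exact (mul_eq_zero.1 h4).resolve_left h5

/-- divergence-free Schwartz fields are dense -/
theorem exists_divS {g : H3} (hg : DivF g) {ε : ℝ} (hε : 0 < ε) :
    ∃ ψ : 𝓢(E3, F3), DivS ψ ∧ ‖ψ.toLp 2 (volume : Measure E3) - g‖ < ε := by
  have h1 : g ∈ DSᗮᗮ := by
    intro q hq
    exact inner_zero_of_orth hq hg
  rw [Submodule.orthogonal_orthogonal_eq_closure] at h1
  have h2 : g ∈ closure (DS : Set H3) := h1
  rw [Metric.mem_closure_iff] at h2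
  obtain ⟨_, ⟨ψ, h3, rfl⟩, h4⟩ := h2 ε hε
  refine ⟨ψ, h3, ?_⟩
  rwa [dist_comm, dist_eq_norm] at h4

/-- Schwartz fields are dense -/
theorem exists_schwartz (g : H3) {ε : ℝ} (hε : 0 < ε) :
    ∃ ψ : 𝓢(E3, F3), ‖ψ.toLp 2 (volume : Measure E3) - g‖ < ε := by
  have h := SchwartzMap.denseRange_toLpCLM (E := E3) (F := F3) (p := 2)
    (μ := (volume : Measure E3)) (by norm_num)
  obtain ⟨_, h1, ψ, rfl⟩ := (Metric.dense_iff.1 h) g ε hε
  refine ⟨ψ, ?_⟩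
  rw [Metric.mem_ball, dist_eq_norm] at h1
  exact h1

/-- the weight `(1 + ‖ξ‖²)⁻¹` -/
noncomputable def wt (ξ : E3) : ℝ := (1 + ‖ξ‖ ^ 2) ^ (-1 : ℝ)

theorem wt_growth : Function.HasTemperateGrowth wt := by
  unfold wt
  fun_prop

theorem wt_eq (ξ : E3) : wt ξ = (1 + ‖ξ‖ ^ 2)⁻¹ := by
  rw [wt, Real.rpow_neg_one]

/-- apply the multiplier `(1 + ‖ξ‖²)⁻¹` to a Schwartz field -/
noncomputable def lift (ψ : 𝓢(E3, F3)) : 𝓢(E3, F3) :=
  𝓕⁻ (SchwartzMap.smulLeftCLM F3 wt (𝓕 ψ))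

theorem fourier_lift (ψ : 𝓢(E3, F3)) (ξ : E3) : 𝓕 (lift ψ) ξ = wt ξ • 𝓕 ψ ξ := by
  rw [lift, FourierTransform.fourier_fourierInv_eq, SchwartzMap.smulLeftCLM_apply_apply wt_growth]

theorem fourier_lineDeriv_lift (ψ : 𝓢(E3, F3)) (k : Fin 3) (ξ : E3) :
    𝓕 (∂_{ee k} (lift ψ)) ξ = (2 * π * Complex.I * (ξ k : ℂ) * (wt ξ : ℂ)) • 𝓕 ψ ξ := by
  rw [fourier_lineDeriv, fourier_lift, ← Complex.coe_smul, smul_smul]

theorem laplacian_eq (φ : 𝓢(E3, F3)) : Δ φ = ∑ k, ∂_{ee k} (∂_{ee k} φ) := by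
  rw [SchwartzMap.laplacian_eq_sum (EuclideanSpace.basisFun (Fin 3) ℝ)]
  refine Finset.sum_congr rfl fun k _ => ?_
  rw [EuclideanSpace.basisFun_apply]

theorem divS_lift {ψ : 𝓢(E3, F3)} (h : DivS ψ) (x : E3) :
    ∑ k, (∂_{ee k} (lift ψ)) x k = 0 := by
  set D : 𝓢(E3, ℂ) := ∑ k, co k (∂_{ee k} (lift ψ)) with hD
  have h1 : 𝓕 D = 0 := by
    ext ξ
    have h2 : 𝓕 D = ∑ k, co k (𝓕 (∂_{ee k} (lift ψ))) := by
      rw [hD]
      rw [show 𝓕 (∑ k, co k (∂_{ee k} (lift ψ))) = ∑ k, 𝓕 (co k (∂_{ee k} (lift ψ))) from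
        map_sum (SchwartzMap.fourierTransformCLM ℂ) _ _]
      refine Finset.sum_congr rfl fun k _ => ?_
      rw [co, fourier_postcomp]
      rfl
    rw [h2, sum_apply]
    have h3 : ∀ k, co k (𝓕 (∂_{ee k} (lift ψ))) ξ =
        (2 * π * Complex.I * (wt ξ : ℂ)) * ((ξ k : ℂ) * 𝓕 ψ ξ k) := by
      intro k
      rw [co_apply, fourier_lineDeriv_lift, PiLp.smul_apply, smul_eq_mul]
      ring
    simp only [h3]
    rw [← Finset.mul_sum, h ξ, mul_zero]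
    rfl
  have h2 : D = 0 := by
    have h3 : 𝓕 (0 : 𝓢(E3, ℂ)) = 0 := map_zero (SchwartzMap.fourierTransformCLM ℂ)
    calc D = 𝓕⁻ (𝓕 D) := (FourierTransform.fourierInv_fourier_eq D).symm
      _ = 𝓕⁻ (𝓕 (0 : 𝓢(E3, ℂ))) := by rw [h1, h3]
      _ = 0 := FourierTransform.fourierInv_fourier_eq _
  have h3 := congrArg (fun a : 𝓢(E3, ℂ) => a x) h2
  simp only [hD, sum_apply, co_apply] at h3
  exact h3

/-- the symbol `χ_R (1 + ‖ξ‖²)` -/
noncomputable def mQ (R : ℝ) (ξ : E3) : ℂ := if ‖ξ‖ < R then ((1 + ‖ξ‖ ^ 2 : ℝ) : ℂ) else 0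

theorem memLp_mQ (R : ℝ) : MemLp (mQ R) ∞ (volume : Measure E3) := by
  refine memLp_top_of_bound (C := 1 + R ^ 2) ?_ (Eventually.of_forall fun ξ => ?_)
  · unfold mQ
    refine (Measurable.ite (measurableSet_lt measurable_norm measurable_const) ?_
      measurable_const).aestronglyMeasurable
    fun_prop
  · unfold mQ
    split_ifs with h
    · rw [Complex.norm_real, Real.norm_of_nonneg (by positivity)]
      have := norm_nonneg ξ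
      gcongr
    · rw [norm_zero]; positivity

theorem fourier_Q (R : ℝ) (f : H3) :
    (𝓕 (FM (mQ R) f) : H3) =ᵐ[volume] fun ξ => mQ R ξ • (𝓕 f : H3) ξ := by
  rw [fourier_FM]
  exact coe_mulOp (memLp_mQ R) _

theorem divF_Q {f : H3} (h : DivF f) (R : ℝ) : DivF (FM (mQ R) f) := by
  filter_upwards [h, fourier_Q R f] with ξ h1 h2
  rw [h2]
  calc ∑ j, (ξ j : ℂ) * (mQ R ξ • (𝓕 f : H3) ξ) j
      = mQ R ξ * ∑ j, (ξ j : ℂ) * (𝓕 f : H3) ξ j := by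
        rw [Finset.mul_sum]
        refine Finset.sum_congr rfl fun j _ => ?_
        rw [PiLp.smul_apply, smul_eq_mul]
        ring
    _ = 0 := by rw [h1, mul_zero]

/-- comparison of two elements through their Fourier transforms -/
theorem norm_sub_le_of_fourier {a b c d : H3} {C : ℝ}
    (h : ∀ᵐ ξ ∂(volume : Measure E3), ‖(𝓕 a : H3) ξ - (𝓕 b : H3) ξ‖ ≤
      C * ‖(𝓕 c : H3) ξ - (𝓕 d : H3) ξ‖) : ‖a - b‖ ≤ C * ‖c - d‖ := by
  rw [← Lp.norm_fourier_eq (a - b), ← Lp.norm_fourier_eq (c - d)]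
  have h1 : (𝓕 (a - b) : H3) = 𝓕 a - 𝓕 b := map_sub (Lp.fourierTransformₗᵢ E3 F3) _ _
  have h2 : (𝓕 (c - d) : H3) = 𝓕 c - 𝓕 d := map_sub (Lp.fourierTransformₗᵢ E3 F3) _ _
  rw [h1, h2]
  apply Lp.norm_le_mul_norm_of_ae_le_mul
  filter_upwards [h, Lp.coeFn_sub (𝓕 a : H3) (𝓕 b), Lp.coeFn_sub (𝓕 c : H3) (𝓕 d)]
    with ξ h3 h4 h5
  rw [h4, h5]
  exact h3

theorem fourier_toLp (φ : 𝓢(E3, F3)) :
    (𝓕 (φ.toLp 2 (volume : Measure E3)) : H3) =ᵐ[volume] fun ξ => (𝓕 φ : 𝓢(E3, F3)) ξ := by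
  rw [SchwartzMap.toLp_fourier_eq]
  exact (𝓕 φ).coeFn_toLp 2 (volume : Measure E3)

theorem wt_pos (ξ : E3) : 0 < wt ξ := by
  rw [wt_eq]; positivity

theorem wt_mul (ξ : E3) : wt ξ * (1 + ‖ξ‖ ^ 2) = 1 := by
  rw [wt_eq]
  have : (1 + ‖ξ‖ ^ 2) ≠ 0 := by positivity
  field_simp

theorem wt_mul_sq_le (ξ : E3) : wt ξ * ‖ξ‖ ^ 2 ≤ 1 := by
  have h1 := wt_mul ξ
  have h2 := wt_pos ξ
  nlinarith

theorem wt_mul_abs_le (ξ : E3) (k : Fin 3) : wt ξ * |ξ k| ≤ 1 := by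
  have h1 := wt_mul ξ
  have h2 := wt_pos ξ
  have h3 := abs_coord_le ξ k
  have h4 : ‖ξ‖ ≤ 1 + ‖ξ‖ ^ 2 := by nlinarith [sq_nonneg (‖ξ‖ - 1)]
  calc wt ξ * |ξ k| ≤ wt ξ * (1 + ‖ξ‖ ^ 2) := by gcongr; exact h3.trans h4
    _ = 1 := h1

theorem mQ_wt (R : ℝ) (ξ : E3) : (wt ξ : ℂ) * mQ R ξ = mP R ξ := by
  unfold mQ mP
  split_ifs
  · rw [← Complex.ofReal_mul, wt_mul, Complex.ofReal_one]
  · simp

theorem lift_sub_PP (ψ : 𝓢(E3, F3)) (h : H3) (R : ℝ) :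
    ‖(lift ψ).toLp 2 (volume : Measure E3) - PP R h‖ ≤
      1 * ‖ψ.toLp 2 (volume : Measure E3) - FM (mQ R) h‖ := by
  apply norm_sub_le_of_fourier
  filter_upwards [fourier_toLp (lift ψ), fourier_PP R h, fourier_toLp ψ, fourier_Q R h]
    with ξ h1 h2 h3 h4
  rw [h1, h2, h3, h4, fourier_lift, ← mQ_wt, mul_smul, ← Complex.coe_smul, ← smul_sub, norm_smul,
    Complex.norm_real, Real.norm_of_nonneg (wt_pos ξ).le]
  gcongr
  have := wt_mul ξ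
  have := wt_pos ξ
  nlinarith [sq_nonneg ‖ξ‖, mul_nonneg (wt_pos ξ).le (sq_nonneg ‖ξ‖)]

theorem lift_sub_DD (ψ : 𝓢(E3, F3)) (h : H3) (R : ℝ) (k : Fin 3) :
    ‖(∂_{ee k} (lift ψ)).toLp 2 (volume : Measure E3) - DD k R h‖ ≤
      (2 * π) * ‖ψ.toLp 2 (volume : Measure E3) - FM (mQ R) h‖ := by
  apply norm_sub_le_of_fourier
  filter_upwards [fourier_toLp (∂_{ee k} (lift ψ)), fourier_DD k R h, fourier_toLp ψ,
    fourier_Q R h] with ξ h1 h2 h3 h4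
  have h5 : mD k R ξ = (2 * π * Complex.I * (ξ k : ℂ) * (wt ξ : ℂ)) * mQ R ξ := by
    rw [mul_assoc _ (wt ξ : ℂ), mQ_wt]
    unfold mD mP
    split_ifs <;> simp
  rw [h1, h2, h3, h4, fourier_lineDeriv_lift, h5, mul_smul _ (mQ R ξ), ← smul_sub, norm_smul]
  gcongr
  have h6 : ‖2 * (π:ℂ) * Complex.I * (ξ k : ℂ) * (wt ξ : ℂ)‖ = 2 * π * (wt ξ * |ξ k|) := by
    simp only [norm_mul, Complex.norm_real, Complex.norm_I, Real.norm_eq_abs,
      Complex.norm_ofNat, abs_of_pos Real.pi_pos, mul_one, abs_of_pos (wt_pos ξ)]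
    ring
  rw [h6]
  have := wt_mul_abs_le ξ k
  have := Real.pi_pos
  nlinarith

theorem lift_sub_LL (ψ : 𝓢(E3, F3)) (h : H3) (R : ℝ) :
    ‖(Δ (lift ψ)).toLp 2 (volume : Measure E3) - ∑ k, DD k R (DD k R h)‖ ≤
      (2 * π) ^ 2 * ‖ψ.toLp 2 (volume : Measure E3) - FM (mQ R) h‖ := by
  apply norm_sub_le_of_fourier
  have h0 : (𝓕 (∑ k, DD k R (DD k R h)) : H3) = ∑ k, 𝓕 (DD k R (DD k R h)) :=
    map_sum (Lp.fourierTransformₗᵢ E3 F3) _ _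
  have h0' : (𝓕 (∑ k, DD k R (DD k R h)) : H3) =ᵐ[volume]
      fun ξ => (-(2 * π) ^ 2 * (‖ξ‖ ^ 2 : ℝ) * mP R ξ : ℂ) • (𝓕 h : H3) ξ := by
    rw [h0]
    filter_upwards [Lp.coeFn_finsetSum Finset.univ (fun k => (𝓕 (DD k R (DD k R h)) : H3)),
      fourier_DD 0 R (DD 0 R h), fourier_DD 1 R (DD 1 R h), fourier_DD 2 R (DD 2 R h),
      fourier_DD 0 R h, fourier_DD 1 R h, fourier_DD 2 R h] with ξ g g0 g1 g2 g3 g4 g5
    rw [g, Fin.sum_univ_three, Pi.add_apply, Pi.add_apply, g0, g1, g2, g3, g4, g5, smul_smul, smul_smul, smul_smul,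
      ← add_smul, ← add_smul]
    congr 1
    rw [← sum_sq_eq, Fin.sum_univ_three]
    unfold mD mP
    split_ifs
    · push_cast
      linear_combination (4 * (π:ℂ) ^ 2 * ((ξ 0 : ℂ) ^ 2 + (ξ 1 : ℂ) ^ 2 + (ξ 2 : ℂ) ^ 2)) *
        Complex.I_sq
    · simp
  have h0'' : ∀ ξ, 𝓕 (Δ (lift ψ)) ξ =
      (-(2 * π) ^ 2 * (‖ξ‖ ^ 2 : ℝ) * (wt ξ : ℂ) : ℂ) • 𝓕 ψ ξ := by
    intro ξ
    rw [laplacian_eq, show 𝓕 (∑ k, ∂_{ee k} (∂_{ee k} (lift ψ))) =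
      ∑ k, 𝓕 (∂_{ee k} (∂_{ee k} (lift ψ))) from
      map_sum (SchwartzMap.fourierTransformCLM ℂ) _ _, sum_apply]
    simp only [fourier_lineDeriv _ _ ξ, fourier_lift, ← Complex.coe_smul, smul_smul]
    rw [← Finset.sum_smul]
    congr 1
    rw [← sum_sq_eq, Fin.sum_univ_three, Fin.sum_univ_three]
    push_cast
    linear_combination (4 * (π:ℂ) ^ 2 * ((ξ 0 : ℂ) ^ 2 + (ξ 1 : ℂ) ^ 2 + (ξ 2 : ℂ) ^ 2)) *
        (wt ξ : ℂ) * Complex.I_sq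
  filter_upwards [fourier_toLp (Δ (lift ψ)), h0', fourier_toLp ψ, fourier_Q R h]
    with ξ h1 h2 h3 h4
  rw [h1, h2, h3, h4, h0'', ← mQ_wt, ← mul_assoc, mul_smul _ (mQ R ξ), ← smul_sub, norm_smul]
  gcongr
  have h6 : ‖-(2 * (π:ℂ)) ^ 2 * ((‖ξ‖ ^ 2 : ℝ) : ℂ) * (wt ξ : ℂ)‖ =
      (2 * π) ^ 2 * (wt ξ * ‖ξ‖ ^ 2) := by
    rw [norm_mul, norm_mul, norm_neg, norm_pow, norm_mul, Complex.norm_real, Complex.norm_real,
      Complex.norm_real, Real.norm_of_nonneg (wt_pos ξ).le, Real.norm_of_nonneg Real.pi_pos.le,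
      Real.norm_of_nonneg (sq_nonneg ‖ξ‖), Complex.norm_ofNat]
    ring
  rw [h6]
  have := wt_mul_sq_le ξ
  have : (0:ℝ) ≤ (2 * π) ^ 2 := by positivity
  nlinarith

/-- Approximation of truncated fields by Schwartz fields, with derivatives. -/
theorem exists_approx (h : H3) (R : ℝ) {ε : ℝ} (hε : 0 < ε) :
    ∃ φ : 𝓢(E3, F3), ‖φ.toLp 2 (volume : Measure E3) - PP R h‖ < ε ∧
      ∀ k, ‖(∂_{ee k} φ).toLp 2 (volume : Measure E3) - DD k R h‖ < ε := by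
  have hp := Real.pi_pos
  obtain ⟨ψ, hψ⟩ := exists_schwartz (FM (mQ R) h) (ε := ε / (1 + 2 * π)) (by positivity)
  rw [lt_div_iff₀ (by positivity)] at hψ
  have h0 := norm_nonneg (ψ.toLp 2 (volume : Measure E3) - FM (mQ R) h)
  refine ⟨lift ψ, ?_, fun k => ?_⟩
  · have := lift_sub_PP ψ h R
    nlinarith
  · have := lift_sub_DD ψ h R k
    nlinarith

/-- Approximation of truncated divergence-free fields by divergence-free Schwartz fields, with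
derivatives. -/
theorem exists_approx_div {h : H3} (hd : DivF h) (R : ℝ) {ε : ℝ} (hε : 0 < ε) :
    ∃ φ : 𝓢(E3, F3), (∀ x, ∑ k, (∂_{ee k} φ) x k = 0) ∧
      ‖φ.toLp 2 (volume : Measure E3) - PP R h‖ < ε ∧
      (∀ k, ‖(∂_{ee k} φ).toLp 2 (volume : Measure E3) - DD k R h‖ < ε) ∧
      ‖(Δ φ).toLp 2 (volume : Measure E3) - ∑ k, DD k R (DD k R h)‖ < ε := by
  have hp := Real.pi_pos
  obtain ⟨ψ, hψ, hψ'⟩ := exists_divS (divF_Q hd R) (ε := ε / (1 + 2 * π + (2 * π) ^ 2))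
    (by positivity)
  rw [lt_div_iff₀ (by positivity)] at hψ'
  have h0 := norm_nonneg (ψ.toLp 2 (volume : Measure E3) - FM (mQ R) h)
  have hp2 : 0 < (2 * π) ^ 2 := by positivity
  refine ⟨lift ψ, divS_lift hψ, ?_, fun k => ?_, ?_⟩
  · have := lift_sub_PP ψ h R
    nlinarith
  · have := lift_sub_DD ψ h R k
    nlinarith
  · have := lift_sub_LL ψ h R
    nlinarith

end Pool.Agent.TO
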