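import Pool.Agent.TO.Cut

/-!
# Schwartz test fields, weak derivatives and the divergence on the Fourier side
-/

set_option autoImplicit false

namespace Pool.Agent.TO

open MeasureTheory Set Filter Topology
open scoped SchwartzMap InnerProductSpace LineDeriv Laplacian ENNReal FourierTransform ComplexConjugate
open scoped Real

/-- the `j`-th component vector field `a e_j` -/
noncomputable def sgl (j : Fin 3) : ℂ →L[ℂ] F3 :=
  ContinuousLinearMap.toSpanSingleton ℂ (EuclideanSpace.single j (1:ℂ))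

/-- the Schwartz field `a e_j` -/
noncomputable def sc (j : Fin 3) (a : 𝓢(E3, ℂ)) : 𝓢(E3, F3) := a.postcompCLM (sgl j)

/-- the component of a Schwartz field -/
noncomputable def co (j : Fin 3) (φ : 𝓢(E3, F3)) : 𝓢(E3, ℂ) :=
  φ.postcompCLM (EuclideanSpace.proj j : F3 →L[ℂ] ℂ)

/-- the real part of a Schwartz field -/
noncomputable def reS (φ : 𝓢(E3, F3)) : 𝓢(E3, E3) := φ.postcompCLM reP

/-- the imaginary part of a Schwartz field -/
noncomputable def imS (φ : 𝓢(E3, F3)) : 𝓢(E3, E3) := φ.postcompCLM imP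

theorem reS_apply (φ : 𝓢(E3, F3)) (x : E3) : reS φ x = reP (φ x) := rfl
theorem imS_apply (φ : 𝓢(E3, F3)) (x : E3) : imS φ x = imP (φ x) := rfl
theorem co_apply (j : Fin 3) (φ : 𝓢(E3, F3)) (x : E3) : co j φ x = φ x j := rfl
theorem sc_apply (j : Fin 3) (a : 𝓢(E3, ℂ)) (x : E3) :
    sc j a x = a x • EuclideanSpace.single j (1:ℂ) := rfl

theorem lineDeriv_postcomp {F G : Type*} [NormedAddCommGroup F] [NormedSpace ℝ F]
    [NormedAddCommGroup G] [NormedSpace ℝ G] (L : F →L[ℝ] G) (φ : 𝓢(E3, F)) (m : E3) :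
    ∂_{m} (φ.postcompCLM L) = (∂_{m} φ).postcompCLM L := by
  ext x
  rw [SchwartzMap.lineDerivOp_apply_eq_fderiv]
  change fderiv ℝ (fun y => L (φ y)) x m = L ((∂_{m} φ) x)
  rw [SchwartzMap.lineDerivOp_apply_eq_fderiv]
  have h := (L.hasFDerivAt (x := φ x)).comp x (φ.differentiableAt (x := x)).hasFDerivAt
  have h2 : fderiv ℝ (fun y => L (φ y)) x = L ∘L (fderiv ℝ φ x) := h.fderiv
  rw [h2]
  rfl

theorem laplacian_postcomp {F G : Type*} [NormedAddCommGroup F] [NormedSpace ℝ F]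
    [NormedAddCommGroup G] [NormedSpace ℝ G] (L : F →L[ℝ] G) (φ : 𝓢(E3, F)) :
    Δ (φ.postcompCLM L) = (Δ φ).postcompCLM L := by
  rw [SchwartzMap.laplacian_eq_sum (EuclideanSpace.basisFun (Fin 3) ℝ),
    SchwartzMap.laplacian_eq_sum (EuclideanSpace.basisFun (Fin 3) ℝ)]
  simp only [lineDeriv_postcomp, map_sum]

theorem fourier_postcomp {F G : Type*} [NormedAddCommGroup F] [NormedSpace ℂ F]
    [NormedAddCommGroup G] [NormedSpace ℂ G] [CompleteSpace F] [CompleteSpace G]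
    (L : F →L[ℂ] G) (φ : 𝓢(E3, F)) :
    𝓕 (φ.postcompCLM L) = (𝓕 φ).postcompCLM L := by
  ext x
  change 𝓕 (fun y => L (φ y)) x = L (𝓕 (φ : E3 → F) x)
  rw [Real.fourier_eq, Real.fourier_eq]
  have hi : Integrable (fun v : E3 => (Real.fourierChar (-⟪v, x⟫_ℝ)) • φ v)
      (volume : Measure E3) := by
    rw [Real.fourierIntegral_convergent_iff]
    exact φ.integrable
  have h := L.integral_comp_comm hi
  rw [← h]
  congr 1
  funext v
  rw [Circle.smul_def, Circle.smul_def, map_smul]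

/-- a Schwartz field paired with the complexification of a real field -/
theorem toLp_eq_cplx (φ : 𝓢(E3, F3)) : φ.toLp 2 (volume : Measure E3) =
    cplx ((reS φ).toLp 2 volume) + Complex.I • cplx ((imS φ).toLp 2 volume) := by
  apply Lp.ext
  filter_upwards [φ.coeFn_toLp 2 (volume : Measure E3),
    Lp.coeFn_add (cplx ((reS φ).toLp 2 volume)) (Complex.I • cplx ((imS φ).toLp 2 volume)),
    Lp.coeFn_smul Complex.I (cplx ((imS φ).toLp 2 volume)),
    coe_cplx ((reS φ).toLp 2 volume), coe_cplx ((imS φ).toLp 2 volume),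
    (reS φ).coeFn_toLp 2 (volume : Measure E3), (imS φ).coeFn_toLp 2 (volume : Measure E3)]
    with x h1 h2 h3 h4 h5 h6 h7
  rw [h1, h2, Pi.add_apply, h3, Pi.smul_apply, h4, h5, h6, h7]
  ext j
  simp only [PiLp.add_apply, PiLp.smul_apply, incl_apply, reS_apply, imS_apply, reP_apply,
    imP_apply, smul_eq_mul]
  rw [mul_comm]
  exact (Complex.re_add_im _).symm

theorem inner_toLp_cplx (φ : 𝓢(E3, F3)) (f : V3) :
    ⟪φ.toLp 2 (volume : Measure E3), cplx f⟫_ℂ =
      ((⟪(reS φ).toLp 2 (volume : Measure E3), f⟫_ℝ : ℝ) : ℂ) -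
        Complex.I * ((⟪(imS φ).toLp 2 (volume : Measure E3), f⟫_ℝ : ℝ) : ℂ) := by
  rw [toLp_eq_cplx, inner_add_left, inner_smul_left, inner_cplx, inner_cplx, Complex.conj_I]
  ring

theorem integral_inner_eq (ψ : 𝓢(E3, E3)) (f : V3) :
    ∫ x, ⟪ψ x, f x⟫_ℝ = ⟪ψ.toLp 2 (volume : Measure E3), f⟫_ℝ := by
  rw [L2.inner_def]
  apply integral_congr_ae
  filter_upwards [ψ.coeFn_toLp 2 (volume : Measure E3)] with x h
  rw [h]

theorem reS_lineDeriv (φ : 𝓢(E3, F3)) (m : E3) : ∂_{m} (reS φ) = reS (∂_{m} φ) :=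
  lineDeriv_postcomp reP φ m

theorem imS_lineDeriv (φ : 𝓢(E3, F3)) (m : E3) : ∂_{m} (imS φ) = imS (∂_{m} φ) :=
  lineDeriv_postcomp imP φ m

theorem reS_laplacian (φ : 𝓢(E3, F3)) : Δ (reS φ) = reS (Δ φ) :=
  laplacian_postcomp reP φ

theorem imS_laplacian (φ : 𝓢(E3, F3)) : Δ (imS φ) = imS (Δ φ) :=
  laplacian_postcomp imP φ

theorem IsWeakDeriv.cplx {k : Fin 3} {f g : V3} (h : IsWeakDeriv k f g) (φ : 𝓢(E3, F3)) :
    ⟪(∂_{ee k} φ).toLp 2 (volume : Measure E3), TO.cplx f⟫_ℂ =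
      -⟪φ.toLp 2 (volume : Measure E3), TO.cplx g⟫_ℂ := by
  have h1 := h (reS φ)
  have h2 := h (imS φ)
  rw [integral_inner_eq, integral_inner_eq, reS_lineDeriv] at h1
  rw [integral_inner_eq, integral_inner_eq, imS_lineDeriv] at h2
  rw [inner_toLp_cplx, inner_toLp_cplx, h1, h2]
  push_cast
  ring

/-- the fundamental lemma with Schwartz test functions -/
theorem ae_zero_of_test {h : E3 → ℂ} (hl : LocallyIntegrable h (volume : Measure E3))
    (H : ∀ a : 𝓢(E3, ℂ), ∫ ξ, conj (a ξ) * h ξ = 0) : h =ᵐ[volume] 0 := by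
  apply ae_eq_zero_of_integral_contDiff_smul_eq_zero hl
  intro g hg hc
  have h1 : HasCompactSupport (fun x => ((g x : ℝ) : ℂ)) := hc.comp_left (g := fun r : ℝ => (r:ℂ)) (by simp)
  have h2 : ContDiff ℝ ((⊤ : ℕ∞) : WithTop ℕ∞) (fun x => ((g x : ℝ) : ℂ)) := Complex.ofRealCLM.contDiff.comp hg
  have h3 := H (h1.toSchwartzMap h2)
  rw [← h3]
  apply integral_congr_ae
  refine Eventually.of_forall fun x => ?_
  change g x • h x = conj ((g x : ℝ) : ℂ) * h x
  rw [Complex.conj_ofReal]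
  rfl

theorem fourier_lineDeriv (φ : 𝓢(E3, F3)) (k : Fin 3) (ξ : E3) :
    𝓕 (∂_{ee k} φ) ξ = (2 * π * Complex.I * (ξ k : ℂ)) • 𝓕 φ ξ := by
  rw [SchwartzMap.fourier_lineDerivOp_eq]
  have h1 : (fun x : E3 => ⟪x, ee k⟫_ℝ).HasTemperateGrowth := by fun_prop
  rw [smul_apply, SchwartzMap.smulLeftCLM_apply_apply h1]
  have h2 : ⟪ξ, ee k⟫_ℝ = ξ k := by
    simp [ee, EuclideanSpace.inner_single_right]
  rw [h2, ← Complex.coe_smul, smul_smul]

theorem inner_toLp (ψ : 𝓢(E3, F3)) (F : H3) :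
    ⟪ψ.toLp 2 (volume : Measure E3), F⟫_ℂ = ∫ ξ, ⟪ψ ξ, F ξ⟫_ℂ := by
  rw [L2.inner_def]
  apply integral_congr_ae
  filter_upwards [ψ.coeFn_toLp 2 (volume : Measure E3)] with x h
  rw [h]

theorem integrable_inner_toLp (ψ : 𝓢(E3, F3)) (F : H3) :
    Integrable (fun ξ => ⟪ψ ξ, F ξ⟫_ℂ) (volume : Measure E3) := by
  refine (L2.integrable_inner (𝕜 := ℂ) (ψ.toLp 2 (volume : Measure E3)) F).congr ?_
  filter_upwards [ψ.coeFn_toLp 2 (volume : Measure E3)] with x h
  rw [h]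

theorem inner_single (c : ℂ) (j : Fin 3) (z : F3) :
    ⟪c • EuclideanSpace.single j (1:ℂ), z⟫_ℂ = conj c * z j := by
  rw [inner_smul_left, EuclideanSpace.inner_single_left, map_one, one_mul]

theorem locInt_comp (F : H3) (j : Fin 3) :
    LocallyIntegrable (fun ξ => F ξ j) (volume : Measure E3) := by
  have h : MemLp (fun ξ => F ξ j) 2 (volume : Measure E3) := by
    refine (Lp.memLp F).of_le (g := fun ξ => F ξ) ?_ ?_
    · exact (EuclideanSpace.proj (𝕜 := ℂ) j).continuous.comp_aestronglyMeasurable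
        (Lp.aestronglyMeasurable F)
    · exact Eventually.of_forall fun ξ => PiLp.norm_apply_le (F ξ) j
  exact h.locallyIntegrable (by norm_num)

/-- the Fourier transform of a weak derivative -/
theorem IsWeakDeriv.fourier {k : Fin 3} {f g : V3} (h : IsWeakDeriv k f g) :
    (𝓕 (TO.cplx g) : H3) =ᵐ[volume]
      fun ξ => (2 * π * Complex.I * (ξ k : ℂ)) • (𝓕 (TO.cplx f) : H3) ξ := by
  set F : H3 := 𝓕 (TO.cplx f) with hF
  set G : H3 := 𝓕 (TO.cplx g) with hG
  have key : ∀ j : Fin 3, (fun ξ => G ξ j - (2 * π * Complex.I * (ξ k : ℂ)) * F ξ j)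
      =ᵐ[volume] 0 := by
    intro j
    apply ae_zero_of_test
    · refine (locInt_comp G j).sub ?_
      exact (locInt_comp F j).continuous_mul (by fun_prop)
    · intro a
      set ψ : 𝓢(E3, F3) := sc j a with hψ
      set φ : 𝓢(E3, F3) := 𝓕⁻ ψ with hφ
      have h0 : 𝓕 φ = ψ := by rw [hφ, FourierTransform.fourier_fourierInv_eq]
      have h1 := h.cplx φ
      rw [← Lp.inner_fourier_eq, ← Lp.inner_fourier_eq (φ.toLp 2 volume),
        SchwartzMap.toLp_fourier_eq, SchwartzMap.toLp_fourier_eq, inner_toLp, inner_toLp, h0] at h1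
      have h2 : ∀ ξ, ⟪𝓕 (∂_{ee k} φ) ξ, F ξ⟫_ℂ =
          - (conj (a ξ) * ((2 * π * Complex.I * (ξ k : ℂ)) * F ξ j)) := by
        intro ξ
        rw [fourier_lineDeriv, h0, hψ, sc_apply, smul_smul, inner_single]
        simp only [map_mul, Complex.conj_ofReal, Complex.conj_I, map_ofNat]
        ring
      have h3 : ∀ ξ, ⟪ψ ξ, G ξ⟫_ℂ = conj (a ξ) * G ξ j := by
        intro ξ
        rw [hψ, sc_apply, inner_single]
      have h4 := integrable_inner_toLp (𝓕 (∂_{ee k} φ)) F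
      have h5 := integrable_inner_toLp ψ G
      have h6 : ∫ ξ, (⟪ψ ξ, G ξ⟫_ℂ + ⟪𝓕 (∂_{ee k} φ) ξ, F ξ⟫_ℂ) = 0 := by
        rw [integral_add h5 h4]
        rw [h1]
        ring
      rw [← h6]
      apply integral_congr_ae
      refine Eventually.of_forall fun ξ => ?_
      simp only [h2, h3]
      ring
  filter_upwards [key 0, key 1, key 2] with ξ h0 h1 h2
  ext j
  simp only [Pi.zero_apply] at h0 h1 h2
  rw [PiLp.smul_apply, smul_eq_mul]
  fin_cases j
  · exact sub_eq_zero.1 h0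
  · exact sub_eq_zero.1 h1
  · exact sub_eq_zero.1 h2

theorem IsWeakDeriv.DD_eq {k : Fin 3} {f g : V3} (h : IsWeakDeriv k f g) (R : ℝ) :
    DD k R (TO.cplx f) = PP R (TO.cplx g) := by
  apply fourier_injective
  apply Lp.ext
  filter_upwards [fourier_DD k R (TO.cplx f), fourier_PP R (TO.cplx g), h.fourier] with ξ h1 h2 h3
  rw [h1, h2, h3, smul_smul]
  congr 1
  unfold mD mP
  split_ifs <;> simp

/-- high frequencies are controlled by the weak gradient -/
theorem high_le_weak {R : ℝ} (hR : 0 ≤ R) (f : V3) (d : Fin 3 → V3)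
    (h : ∀ k, IsWeakDeriv k f (d k)) :
    (2 * π * R) ^ 2 * (‖f‖ ^ 2 - ‖PP R (cplx f)‖ ^ 2) ≤ ∑ k, ‖d k‖ ^ 2 := by
  have h1 : Tendsto (fun n : ℕ => (2 * π * R) ^ 2 *
      (‖PP n (cplx f)‖ ^ 2 - ‖PP R (cplx f)‖ ^ 2)) atTop
      (𝓝 ((2 * π * R) ^ 2 * (‖cplx f‖ ^ 2 - ‖PP R (cplx f)‖ ^ 2))) :=
    (((tendsto_PP (cplx f)).norm.pow 2).sub_const _).const_mul _
  rw [norm_cplx] at h1
  refine le_of_tendsto h1 ?_
  obtain ⟨N, hN⟩ := exists_nat_ge R
  filter_upwards [eventually_ge_atTop N] with n hn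
  have hRn : R ≤ n := hN.trans (by exact_mod_cast hn)
  refine (high_le hR hRn (cplx f)).trans ?_
  refine Finset.sum_le_sum fun k _ => ?_
  rw [(h k).DD_eq, ← norm_cplx (d k)]
  gcongr
  exact norm_PP_le _ _

/-- the divergence of an element of `H3` vanishes (on the Fourier side) -/
def DivF (h : H3) : Prop := ∀ᵐ ξ ∂(volume : Measure E3), ∑ j, (ξ j : ℂ) * (𝓕 h : H3) ξ j = 0

/-- the gradient of a Schwartz function -/
noncomputable def gradS (a : 𝓢(E3, ℂ)) : 𝓢(E3, F3) := ∑ j, sc j (∂_{ee j} a)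

theorem gradS_apply (a : 𝓢(E3, ℂ)) (x : E3) (j : Fin 3) : gradS a x j = (∂_{ee j} a) x := by
  rw [gradS, sum_apply]
  simp [sc_apply, Pi.single_apply]

theorem fderiv_eq_sum (φ : 𝓢(E3, ℝ)) (x v : E3) :
    fderiv ℝ φ x v = ∑ j, v j * (∂_{ee j} φ) x := by
  have h1 : v = ∑ j, v j • ee j := by
    ext i
    simp [ee, Pi.single_apply]
  conv_lhs => rw [h1]
  rw [map_sum]
  refine Finset.sum_congr rfl fun j _ => ?_
  rw [map_smul, smul_eq_mul, SchwartzMap.lineDerivOp_apply_eq_fderiv]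

theorem IsDivFree.grad {f : V3} (h : IsDivFree f) (a : 𝓢(E3, ℂ)) :
    ⟪(gradS a).toLp 2 (volume : Measure E3), cplx f⟫_ℂ = 0 := by
  have h1 : ⟪(reS (gradS a)).toLp 2 (volume : Measure E3), f⟫_ℝ = 0 := by
    rw [← integral_inner_eq, ← h (a.postcompCLM (Complex.reCLM))]
    apply integral_congr_ae
    refine Eventually.of_forall fun x => ?_
    simp only
    rw [fderiv_eq_sum, PiLp.inner_apply]
    refine Finset.sum_congr rfl fun j _ => ?_
    rw [lineDeriv_postcomp, reS_apply, reP_apply, gradS_apply]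
    simp [SchwartzMap.postcompCLM_apply]
  have h2 : ⟪(imS (gradS a)).toLp 2 (volume : Measure E3), f⟫_ℝ = 0 := by
    rw [← integral_inner_eq, ← h (a.postcompCLM (Complex.imCLM))]
    apply integral_congr_ae
    refine Eventually.of_forall fun x => ?_
    simp only
    rw [fderiv_eq_sum, PiLp.inner_apply]
    refine Finset.sum_congr rfl fun j _ => ?_
    rw [lineDeriv_postcomp, imS_apply, imP_apply, gradS_apply]
    simp [SchwartzMap.postcompCLM_apply]
  rw [inner_toLp_cplx, h1, h2]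
  simp

theorem fourier_gradS (a : 𝓢(E3, ℂ)) (ξ : E3) (j : Fin 3) :
    𝓕 (gradS a) ξ j = (2 * π * Complex.I * (ξ j : ℂ)) * 𝓕 a ξ := by
  have h1 : 𝓕 (gradS a) = ∑ i, sc i (𝓕 (∂_{ee i} a)) := by
    have h2 : 𝓕 (gradS a) = ∑ i, 𝓕 (sc i (∂_{ee i} a)) := by
      rw [gradS]
      exact map_sum (SchwartzMap.fourierTransformCLM ℂ) _ _
    rw [h2]
    refine Finset.sum_congr rfl fun i _ => ?_
    rw [sc, fourier_postcomp]
    rfl
  rw [h1, sum_apply]
  have h3 : ∀ i, sc i (𝓕 (∂_{ee i} a)) ξ =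
      ((2 * π * Complex.I * (ξ i : ℂ)) * 𝓕 a ξ) • EuclideanSpace.single i (1:ℂ) := by
    intro i
    rw [sc_apply]
    congr 1
    rw [SchwartzMap.fourier_lineDerivOp_eq]
    have h1 : (fun x : E3 => ⟪x, ee i⟫_ℝ).HasTemperateGrowth := by fun_prop
    rw [smul_apply, SchwartzMap.smulLeftCLM_apply_apply h1]
    have h2 : ⟪ξ, ee i⟫_ℝ = ξ i := by
      simp [ee, EuclideanSpace.inner_single_right]
    rw [h2, ← Complex.coe_smul, smul_smul, smul_eq_mul]
  simp only [h3]
  simp [Pi.single_apply]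

/-- a divergence-free field has a divergence-free Fourier transform -/
theorem IsDivFree.divF {f : V3} (h : IsDivFree f) : DivF (cplx f) := by
  set F : H3 := 𝓕 (cplx f) with hF
  have key : (fun ξ => ∑ j, (ξ j : ℂ) * F ξ j) =ᵐ[volume] 0 := by
    apply ae_zero_of_test
    · apply locallyIntegrable_finsetSum
      intro j _
      exact (locInt_comp F j).continuous_mul (by fun_prop)
    · intro b
      set a : 𝓢(E3, ℂ) := 𝓕⁻ b with ha
      have h0 : 𝓕 a = b := by rw [ha, FourierTransform.fourier_fourierInv_eq]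
      have h1 := h.grad a
      rw [← Lp.inner_fourier_eq, SchwartzMap.toLp_fourier_eq, inner_toLp] at h1
      have h2 : ∀ ξ, ⟪𝓕 (gradS a) ξ, F ξ⟫_ℂ =
          (-(2 * π * Complex.I)) * (conj (b ξ) * ∑ j, (ξ j : ℂ) * F ξ j) := by
        intro ξ
        rw [PiLp.inner_apply, Finset.mul_sum, Finset.mul_sum]
        refine Finset.sum_congr rfl fun j _ => ?_
        rw [fourier_gradS, h0]
        simp only [RCLike.inner_apply, map_mul, Complex.conj_ofReal, Complex.conj_I, map_ofNat]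
        ring
      simp only [← hF, h2] at h1
      rw [integral_const_mul] at h1
      rcases mul_eq_zero.1 h1 with h3 | h3
      · exfalso
        rw [neg_eq_zero] at h3
        exact Complex.two_pi_I_ne_zero h3
      · exact h3
  filter_upwards [key] with ξ h1
  exact h1

end Pool.Agent.TO
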