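import Pool.Agent.TO.Defs

/-!
# Complexification and Fourier multipliers on `L²(ℝ³; ℂ³)`
-/

set_option autoImplicit false

namespace Pool.Agent.TO

open MeasureTheory Set Filter Topology
open scoped SchwartzMap InnerProductSpace LineDeriv Laplacian ENNReal FourierTransform ComplexConjugate

/-- `ℂ³` -/
abbrev F3 := EuclideanSpace ℂ (Fin 3)

/-- `L²(ℝ³; ℂ³)` -/
noncomputable abbrev H3 := Lp F3 2 (volume : Measure E3)

/-- the inclusion `ℝ³ → ℂ³` -/
noncomputable def incl : E3 →L[ℝ] F3 :=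
  LinearMap.toContinuousLinearMap
    { toFun := fun x => WithLp.toLp 2 (fun i => ((x i : ℝ) : ℂ))
      map_add' := fun x y => by ext i; simp
      map_smul' := fun c x => by ext i; simp }

/-- the real part `ℂ³ → ℝ³` -/
noncomputable def reP : F3 →L[ℝ] E3 :=
  LinearMap.toContinuousLinearMap
    { toFun := fun x => WithLp.toLp 2 (fun i => (x i).re)
      map_add' := fun x y => by ext i; simp
      map_smul' := fun c x => by ext i; simp }

/-- the imaginary part `ℂ³ → ℝ³` -/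
noncomputable def imP : F3 →L[ℝ] E3 :=
  LinearMap.toContinuousLinearMap
    { toFun := fun x => WithLp.toLp 2 (fun i => (x i).im)
      map_add' := fun x y => by ext i; simp
      map_smul' := fun c x => by ext i; simp }

@[simp] theorem incl_apply (x : E3) (i : Fin 3) : incl x i = ((x i : ℝ) : ℂ) := rfl
@[simp] theorem reP_apply (x : F3) (i : Fin 3) : reP x i = (x i).re := rfl
@[simp] theorem imP_apply (x : F3) (i : Fin 3) : imP x i = (x i).im := rfl

theorem inner_incl (x y : E3) : ⟪incl x, incl y⟫_ℂ = ((⟪x, y⟫_ℝ : ℝ) : ℂ) := by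
  simp [PiLp.inner_apply]

theorem norm_incl (x : E3) : ‖incl x‖ = ‖x‖ := by
  rw [EuclideanSpace.norm_eq, EuclideanSpace.norm_eq]
  congr 1
  refine Finset.sum_congr rfl fun i _ => ?_
  rw [incl_apply, Complex.norm_real]

/-- complexification of a real field -/
noncomputable def cplx : V3 →L[ℝ] H3 := incl.compLpL 2 volume

theorem coe_cplx (f : V3) : (cplx f : E3 → F3) =ᵐ[volume] fun x => incl (f x) :=
  ContinuousLinearMap.coeFn_compLpL _ _

theorem norm_cplx (f : V3) : ‖cplx f‖ = ‖f‖ := by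
  rw [Lp.norm_def, Lp.norm_def]
  congr 1
  apply eLpNorm_congr_norm_ae
  filter_upwards [coe_cplx f] with x hx
  rw [hx, norm_incl]

theorem inner_cplx (f g : V3) : ⟪cplx f, cplx g⟫_ℂ = ((⟪f, g⟫_ℝ : ℝ) : ℂ) := by
  rw [L2.inner_def, L2.inner_def, ← integral_complex_ofReal]
  apply integral_congr_ae
  filter_upwards [coe_cplx f, coe_cplx g] with x hx hy
  rw [hx, hy, inner_incl]

/-- multiplication by a bounded function (zero if `m` is not essentially bounded) -/
noncomputable def mulOp (m : E3 → ℂ) : H3 →L[ℂ] H3 := by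
  classical
  exact if h : MemLp m ∞ (volume : Measure E3) then
    (ContinuousLinearMap.lsmul ℂ ℂ : ℂ →L[ℂ] F3 →L[ℂ] F3).holderL volume ∞ 2 2 h.toLp else 0

theorem coe_mulOp {m : E3 → ℂ} (hm : MemLp m ∞ (volume : Measure E3)) (f : H3) :
    (mulOp m f : E3 → F3) =ᵐ[volume] fun x => m x • f x := by
  rw [mulOp, dif_pos hm]
  have h := ContinuousLinearMap.coeFn_holder
    (B := (ContinuousLinearMap.lsmul ℂ ℂ : ℂ →L[ℂ] F3 →L[ℂ] F3)) (r := 2) hm.toLp f
  filter_upwards [h, hm.coeFn_toLp] with x h1 h2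
  rw [← h2]
  exact h1

theorem norm_mulOp_le {m : E3 → ℂ} (hm : AEStronglyMeasurable m (volume : Measure E3)) {C : ℝ}
    (h : ∀ᵐ x ∂(volume : Measure E3), ‖m x‖ ≤ C) (f : H3) : ‖mulOp m f‖ ≤ C * ‖f‖ := by
  have hm' : MemLp m ∞ (volume : Measure E3) := memLp_top_of_bound hm C h
  apply Lp.norm_le_mul_norm_of_ae_le_mul
  filter_upwards [coe_mulOp hm' f, h] with x h1 h2
  rw [h1, norm_smul]
  exact mul_le_mul_of_nonneg_right h2 (norm_nonneg _)

theorem inner_mulOp {m : E3 → ℂ} (hm : MemLp m ∞ (volume : Measure E3)) (f g : H3) :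
    ⟪mulOp m f, g⟫_ℂ = ⟪f, mulOp (fun x => conj (m x)) g⟫_ℂ := by
  have hm' : MemLp (fun x => conj (m x)) ∞ (volume : Measure E3) := by
    refine ⟨?_, ?_⟩
    · exact Complex.continuous_conj.comp_aestronglyMeasurable hm.1
    · rw [eLpNorm_congr_norm_ae (g := m)]
      · exact hm.2
      · exact Eventually.of_forall fun x => by simp
  rw [L2.inner_def, L2.inner_def]
  apply integral_congr_ae
  filter_upwards [coe_mulOp hm f, coe_mulOp hm' g] with x hx hy
  rw [hx, hy, inner_smul_left, inner_smul_right]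

theorem mulOp_mulOp {m n : E3 → ℂ} (hm : MemLp m ∞ (volume : Measure E3))
    (hn : MemLp n ∞ (volume : Measure E3)) (f : H3) :
    mulOp m (mulOp n f) = mulOp (fun x => m x * n x) f := by
  have hmn : MemLp (fun x => m x * n x) ∞ (volume : Measure E3) := hn.mul' hm
  apply Lp.ext
  filter_upwards [coe_mulOp hm (mulOp n f), coe_mulOp hn f, coe_mulOp hmn f] with x h1 h2 h3
  rw [h1, h2, h3, mul_smul]

/-- the Fourier multiplier with symbol `m` -/
noncomputable def FM (m : E3 → ℂ) : H3 →L[ℂ] H3 :=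
  ((Lp.fourierTransformₗᵢ E3 F3).symm.toContinuousLinearEquiv : H3 →L[ℂ] H3) ∘L mulOp m ∘L
    ((Lp.fourierTransformₗᵢ E3 F3).toContinuousLinearEquiv : H3 →L[ℂ] H3)

theorem fourier_FM (m : E3 → ℂ) (f : H3) : 𝓕 (FM m f) = mulOp m (𝓕 f) := by
  change (Lp.fourierTransformₗᵢ E3 F3) ((Lp.fourierTransformₗᵢ E3 F3).symm
    (mulOp m ((Lp.fourierTransformₗᵢ E3 F3) f))) = mulOp m ((Lp.fourierTransformₗᵢ E3 F3) f)
  rw [LinearIsometryEquiv.apply_symm_apply]

theorem norm_FM_le {m : E3 → ℂ} (hm : AEStronglyMeasurable m (volume : Measure E3)) {C : ℝ}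
    (h : ∀ᵐ x ∂(volume : Measure E3), ‖m x‖ ≤ C) (f : H3) : ‖FM m f‖ ≤ C * ‖f‖ := by
  rw [← Lp.norm_fourier_eq (FM m f), fourier_FM, ← Lp.norm_fourier_eq f]
  exact norm_mulOp_le hm h _

theorem inner_FM {m : E3 → ℂ} (hm : MemLp m ∞ (volume : Measure E3)) (f g : H3) :
    ⟪FM m f, g⟫_ℂ = ⟪f, FM (fun x => conj (m x)) g⟫_ℂ := by
  rw [← Lp.inner_fourier_eq, ← Lp.inner_fourier_eq f, fourier_FM, fourier_FM, inner_mulOp hm]

theorem fourier_injective {f g : H3} (h : 𝓕 f = 𝓕 g) : f = g :=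
  (Lp.fourierTransformₗᵢ E3 F3).injective h

theorem FM_FM {m n : E3 → ℂ} (hm : MemLp m ∞ (volume : Measure E3))
    (hn : MemLp n ∞ (volume : Measure E3)) (f : H3) :
    FM m (FM n f) = FM (fun x => m x * n x) f := by
  apply fourier_injective
  rw [fourier_FM, fourier_FM, fourier_FM, mulOp_mulOp hm hn]

end Pool.Agent.TO
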