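import Pool.Agent.TO.Defs

/-!
# Weak Leray solutions of the Navier-Stokes equations on `ℝ³`: the definitions of the statements

The definitions of `Pool.Agent.TO.Defs`, cut into short pieces.
-/

set_option autoImplicit false

namespace Pool.Agent.TO

open MeasureTheory Set
open scoped SchwartzMap InnerProductSpace LineDeriv Laplacian ENNReal

/-- the vector field underlying an element of `L²(ℝ³; ℝ³)` -/
noncomputable def fld (f : V3) : E3 → E3 := f

/-- `∫ f · g dx` for vector fields `f`, `g` on `ℝ³` -/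
noncomputable def dotInt (f g : E3 → E3) : ℝ := ∫ x, ⟪f x, g x⟫_ℝ

/-- smooth rapidly decreasing vector fields on `ℝ³` -/
abbrev SField : Type := 𝓢(E3, E3)

/-- the partial derivative `∂_k φ` -/
noncomputable def partialD (k : Fin 3) (φ : SField) : E3 → E3 := (∂_{ee k} φ : 𝓢(E3, E3))

/-- the Laplacian `Δ φ` -/
noncomputable def lapF (φ : SField) : E3 → E3 := (Δ φ : 𝓢(E3, E3))

/-- `(f · ∇) φ` -/
noncomputable def advect (f : E3 → E3) (φ : SField) : E3 → E3 := fun x => fderiv ℝ φ x (f x)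

/-- `∫ f · ∇ψ dx` for a scalar Schwartz function `ψ` -/
noncomputable def gradInt (f : E3 → E3) (ψ : 𝓢(E3, ℝ)) : ℝ := ∫ x, fderiv ℝ ψ x (f x)

/-- `div f = 0` in the weak sense -/
def DivZero (f : V3) : Prop := ∀ ψ, gradInt (fld f) ψ = 0

/-- `g = ∂_k f` in the weak sense -/
def WeakPartial (k : Fin 3) (f g : V3) : Prop :=
  ∀ φ : SField, dotInt (partialD k φ) (fld f) = -dotInt φ (fld g)

/-- `div φ = 0` for a Schwartz vector field -/
def DivZeroS (φ : SField) : Prop := ∀ x, ∑ k, partialD k φ x k = 0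

/-- the squared norm of `L²(ℝ³; ℝ³)` -/
noncomputable def nsq (f : V3) : ℝ≥0∞ := ‖f‖ₑ ^ 2

/-- `u` is a weak Leray solution of the Navier-Stokes equations on `[0, T) × ℝ³` with initial
value `u₀`. -/
structure Leray (T : ℝ) (u₀ : V3) (u : ℝ → V3) : Prop where
  /-- the initial value -/
  init : u 0 = u₀
  /-- measurability in time -/
  meas : AEStronglyMeasurable u (volume.restrict (Ioo 0 T))
  /-- `u` is weakly continuous in time with values in `L²` -/
  wcont : ∀ g : V3, ContinuousOn (fun t => dotInt (fld g) (fld (u t))) (Ico 0 T)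
  /-- `div u = 0` -/
  div : ∀ t ∈ Ico 0 T, DivZero (u t)
  /-- `∂ₜ u = Δ u - ℙ div (u ⊗ u)`, tested with divergence-free Schwartz fields `φ` and integrated
  over `(0, t)` -/
  eqn : ∀ t ∈ Ico 0 T, ∀ φ : SField, DivZeroS φ →
    dotInt φ (fld (u t)) = dotInt φ (fld u₀) +
      ∫ s in (0:ℝ)..t, dotInt (lapF φ + advect (fld (u s)) φ) (fld (u s))
  /-- the energy inequality (in particular `u` is bounded in `L²` and `∇ u` is square integrable) -/
  energy : ∃ D : ℝ → Fin 3 → V3,
    (∀ᵐ t ∂(volume.restrict (Ioo 0 T)), ∀ k, WeakPartial k (u t) (D t k)) ∧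
    ∀ t ∈ Ico 0 T, nsq (u t) + 2 * ∫⁻ s in Ioo 0 t, ∑ k, nsq (D s k) ≤ nsq u₀

theorem Leray.isLeray {T : ℝ} {u₀ : V3} {u : ℝ → V3} (h : Leray T u₀ u) : IsLeray T u₀ u where
  init := h.init
  meas := h.meas
  wcont := h.wcont
  div := h.div
  eqn := by
    intro t ht φ hφ
    have h1 := h.eqn t ht φ hφ
    simp only [dotInt, fld, lapF, advect, Pi.add_apply, inner_add_left] at h1
    exact h1
  energy := h.energy

/-- `|f(x)| ≤ A` for almost every `x` -/
def FBdd (f : V3) (A : ℝ) : Prop := ∀ᵐ x ∂(volume : Measure E3), ‖fld f x‖ ≤ A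

/-- `|u(t, x)| ≤ a(t)` for almost every `(t, x)` -/
def LBdd (T : ℝ) (u : ℝ → V3) (a : ℝ → ℝ) : Prop :=
  ∀ᵐ t ∂(volume.restrict (Ioo 0 T)), FBdd (u t) (a t)

end Pool.Agent.TO
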