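import Pool.Agent.TO.Dens

/-!
# The nonlinear term
-/

set_option autoImplicit false

namespace Pool.Agent.TO

open MeasureTheory Set Filter Topology
open scoped SchwartzMap InnerProductSpace LineDeriv Laplacian ENNReal FourierTransform ComplexConjugate
open scoped Real

/-- `f` is bounded by `A` -/
def Bd (f : V3) (A : ℝ) : Prop := ∀ᵐ x ∂(volume : Measure E3), ‖f x‖ ≤ A

/-- the field `f_k g` (zero if it is not square integrable) -/
noncomputable def tens (k : Fin 3) (f g : V3) : V3 := by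
  classical
  exact if h : MemLp (fun x => (f x) k • g x) 2 (volume : Measure E3) then h.toLp else 0

theorem meas_tens (k : Fin 3) (f g : V3) :
    AEStronglyMeasurable (fun x => (f x) k • g x) (volume : Measure E3) := by
  have h : AEStronglyMeasurable (fun x => (f x) k) (volume : Measure E3) :=
    (EuclideanSpace.proj (𝕜 := ℝ) k).continuous.comp_aestronglyMeasurable
      (Lp.aestronglyMeasurable f)
  exact h.smul (Lp.aestronglyMeasurable g)

theorem coe_tens_left (k : Fin 3) {f : V3} {A : ℝ} (hf : Bd f A) (g : V3) :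
    (tens k f g : E3 → E3) =ᵐ[volume] fun x => (f x) k • g x := by
  have h : MemLp (fun x => (f x) k • g x) 2 (volume : Measure E3) := by
    refine (Lp.memLp g).of_le_mul (c := A) (meas_tens k f g) ?_
    filter_upwards [hf] with x hx
    rw [norm_smul]
    exact mul_le_mul_of_nonneg_right ((PiLp.norm_apply_le (f x) k).trans hx) (norm_nonneg _)
  rw [tens, dif_pos h]
  exact h.coeFn_toLp

theorem coe_tens_right (k : Fin 3) (f : V3) {g : V3} {A : ℝ} (hg : Bd g A) :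
    (tens k f g : E3 → E3) =ᵐ[volume] fun x => (f x) k • g x := by
  have h : MemLp (fun x => (f x) k • g x) 2 (volume : Measure E3) := by
    refine (Lp.memLp f).of_le_mul (c := A) (meas_tens k f g) ?_
    filter_upwards [hg] with x hx
    rw [norm_smul, mul_comm]
    exact mul_le_mul hx (PiLp.norm_apply_le (f x) k) (norm_nonneg _) ((norm_nonneg _).trans hx)
  rw [tens, dif_pos h]
  exact h.coeFn_toLp

/-- `v_k w + w_k u` with `w = v - u` -/
noncomputable def NN (k : Fin 3) (u v : V3) : V3 := tens k v (v - u) + tens k (v - u) u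

theorem coe_NN (k : Fin 3) {u v : V3} {A B : ℝ} (hu : Bd u A) (hv : Bd v B) :
    (NN k u v : E3 → E3) =ᵐ[volume]
      fun x => (v x) k • (v x - u x) + (v x - u x) k • u x := by
  filter_upwards [Lp.coeFn_add (tens k v (v - u)) (tens k (v - u) u),
    coe_tens_left k hv (v - u), coe_tens_right k (v - u) hu, Lp.coeFn_sub v u] with x h1 h2 h3 h4
  rw [NN, h1, Pi.add_apply, h2, h3, h4, Pi.sub_apply]

theorem norm_sq_eq_real (f : V3) : ‖f‖ ^ 2 = ∫ x, ‖f x‖ ^ 2 := by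
  have h := L2.inner_def (𝕜 := ℝ) f f
  rw [real_inner_self_eq_norm_sq] at h
  rw [h]
  apply integral_congr_ae
  exact Eventually.of_forall fun x => real_inner_self_eq_norm_sq _

theorem integrable_norm_sq_real (f : V3) :
    Integrable (fun x => ‖f x‖ ^ 2) (volume : Measure E3) :=
  (memLp_two_iff_integrable_sq_norm (Lp.aestronglyMeasurable f)).1 (Lp.memLp f)

theorem sum_sq_smul_add (a b c d : E3) :
    ∑ k, ‖(a k) • b + (c k) • d‖ ^ 2 ≤ ((‖a‖ * ‖b‖) + (‖c‖ * ‖d‖)) ^ 2 := by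
  have h1 : ∀ k, ‖(a k) • b + (c k) • d‖ ^ 2 =
      (a k) ^ 2 * ‖b‖ ^ 2 + 2 * (a k * c k) * ⟪b, d⟫_ℝ + (c k) ^ 2 * ‖d‖ ^ 2 := by
    intro k
    rw [norm_add_sq_real, norm_smul, norm_smul, mul_pow, mul_pow, Real.norm_eq_abs,
      Real.norm_eq_abs, sq_abs, sq_abs, inner_smul_left, inner_smul_right]
    simp only [conj_trivial]
    ring
  simp only [h1]
  rw [Finset.sum_add_distrib, Finset.sum_add_distrib, ← Finset.sum_mul, ← Finset.sum_mul,
    ← Finset.sum_mul, ← Finset.mul_sum, sum_sq_eq, sum_sq_eq]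
  have h2 : ∑ k, a k * c k = ⟪c, a⟫_ℝ := by
    rw [PiLp.inner_apply]
    simp
  rw [h2]
  have h3 : ⟪c, a⟫_ℝ * ⟪b, d⟫_ℝ ≤ (‖c‖ * ‖a‖) * (‖b‖ * ‖d‖) := by
    calc ⟪c, a⟫_ℝ * ⟪b, d⟫_ℝ ≤ |⟪c, a⟫_ℝ * ⟪b, d⟫_ℝ| := le_abs_self _
      _ = |⟪c, a⟫_ℝ| * |⟪b, d⟫_ℝ| := abs_mul _ _
      _ ≤ (‖c‖ * ‖a‖) * (‖b‖ * ‖d‖) :=
        mul_le_mul (abs_real_inner_le_norm c a) (abs_real_inner_le_norm b d) (abs_nonneg _)
          (by positivity)
  nlinarith

/-- the size of the nonlinear term -/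
theorem sum_sq_NN_le {u v : V3} {A B : ℝ} (hu : Bd u A) (hv : Bd v B) :
    ∑ k, ‖NN k u v‖ ^ 2 ≤ ((A + B) * ‖v - u‖) ^ 2 := by
  simp only [norm_sq_eq_real]
  rw [← integral_finsetSum _ (fun k _ => integrable_norm_sq_real (NN k u v)), mul_pow,
    norm_sq_eq_real, ← integral_const_mul]
  apply integral_mono_ae
  · exact integrable_finsetSum _ (fun k _ => integrable_norm_sq_real (NN k u v))
  · exact (integrable_norm_sq_real (v - u)).const_mul _
  filter_upwards [coe_NN 0 hu hv, coe_NN 1 hu hv, coe_NN 2 hu hv, Lp.coeFn_sub v u, hu, hv]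
    with x h0 h1 h2 h3 h4 h5
  have h6 : ∑ k, ‖(NN k u v : E3 → E3) x‖ ^ 2 =
      ∑ k, ‖(v x) k • (v x - u x) + (v x - u x) k • u x‖ ^ 2 := by
    rw [Fin.sum_univ_three, Fin.sum_univ_three, h0, h1, h2]
  rw [h6, h3, Pi.sub_apply]
  refine (sum_sq_smul_add _ _ _ _).trans ?_
  rw [← mul_pow]
  have hA : 0 ≤ A := (norm_nonneg _).trans h4
  have hB : 0 ≤ B := (norm_nonneg _).trans h5
  apply pow_le_pow_left₀ (by positivity)
  nlinarith [norm_nonneg (v x - u x), mul_le_mul_of_nonneg_right h5 (norm_nonneg (v x - u x)),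
    mul_le_mul_of_nonneg_left h4 (norm_nonneg (v x - u x))]

/-- the bounded operator `f ↦ (x ↦ Dφ(x) f(x))` -/
noncomputable def AA (φ : 𝓢(E3, E3)) : V3 →L[ℝ] V3 :=
  (ContinuousLinearMap.id ℝ (E3 →L[ℝ] E3)).holderL volume ∞ 2 2
    ((SchwartzMap.fderivCLM ℝ E3 E3 φ).toLp ∞ (volume : Measure E3))

theorem coe_AA (φ : 𝓢(E3, E3)) (f : V3) :
    (AA φ f : E3 → E3) =ᵐ[volume] fun x => fderiv ℝ φ x (f x) := by
  have h := ContinuousLinearMap.coeFn_holder
    (B := (ContinuousLinearMap.id ℝ (E3 →L[ℝ] E3))) (r := 2)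
    ((SchwartzMap.fderivCLM ℝ E3 E3 φ).toLp ∞ (volume : Measure E3)) f
  filter_upwards [h, (SchwartzMap.fderivCLM ℝ E3 E3 φ).coeFn_toLp ∞ (volume : Measure E3)]
    with x h1 h2
  change ((AA φ f : E3 → E3) x) = _ at h1
  rw [h1, h2]
  rfl

theorem quad_eq (φ : 𝓢(E3, E3)) (f : V3) :
    ∫ x, ⟪fderiv ℝ φ x (f x), f x⟫_ℝ = ⟪AA φ f, f⟫_ℝ := by
  rw [L2.inner_def]
  apply integral_congr_ae
  filter_upwards [coe_AA φ f] with x h
  rw [h]

theorem integrable_quad (φ : 𝓢(E3, E3)) (f : V3) :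
    Integrable (fun x => ⟪fderiv ℝ φ x (f x), f x⟫_ℝ) (volume : Measure E3) := by
  refine (L2.integrable_inner (𝕜 := ℝ) (AA φ f) f).congr ?_
  filter_upwards [coe_AA φ f] with x h
  rw [h]

theorem fderiv_field_eq_sum (φ : 𝓢(E3, E3)) (x v : E3) :
    fderiv ℝ φ x v = ∑ j, v j • (∂_{ee j} φ) x := by
  have h1 : v = ∑ j, v j • ee j := by
    ext i
    simp [ee, Pi.single_apply]
  conv_lhs => rw [h1]
  rw [map_sum]
  refine Finset.sum_congr rfl fun j _ => ?_
  rw [map_smul, SchwartzMap.lineDerivOp_apply_eq_fderiv]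

/-- the difference of the nonlinear terms -/
theorem quad_sub (φ : 𝓢(E3, E3)) {u v : V3} {A B : ℝ} (hu : Bd u A) (hv : Bd v B) :
    ⟪AA φ v, v⟫_ℝ - ⟪AA φ u, u⟫_ℝ =
      ∑ k, ⟪(∂_{ee k} φ).toLp 2 (volume : Measure E3), NN k u v⟫_ℝ := by
  rw [L2.inner_def, L2.inner_def,
    ← integral_sub (L2.integrable_inner (𝕜 := ℝ) _ _) (L2.integrable_inner (𝕜 := ℝ) _ _)]
  simp only [L2.inner_def (𝕜 := ℝ) ((∂_{ee _} φ).toLp 2 (volume : Measure E3))]
  rw [← integral_finsetSum _ (fun k _ => L2.integrable_inner (𝕜 := ℝ) _ _)]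
  apply integral_congr_ae
  filter_upwards [coe_AA φ v, coe_AA φ u, coe_NN 0 hu hv, coe_NN 1 hu hv, coe_NN 2 hu hv,
    (∂_{ee 0} φ).coeFn_toLp 2 (volume : Measure E3), (∂_{ee 1} φ).coeFn_toLp 2 (volume : Measure E3),
    (∂_{ee 2} φ).coeFn_toLp 2 (volume : Measure E3)] with x h1 h2 h3 h4 h5 h6 h7 h8
  rw [h1, h2, Fin.sum_univ_three, h3, h4, h5, h6, h7, h8, fderiv_field_eq_sum,
    fderiv_field_eq_sum, Fin.sum_univ_three, Fin.sum_univ_three]
  simp only [inner_add_left, inner_add_right, inner_sub_right, inner_smul_left, inner_smul_right,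
    PiLp.sub_apply, conj_trivial]
  ring

end Pool.Agent.TO
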