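import Pool.Agent.TO.Cor
import Pool.Agent.TO.Stmt

/-!
# Weak-strong uniqueness for bounded Leray solutions of Type I at the initial time

`u` and `v` are weak Leray solutions of the Navier-Stokes equations on `[0, T) × ℝ³` with the same
initial value `u₀ ∈ L²`, `|u(t)| ≤ a(t)` and `|v(t)| ≤ b(t)`. Write `S(t) = ∫₀ᵗ (a + b)`. If the
integral of `a²` over the set of times with `a(t) S(t) > θ` is finite for some `θ < 1/2`, then
`u = v`. (`Pool.Agent.TO.typeOne`, `Pool.Agent.TO.typeOne_local`: in particular `u = v` if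
`a = α / √t`, `b = β / √t` with `α (α + β) < 1/4`, and, near the initial time, if
`√t ‖u(t)‖_∞ → 0` and `√t ‖v(t)‖_∞` is bounded.)
-/

set_option autoImplicit false

namespace Pool.Agent.TO.TypeOne

open MeasureTheory Set Pool.Agent.TO

theorem result (T : ℝ) (u₀ : V3) (u v : ℝ → V3) (hu : Leray T u₀ u) (hv : Leray T u₀ v)
    (a b : ℝ → ℝ) (ha : ∀ t, 0 ≤ a t) (hb : ∀ t, 0 ≤ b t)
    (hua : LBdd T u a) (hvb : LBdd T v b)
    (hab : ∀ t ∈ Ioo 0 T, IntervalIntegrable (fun τ => a τ + b τ) volume 0 t)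
    (ha2 : ∀ s t, 0 < s → s ≤ t → t < T → IntervalIntegrable (fun τ => a τ ^ 2) volume s t)
    (hb2 : ∀ s t, 0 < s → s ≤ t → t < T → IntervalIntegrable (fun τ => b τ ^ 2) volume s t)
    (θ : ℝ) (hθ : θ < 1 / 2)
    (hB : ∀ t ∈ Ioo 0 T, IntegrableOn
      (fun τ => if θ < a τ * ∫ s in (0:ℝ)..τ, (a s + b s) then a τ ^ 2 else 0) (Ioo 0 t) volume) :
    ∀ t ∈ Ico 0 T, u t = v t :=
  Pair.eq ⟨hu.isLeray, hv.isLeray, hua, hvb, ha, hb, hab, ha2, hb2⟩ hθ hB

end Pool.Agent.TO.TypeOne
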