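import Pool.Agent.TO.Cancel

/-!
# The equation for the difference of two Leray solutions
-/

set_option autoImplicit false

namespace Pool.Agent.TO

open MeasureTheory Set Filter Topology
open scoped SchwartzMap InnerProductSpace LineDeriv Laplacian ENNReal FourierTransform ComplexConjugate
open scoped Real

/-- two Leray solutions with the same initial value, with pointwise bounds -/
structure Pair (T : ℝ) (u₀ : V3) (u v : ℝ → V3) (a b : ℝ → ℝ) : Prop where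
  hu : IsLeray T u₀ u
  hv : IsLeray T u₀ v
  hua : BddBy T u a
  hvb : BddBy T v b
  ha0 : ∀ t, 0 ≤ a t
  hb0 : ∀ t, 0 ≤ b t
  hab : ∀ t ∈ Ioo 0 T, IntervalIntegrable (fun τ => a τ + b τ) volume 0 t
  ha2 : ∀ s t, 0 < s → s ≤ t → t < T → IntervalIntegrable (fun τ => a τ ^ 2) volume s t
  hb2 : ∀ s t, 0 < s → s ≤ t → t < T → IntervalIntegrable (fun τ => b τ ^ 2) volume s t

variable {T : ℝ} {u₀ : V3} {u v : ℝ → V3} {a b : ℝ → ℝ}

theorem IsLeray.norm_le (h : IsLeray T u₀ u) {t : ℝ} (ht : t ∈ Ico 0 T) : ‖u t‖ ≤ ‖u₀‖ := by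
  obtain ⟨D, -, h2⟩ := h.energy
  have h3 : ‖u t‖ₑ ^ 2 ≤ ‖u₀‖ₑ ^ 2 := le_trans (le_add_of_nonneg_right zero_le) (h2 t ht)
  have h4 : ‖u t‖ₑ ≤ ‖u₀‖ₑ := (ENNReal.pow_le_pow_left_iff (two_ne_zero)).1 h3
  rwa [← ofReal_norm, ← ofReal_norm, ENNReal.ofReal_le_ofReal_iff (norm_nonneg _)] at h4

theorem IsLeray.meas_comp (h : IsLeray T u₀ u) {β : Type*} [TopologicalSpace β] {g : V3 → β}
    (hg : Continuous g) {s t : ℝ} (hs : 0 ≤ s) (ht : t ≤ T) :
    AEStronglyMeasurable (fun τ => g (u τ)) (volume.restrict (Ioo s t)) :=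
  hg.comp_aestronglyMeasurable (h.meas.mono_measure (Measure.restrict_mono
    (Ioo_subset_Ioo hs ht) le_rfl))

/-- the integrand of the weak formulation -/
noncomputable def rhs (φ : 𝓢(E3, E3)) (f : V3) : ℝ :=
  ⟪(Δ φ).toLp 2 (volume : Measure E3), f⟫_ℝ + ⟪AA φ f, f⟫_ℝ

theorem continuous_rhs (φ : 𝓢(E3, E3)) : Continuous (rhs φ) := by
  unfold rhs
  fun_prop

theorem abs_rhs_le (φ : 𝓢(E3, E3)) {f : V3} {C : ℝ} (hf : ‖f‖ ≤ C) :
    ‖rhs φ f‖ ≤ ‖(Δ φ).toLp 2 (volume : Measure E3)‖ * C + ‖AA φ‖ * C * C := by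
  have hC : 0 ≤ C := (norm_nonneg f).trans hf
  unfold rhs
  refine (norm_add_le _ _).trans ?_
  gcongr
  · exact (norm_inner_le_norm _ _).trans (by gcongr)
  · refine (norm_inner_le_norm _ _).trans ?_
    gcongr
    exact ((AA φ).le_opNorm f).trans (by gcongr)

theorem IsLeray.integrable_rhs (h : IsLeray T u₀ u) (φ : 𝓢(E3, E3)) {s t : ℝ} (hs : 0 ≤ s)
    (hst : s ≤ t) (ht : t < T) : IntervalIntegrable (fun τ => rhs φ (u τ)) volume s t := by
  rw [intervalIntegrable_iff_integrableOn_Ioo_of_le hst]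
  refine Integrable.of_bound (h.meas_comp (continuous_rhs φ) hs ht.le)
    (‖(Δ φ).toLp 2 (volume : Measure E3)‖ * ‖u₀‖ + ‖AA φ‖ * ‖u₀‖ * ‖u₀‖) ?_
  rw [ae_restrict_iff' measurableSet_Ioo]
  exact Eventually.of_forall fun τ hτ => abs_rhs_le φ (h.norm_le ⟨hs.trans hτ.1.le, hτ.2.trans ht⟩)

theorem IsLeray.eqn' (h : IsLeray T u₀ u) {t : ℝ} (ht : t ∈ Ico 0 T) {φ : 𝓢(E3, E3)}
    (hφ : TestDivFree φ) : ⟪φ.toLp 2 (volume : Measure E3), u t⟫_ℝ =
      ⟪φ.toLp 2 (volume : Measure E3), u₀⟫_ℝ + ∫ s in (0:ℝ)..t, rhs φ (u s) := by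
  have h1 := h.eqn t ht φ hφ
  rw [integral_inner_eq, integral_inner_eq] at h1
  rw [h1]
  congr 1
  apply intervalIntegral.integral_congr
  intro s _
  simp only
  rw [rhs, ← integral_inner_eq, ← quad_eq]
  apply integral_add
  · refine (L2.integrable_inner (𝕜 := ℝ) ((Δ φ).toLp 2 (volume : Measure E3)) (u s)).congr ?_
    filter_upwards [(Δ φ).coeFn_toLp 2 (volume : Measure E3)] with x hx
    rw [hx]
  · exact integrable_quad φ (u s)

theorem IsLeray.eqn'' (h : IsLeray T u₀ u) {s t : ℝ} (hs : 0 ≤ s) (hst : s ≤ t) (ht : t < T)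
    {φ : 𝓢(E3, E3)} (hφ : TestDivFree φ) : ⟪φ.toLp 2 (volume : Measure E3), u t⟫_ℝ -
      ⟪φ.toLp 2 (volume : Measure E3), u s⟫_ℝ = ∫ τ in s..t, rhs φ (u τ) := by
  rw [h.eqn' ⟨hs.trans hst, ht⟩ hφ, h.eqn' ⟨hs, hst.trans_lt ht⟩ hφ,
    ← intervalIntegral.integral_add_adjacent_intervals
      (h.integrable_rhs φ le_rfl hs (hst.trans_lt ht)) (h.integrable_rhs φ hs hst ht)]
  ring

/-- the integrand of the weak formulation for the difference -/
noncomputable def rhsD (φ : 𝓢(E3, E3)) (f g : V3) : ℝ :=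
  ⟪(Δ φ).toLp 2 (volume : Measure E3), g - f⟫_ℝ +
    ∑ k, ⟪(∂_{ee k} φ).toLp 2 (volume : Measure E3), NN k f g⟫_ℝ

theorem rhsD_eq (φ : 𝓢(E3, E3)) {f g : V3} {A B : ℝ} (hf : Bd f A) (hg : Bd g B) :
    rhsD φ f g = rhs φ g - rhs φ f := by
  rw [rhsD, rhs, rhs, ← quad_sub φ hf hg, inner_sub_right]
  ring

theorem Pair.ae_bd (P : Pair T u₀ u v a b) {s t : ℝ} (hs : 0 ≤ s) (ht : t ≤ T) :
    ∀ᵐ τ ∂(volume.restrict (Ioo s t)), Bd (u τ) (a τ) ∧ Bd (v τ) (b τ) := by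
  have h1 : ∀ᵐ τ ∂(volume.restrict (Ioo 0 T)), Bd (u τ) (a τ) ∧ Bd (v τ) (b τ) :=
    P.hua.and P.hvb
  exact ae_restrict_of_ae_restrict_of_subset (Ioo_subset_Ioo hs ht) h1

theorem Pair.integrable_rhsD (P : Pair T u₀ u v a b) (φ : 𝓢(E3, E3)) {s t : ℝ} (hs : 0 ≤ s)
    (hst : s ≤ t) (ht : t < T) :
    IntervalIntegrable (fun τ => rhsD φ (u τ) (v τ)) volume s t := by
  have h1 := (P.hv.integrable_rhs φ hs hst ht).sub (P.hu.integrable_rhs φ hs hst ht)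
  rw [intervalIntegrable_iff_integrableOn_Ioo_of_le hst] at h1 ⊢
  refine h1.congr ?_
  filter_upwards [P.ae_bd hs ht.le] with τ hτ
  rw [rhsD_eq φ hτ.1 hτ.2]

theorem integral_congr_Ioo {E : Type*} [NormedAddCommGroup E] [NormedSpace ℝ E] {f g : ℝ → E}
    {s t : ℝ} (hst : s ≤ t) (h : ∀ᵐ τ ∂(volume.restrict (Ioo s t)), f τ = g τ) :
    ∫ τ in s..t, f τ = ∫ τ in s..t, g τ := by
  rw [intervalIntegral.integral_of_le hst, intervalIntegral.integral_of_le hst,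
    integral_Ioc_eq_integral_Ioo, integral_Ioc_eq_integral_Ioo]
  exact integral_congr_ae h

/-- the weak equation for the difference, real test fields -/
theorem Pair.weq (P : Pair T u₀ u v a b) {φ : 𝓢(E3, E3)} (hφ : TestDivFree φ) {s t : ℝ}
    (hs : 0 ≤ s) (hst : s ≤ t) (ht : t < T) :
    ⟪φ.toLp 2 (volume : Measure E3), v t - u t⟫_ℝ -
      ⟪φ.toLp 2 (volume : Measure E3), v s - u s⟫_ℝ = ∫ τ in s..t, rhsD φ (u τ) (v τ) := by
  have h1 : ∫ τ in s..t, rhsD φ (u τ) (v τ) = ∫ τ in s..t, (rhs φ (v τ) - rhs φ (u τ)) := by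
    apply integral_congr_Ioo hst
    filter_upwards [P.ae_bd hs ht.le] with τ hτ
    rw [rhsD_eq φ hτ.1 hτ.2]
  rw [h1, intervalIntegral.integral_sub (P.hv.integrable_rhs φ hs hst ht)
    (P.hu.integrable_rhs φ hs hst ht), ← P.hv.eqn'' hs hst ht hφ, ← P.hu.eqn'' hs hst ht hφ,
    inner_sub_right, inner_sub_right]
  ring

/-- the complex integrand -/
noncomputable def rhsC (φ : 𝓢(E3, F3)) (f g : V3) : ℂ :=
  ⟪(Δ φ).toLp 2 (volume : Measure E3), cplx (g - f)⟫_ℂ +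
    ∑ k, ⟪(∂_{ee k} φ).toLp 2 (volume : Measure E3), cplx (NN k f g)⟫_ℂ

theorem rhsC_eq (φ : 𝓢(E3, F3)) (f g : V3) : rhsC φ f g =
    ((rhsD (reS φ) f g : ℝ) : ℂ) - Complex.I * ((rhsD (imS φ) f g : ℝ) : ℂ) := by
  simp only [rhsC, rhsD, inner_toLp_cplx, reS_laplacian, imS_laplacian, reS_lineDeriv,
    imS_lineDeriv]
  push_cast
  rw [Finset.sum_sub_distrib, ← Finset.mul_sum]
  ring

theorem test_reS {φ : 𝓢(E3, F3)} (h : ∀ x, ∑ k, (∂_{ee k} φ) x k = 0) : TestDivFree (reS φ) := by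
  intro x
  have h1 := congrArg Complex.re (h x)
  rw [Complex.re_sum] at h1
  simpa [reS_lineDeriv, reS_apply] using h1

theorem test_imS {φ : 𝓢(E3, F3)} (h : ∀ x, ∑ k, (∂_{ee k} φ) x k = 0) : TestDivFree (imS φ) := by
  intro x
  have h1 := congrArg Complex.im (h x)
  rw [Complex.im_sum] at h1
  simpa [imS_lineDeriv, imS_apply] using h1

theorem Pair.integrable_rhsC (P : Pair T u₀ u v a b) (φ : 𝓢(E3, F3)) {s t : ℝ} (hs : 0 ≤ s)
    (hst : s ≤ t) (ht : t < T) :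
    IntervalIntegrable (fun τ => rhsC φ (u τ) (v τ)) volume s t := by
  simp only [rhsC_eq]
  have h1 := P.integrable_rhsD (reS φ) hs hst ht
  have h2 := P.integrable_rhsD (imS φ) hs hst ht
  rw [intervalIntegrable_iff_integrableOn_Ioo_of_le hst] at h1 h2 ⊢
  exact h1.ofReal.sub (h2.ofReal.const_mul Complex.I)

/-- the weak equation for the difference, complex test fields -/
theorem Pair.weqC (P : Pair T u₀ u v a b) {φ : 𝓢(E3, F3)}
    (hφ : ∀ x, ∑ k, (∂_{ee k} φ) x k = 0) {s t : ℝ}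
    (hs : 0 ≤ s) (hst : s ≤ t) (ht : t < T) :
    ⟪φ.toLp 2 (volume : Measure E3), cplx (v t - u t)⟫_ℂ -
      ⟪φ.toLp 2 (volume : Measure E3), cplx (v s - u s)⟫_ℂ = ∫ τ in s..t, rhsC φ (u τ) (v τ) := by
  have h1 := P.weq (test_reS hφ) hs hst ht
  have h2 := P.weq (test_imS hφ) hs hst ht
  have i1 := P.integrable_rhsD (reS φ) hs hst ht
  have i2 := P.integrable_rhsD (imS φ) hs hst ht
  simp only [rhsC_eq]
  rw [inner_toLp_cplx, inner_toLp_cplx, intervalIntegral.integral_sub,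
    intervalIntegral.integral_const_mul, intervalIntegral.integral_ofReal,
    intervalIntegral.integral_ofReal, ← h1, ← h2]
  · push_cast
    ring
  · rw [intervalIntegrable_iff_integrableOn_Ioo_of_le hst] at i1 ⊢
    exact i1.ofReal
  · rw [intervalIntegrable_iff_integrableOn_Ioo_of_le hst] at i2 ⊢
    exact i2.ofReal.const_mul Complex.I

end Pool.Agent.TO
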