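import Pool.Agent.TO.WEq

/-!
# The equation for the difference, tested with truncated fields
-/

set_option autoImplicit false

namespace Pool.Agent.TO

open MeasureTheory Set Filter Topology
open scoped SchwartzMap InnerProductSpace LineDeriv Laplacian ENNReal FourierTransform ComplexConjugate
open scoped Real

variable {T : ℝ} {u₀ : V3} {u v : ℝ → V3} {a b : ℝ → ℝ}

/-- the integrand for a truncated test field -/
noncomputable def gam (R : ℝ) (h : H3) (f g : V3) : ℂ :=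
  ⟪∑ k, DD k R (DD k R h), cplx (g - f)⟫_ℂ + ∑ k, ⟪DD k R h, cplx (NN k f g)⟫_ℂ

theorem norm_NN_le {f g : V3} {A B : ℝ} (hA : 0 ≤ A) (hB : 0 ≤ B) (hf : Bd f A) (hg : Bd g B)
    (k : Fin 3) : ‖NN k f g‖ ≤ (A + B) * ‖g - f‖ := by
  have h1 := sum_sq_NN_le hf hg
  have h2 : ‖NN k f g‖ ^ 2 ≤ ∑ j, ‖NN j f g‖ ^ 2 :=
    Finset.single_le_sum (f := fun j => ‖NN j f g‖ ^ 2) (fun j _ => by positivity)
      (Finset.mem_univ k)
  exact le_of_sq_le_sq (h2.trans h1) (by positivity)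

theorem Pair.norm_sub_le (P : Pair T u₀ u v a b) {t : ℝ} (ht : t ∈ Ico 0 T) :
    ‖v t - u t‖ ≤ 2 * ‖u₀‖ := by
  have h1 := P.hu.norm_le ht
  have h2 := P.hv.norm_le ht
  have h3 := _root_.norm_sub_le (v t) (u t)
  linarith

theorem Pair.integrable_ab (P : Pair T u₀ u v a b) {s t : ℝ} (hs : 0 ≤ s)
    (hst : s ≤ t) (ht : t < T) : IntegrableOn (fun τ => a τ + b τ) (Ioo s t) volume := by
  rcases hst.eq_or_lt with rfl | h
  · simp
  have h1 := P.hab t ⟨hs.trans_lt h, ht⟩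
  rw [intervalIntegrable_iff_integrableOn_Ioo_of_le (hs.trans hst)] at h1
  exact h1.mono_set (Ioo_subset_Ioo_left hs)

theorem Pair.weqR (P : Pair T u₀ u v a b) {h : H3} (hd : DivF h) (R : ℝ) {s t : ℝ} (hs : 0 ≤ s)
    (hst : s ≤ t) (ht : t < T) :
    IntervalIntegrable (fun τ => gam R h (u τ) (v τ)) volume s t ∧
    ⟪PP R h, cplx (v t - u t)⟫_ℂ - ⟪PP R h, cplx (v s - u s)⟫_ℂ =
      ∫ τ in s..t, gam R h (u τ) (v τ) := by
  choose φ hφ h1 h2 h3 using fun n : ℕ => exists_approx_div hd R (ε := 1 / ((n:ℝ) + 1))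
    (by positivity)
  have hlim : Tendsto (fun n : ℕ => 1 / ((n:ℝ) + 1)) atTop (𝓝 0) :=
    tendsto_one_div_add_atTop_nhds_zero_nat
  have hle1 : ∀ n : ℕ, 1 / ((n:ℝ) + 1) ≤ 1 := fun n => by
    rw [div_le_one (by positivity)]
    have : (0:ℝ) ≤ n := Nat.cast_nonneg n
    linarith
  have t1 : Tendsto (fun n => (φ n).toLp 2 (volume : Measure E3)) atTop (𝓝 (PP R h)) := by
    rw [tendsto_iff_norm_sub_tendsto_zero]
    exact squeeze_zero (fun n => norm_nonneg _) (fun n => (h1 n).le) hlim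
  have t2 : ∀ k, Tendsto (fun n => (∂_{ee k} (φ n)).toLp 2 (volume : Measure E3)) atTop
      (𝓝 (DD k R h)) := by
    intro k
    rw [tendsto_iff_norm_sub_tendsto_zero]
    exact squeeze_zero (fun n => norm_nonneg _) (fun n => (h2 n k).le) hlim
  have t3 : Tendsto (fun n => (Δ (φ n)).toLp 2 (volume : Measure E3)) atTop
      (𝓝 (∑ k, DD k R (DD k R h))) := by
    rw [tendsto_iff_norm_sub_tendsto_zero]
    exact squeeze_zero (fun n => norm_nonneg _) (fun n => (h3 n).le) hlim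
  set L : ℝ := ‖∑ k, DD k R (DD k R h)‖ + 1 with hL
  set C : Fin 3 → ℝ := fun k => ‖DD k R h‖ + 1 with hC
  set M : ℝ → ℝ := fun τ => L * (2 * ‖u₀‖) + ∑ k, C k * ((a τ + b τ) * (2 * ‖u₀‖)) with hM
  have b2 : ∀ n k, ‖(∂_{ee k} (φ n)).toLp 2 (volume : Measure E3)‖ ≤ C k := by
    intro n k
    have g1 := h2 n k
    have g2 := norm_le_norm_add_norm_sub' ((∂_{ee k} (φ n)).toLp 2 (volume : Measure E3))
      (DD k R h)
    have g3 := hle1 n
    simp only [hC]
    linarith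
  have b3 : ∀ n, ‖(Δ (φ n)).toLp 2 (volume : Measure E3)‖ ≤ L := by
    intro n
    have g1 := h3 n
    have g2 := norm_le_norm_add_norm_sub' ((Δ (φ n)).toLp 2 (volume : Measure E3))
      (∑ k, DD k R (DD k R h))
    have g3 := hle1 n
    simp only [hL]
    linarith
  have hMi : IntegrableOn M (Ioo s t) volume := by
    refine Integrable.add (integrable_const _) ?_
    refine integrable_finsetSum _ fun k _ => ?_
    exact ((P.integrable_ab hs hst ht).mul_const _).const_mul _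
  have hNN : ∀ᵐ τ ∂(volume.restrict (Ioo s t)), ∀ k,
      ‖cplx (NN k (u τ) (v τ))‖ ≤ (a τ + b τ) * (2 * ‖u₀‖) := by
    filter_upwards [P.ae_bd hs ht.le, ae_restrict_mem measurableSet_Ioo] with τ g1 g2 k
    rw [norm_cplx]
    refine (norm_NN_le (P.ha0 τ) (P.hb0 τ) g1.1 g1.2 k).trans ?_
    have g3 := P.norm_sub_le (t := τ) ⟨hs.trans g2.1.le, g2.2.trans ht⟩
    have g4 := P.ha0 τ
    have g5 := P.hb0 τ
    gcongr
  have hw : ∀ᵐ τ ∂(volume.restrict (Ioo s t)), ‖cplx (v τ - u τ)‖ ≤ 2 * ‖u₀‖ := by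
    filter_upwards [ae_restrict_mem measurableSet_Ioo] with τ g2
    rw [norm_cplx]
    exact P.norm_sub_le (t := τ) ⟨hs.trans g2.1.le, g2.2.trans ht⟩
  have hFM : ∀ n, ∀ᵐ τ ∂(volume.restrict (Ioo s t)), ‖rhsC (φ n) (u τ) (v τ)‖ ≤ M τ := by
    intro n
    filter_upwards [hNN, hw] with τ g1 g2
    unfold rhsC
    refine (norm_add_le _ _).trans ?_
    simp only [hM]
    gcongr
    · exact (norm_inner_le_norm _ _).trans
        (mul_le_mul (b3 n) g2 (norm_nonneg _) ((norm_nonneg _).trans (b3 n)))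
    · refine (norm_sum_le _ _).trans ?_
      refine Finset.sum_le_sum fun k _ => ?_
      exact (norm_inner_le_norm _ _).trans
        (mul_le_mul (b2 n k) (g1 k) (norm_nonneg _) ((norm_nonneg _).trans (b2 n k)))
  have hFlim : ∀ τ, Tendsto (fun n => rhsC (φ n) (u τ) (v τ)) atTop
      (𝓝 (gam R h (u τ) (v τ))) := by
    intro τ
    unfold rhsC gam
    refine (t3.inner tendsto_const_nhds).add ?_
    exact tendsto_finsetSum _ fun k _ => (t2 k).inner tendsto_const_nhds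
  have hFi : ∀ n, IntegrableOn (fun τ => rhsC (φ n) (u τ) (v τ)) (Ioo s t) volume := by
    intro n
    have g := P.integrable_rhsC (φ n) hs hst ht
    rwa [intervalIntegrable_iff_integrableOn_Ioo_of_le hst] at g
  have hgi : IntegrableOn (fun τ => gam R h (u τ) (v τ)) (Ioo s t) volume := by
    refine Integrable.mono' hMi ?_ ?_
    · exact aestronglyMeasurable_of_tendsto_ae atTop (fun n => (hFi n).1)
        (Eventually.of_forall hFlim)
    · have g1 : ∀ᵐ τ ∂(volume.restrict (Ioo s t)), ∀ n, ‖rhsC (φ n) (u τ) (v τ)‖ ≤ M τ :=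
        ae_all_iff.2 hFM
      filter_upwards [g1] with τ g2
      exact le_of_tendsto (hFlim τ).norm (Eventually.of_forall g2)
  refine ⟨by rwa [intervalIntegrable_iff_integrableOn_Ioo_of_le hst], ?_⟩
  have lim1 : Tendsto (fun n => ∫ τ in Ioo s t, rhsC (φ n) (u τ) (v τ)) atTop
      (𝓝 (∫ τ in Ioo s t, gam R h (u τ) (v τ))) :=
    tendsto_integral_of_dominated_convergence M (fun n => (hFi n).1) hMi hFM
      (Eventually.of_forall hFlim)
  have lim2 : Tendsto (fun n => ⟪(φ n).toLp 2 (volume : Measure E3), cplx (v t - u t)⟫_ℂ -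
      ⟪(φ n).toLp 2 (volume : Measure E3), cplx (v s - u s)⟫_ℂ) atTop
      (𝓝 (⟪PP R h, cplx (v t - u t)⟫_ℂ - ⟪PP R h, cplx (v s - u s)⟫_ℂ)) :=
    (t1.inner tendsto_const_nhds).sub (t1.inner tendsto_const_nhds)
  have heq : ∀ n, ⟪(φ n).toLp 2 (volume : Measure E3), cplx (v t - u t)⟫_ℂ -
      ⟪(φ n).toLp 2 (volume : Measure E3), cplx (v s - u s)⟫_ℂ =
      ∫ τ in Ioo s t, rhsC (φ n) (u τ) (v τ) := by
    intro n
    rw [P.weqC (hφ n) hs hst ht, intervalIntegral.integral_of_le hst, integral_Ioc_eq_integral_Ioo]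
  rw [intervalIntegral.integral_of_le hst, integral_Ioc_eq_integral_Ioo]
  refine tendsto_nhds_unique ?_ lim1
  simpa only [heq] using lim2

end Pool.Agent.TO
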